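import Pool.Agent.H12.KA.WIN
import Pool.Agent.H7.KSAT.SL

/-!
# Planks: the operation `Fam.plk`

Window of length `2 ^ (-w)`, chart coordinate `i0`, frame `z` (slopes over the chart coordinate, a
function of the line, the window and the side information), precision `lam` of the frame. Plank
coordinates of a vector `x`: `x i0`, and `2 ^ lam * (x j - z j * x i0)` for `j ≠ i0`. The label of
the window is `Fam.plab`: index of the window, frame, cell of the position at the beginning of the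
window (`Fam.pcl`), cell of the velocity (`Fam.pvl`). Inside, the lines are straight, with
positions and velocities in `[0, 1)`; the direction of `F.plk w lam i0 z` does not depend on `w`.
-/

set_option autoImplicit false

namespace Pool.KA

open Finset Real
open Pool.Agent.H49.Ent Pool.Agent.H32.Dense Pool.STK

variable {m J : ℕ}

/-- Plank coordinates. -/
noncomputable def pco (lam : ℕ) (i0 : Fin m) (z x : Fin m → ℝ) (i : Fin m) : ℝ :=
  if i = i0 then x i0 else 2 ^ lam * (x i - z i * x i0)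

/-- The cell of the velocity. -/
noncomputable def Fam.pvl (F : Fam m J) (lam : ℕ) (i0 : Fin m) (z : F.Ω → Fin m → ℝ) (ω : F.Ω) :
    Fin m → ℤ := fl 0 (pco lam i0 (z ω) (F.d ω))

/-- The cell of the position at the beginning of the window. -/
noncomputable def Fam.pcl (F : Fam m J) (w lam : ℕ) (i0 : Fin m) (z : F.Ω → Fin m → ℝ)
    (ω : F.Ω) : Fin m → ℤ := fl w (pco lam i0 (z ω) (F.x1 w ω))

/-- The label of the plank. -/
noncomputable def Fam.plab (F : Fam m J) (w lam : ℕ) (i0 : Fin m) (z : F.Ω → Fin m → ℝ)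
    (ω : F.Ω) : ((ℕ × (Fin m → ℝ)) × ((Fin m → ℤ) × (Fin m → ℤ))) × F.ζ :=
  (((F.T1 w ω, z ω), (F.pcl w lam i0 z ω, F.pvl lam i0 z ω)), F.Z ω)

/-- The family inside the planks. -/
noncomputable def Fam.plk (F : Fam m J) (w lam : ℕ) (i0 : Fin m) (z : F.Ω → Fin m → ℝ) :
    Fam m (J - w) where
  Ω := F.Ω
  ζ := ((ℕ × (Fin m → ℝ)) × ((Fin m → ℤ) × (Fin m → ℤ))) × F.ζ
  fin := F.fin
  p := F.p
  u := fun ω i => Int.fract (2 ^ w * pco lam i0 (z ω) (F.x1 w ω) i)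
  d := fun ω i => Int.fract (pco lam i0 (z ω) (F.d ω) i)
  T := fun ω => F.T ω % 2 ^ (J - w)
  Z := F.plab w lam i0 z
  isLaw := F.isLaw
  dir := fun ω i => by
    rw [abs_of_nonneg (Int.fract_nonneg _)]
    exact (Int.fract_lt_one _).le
  tim := fun _ => Nat.mod_lt _ (by positivity)

namespace Plk

/-! ### Algebra of plank coordinates -/

theorem pco_add_mul (lam : ℕ) (i0 : Fin m) (z x y : Fin m → ℝ) (t : ℝ) (i : Fin m) :
    pco lam i0 z (fun j => x j + t * y j) i = pco lam i0 z x i + t * pco lam i0 z y i := by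
  unfold pco
  split_ifs with h
  · rfl
  · ring

theorem pco_inj (lam : ℕ) (i0 : Fin m) (z x y : Fin m → ℝ)
    (h : ∀ i, pco lam i0 z x i = pco lam i0 z y i) : x = y := by
  have h0 : x i0 = y i0 := by
    have := h i0
    simpa [pco] using this
  funext i
  by_cases hi : i = i0
  · rw [hi]; exact h0
  · have := h i
    unfold pco at this
    rw [if_neg hi, if_neg hi, h0] at this
    have h2 : (2 : ℝ) ^ lam ≠ 0 := by positivity
    have := mul_left_cancel₀ h2 this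
    linarith

theorem fract_floor_inj {a b : ℝ} (h : Int.fract a = Int.fract b) (h' : ⌊a⌋ = ⌊b⌋) : a = b := by
  rw [← Int.floor_add_fract a, ← Int.floor_add_fract b, h, h']

/-! ### The line and the window are determined by the plank data -/

theorem line_det (F : Fam m J) {w lam : ℕ} {i0 : Fin m} {z : F.Ω → Fin m → ℝ} {ω ω' : F.Ω}
    (hl : (F.plk w lam i0 z).l ω = (F.plk w lam i0 z).l ω')
    (hZ : F.plab w lam i0 z ω = F.plab w lam i0 z ω') :
    F.l ω = F.l ω' ∧ F.T1 w ω = F.T1 w ω' ∧ z ω = z ω' ∧ F.Z ω = F.Z ω' := by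
  have e1 : (fun i => Int.fract (2 ^ w * pco lam i0 (z ω) (F.x1 w ω) i)) =
      fun i => Int.fract (2 ^ w * pco lam i0 (z ω') (F.x1 w ω') i) := (Prod.ext_iff.mp hl).1
  have e2 : (fun i => Int.fract (pco lam i0 (z ω) (F.d ω) i)) =
      fun i => Int.fract (pco lam i0 (z ω') (F.d ω') i) := (Prod.ext_iff.mp hl).2
  have e3 := (Prod.ext_iff.mp (Prod.ext_iff.mp hZ).1)
  have e4 : F.T1 w ω = F.T1 w ω' := (Prod.ext_iff.mp e3.1).1
  have e5 : z ω = z ω' := (Prod.ext_iff.mp e3.1).2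
  have e6 : F.pcl w lam i0 z ω = F.pcl w lam i0 z ω' := (Prod.ext_iff.mp e3.2).1
  have e7 : F.pvl lam i0 z ω = F.pvl lam i0 z ω' := (Prod.ext_iff.mp e3.2).2
  have e8 : F.Z ω = F.Z ω' := (Prod.ext_iff.mp hZ).2
  have hd : F.d ω = F.d ω' := by
    refine pco_inj lam i0 (z ω) _ _ fun i => ?_
    have h1 := congrFun e2 i
    have h2 := congrFun e7 i
    have h3 : ⌊2 ^ 0 * pco lam i0 (z ω) (F.d ω) i⌋ = ⌊2 ^ 0 * pco lam i0 (z ω') (F.d ω') i⌋ := h2
    rw [pow_zero, one_mul, one_mul] at h3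
    have h4 := fract_floor_inj h1 h3
    rw [← e5] at h4
    exact h4
  have hx : F.x1 w ω = F.x1 w ω' := by
    refine pco_inj lam i0 (z ω) _ _ fun i => ?_
    have h1 := congrFun e1 i
    have h2 := congrFun e6 i
    have h3 : ⌊2 ^ w * pco lam i0 (z ω) (F.x1 w ω) i⌋ =
      ⌊2 ^ w * pco lam i0 (z ω') (F.x1 w ω') i⌋ := h2
    have h4 := fract_floor_inj h1 h3
    rw [← e5] at h4
    exact mul_left_cancel₀ (by positivity) h4
  have hu : F.u ω = F.u ω' := by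
    funext i
    have h1 := congrFun hx i
    unfold Fam.x1 at h1
    rw [e4, hd] at h1
    linarith
  exact ⟨Prod.ext hu hd, e4, e5, e8⟩

/-- The label is a function of the line, the window and the side information, if the frame is. -/
theorem plab_det (F : Fam m J) {w lam : ℕ} {i0 : Fin m} {z : F.Ω → Fin m → ℝ} {ω ω' : F.Ω}
    (hl : F.l ω = F.l ω') (hT : F.T1 w ω = F.T1 w ω') (hz : z ω = z ω') (hZ : F.Z ω = F.Z ω') :
    F.plab w lam i0 z ω = F.plab w lam i0 z ω' ∧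
      (F.plk w lam i0 z).l ω = (F.plk w lam i0 z).l ω' := by
  have hu : F.u ω = F.u ω' := (Prod.ext_iff.mp hl).1
  have hd : F.d ω = F.d ω' := (Prod.ext_iff.mp hl).2
  have hx : F.x1 w ω = F.x1 w ω' := by
    funext i
    unfold Fam.x1
    rw [hu, hd, hT]
  constructor
  · unfold Fam.plab Fam.pcl Fam.pvl
    rw [hT, hz, hx, hd, hZ]
  · refine Prod.ext ?_ ?_
    · change (fun i => Int.fract (2 ^ w * pco lam i0 (z ω) (F.x1 w ω) i)) =
        fun i => Int.fract (2 ^ w * pco lam i0 (z ω') (F.x1 w ω') i)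
      rw [hz, hx]
    · change (fun i => Int.fract (pco lam i0 (z ω) (F.d ω) i)) =
        fun i => Int.fract (pco lam i0 (z ω') (F.d ω') i)
      rw [hz, hd]

/-! ### Times -/

lemma T_split (F : Fam m J) (w : ℕ) (ω : F.Ω) :
    F.T ω = 2 ^ (J - w) * F.T1 w ω + F.T ω % 2 ^ (J - w) := by
  unfold Fam.T1
  exact (Nat.div_add_mod _ _).symm

/-- The time digits of the plank family. -/
theorem T1_plk (F : Fam m J) {w K : ℕ} (h : w + K ≤ J) (lam : ℕ) (i0 : Fin m)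
    (z : F.Ω → Fin m → ℝ) (ω : F.Ω) :
    F.T1 (w + K) ω = 2 ^ K * F.T1 w ω + (F.plk w lam i0 z).T1 K ω := by
  have e1 : (F.plk w lam i0 z).T1 K ω = F.T ω % 2 ^ (J - w) / 2 ^ (J - w - K) := rfl
  have e2 : F.T1 (w + K) ω = F.T ω / 2 ^ (J - (w + K)) := rfl
  have e3 : F.T1 w ω = F.T ω / 2 ^ (J - w) := rfl
  have e4 : J - (w + K) = J - w - K := by omega
  have e5 : 2 ^ (J - w) = 2 ^ (J - w - K) * 2 ^ K := by
    rw [← pow_add]; congr 1; omega
  rw [e1, e2, e3, e4]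
  obtain ⟨A, hA⟩ : ∃ A, A = 2 ^ (J - w - K) := ⟨_, rfl⟩
  have hA0 : 0 < A := by rw [hA]; positivity
  rw [e5, ← hA]
  have h1 := Nat.div_add_mod (F.T ω) (A * 2 ^ K)
  have h2 : F.T ω = F.T ω % (A * 2 ^ K) + A * (2 ^ K * (F.T ω / (A * 2 ^ K))) := by
    rw [← mul_assoc]; omega
  calc F.T ω / A = (F.T ω % (A * 2 ^ K) + A * (2 ^ K * (F.T ω / (A * 2 ^ K)))) / A := by
        rw [← h2]
    _ = F.T ω % (A * 2 ^ K) / A + 2 ^ K * (F.T ω / (A * 2 ^ K)) := by
        rw [Nat.add_mul_div_left _ _ hA0]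
    _ = 2 ^ K * (F.T ω / (A * 2 ^ K)) + F.T ω % (A * 2 ^ K) / A := by ring

/-- The time deficit does not increase. -/
theorem plk_Tm (F : Fam m J) {w lam : ℕ} (hw : w ≤ J) (i0 : Fin m) (z : F.Ω → Fin m → ℝ)
    (hz : ∀ ω ω', 0 < F.p ω → 0 < F.p ω' → F.l ω = F.l ω' → F.T1 w ω = F.T1 w ω' →
      F.Z ω = F.Z ω' → z ω = z ω') {e : ℝ} (he : F.Tm e) : (F.plk w lam i0 z).Tm e := by
  have h0 := F.isLaw.nonneg
  unfold Fam.Tm at he ⊢
  have c1 := CH_le_add h0 F.T (F.T1 w) (fun ω => (F.l ω, F.Z ω))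
  have d1 : CH F.p (F.T1 w) (fun ω => (F.l ω, F.Z ω)) ≤ w * Real.log 2 := by
    refine (CH_le_card h0 F.isLaw.sum_one (F.T1 w) _ (fun _ => Finset.range (2 ^ w)) ?_).trans ?_
    · intro ω _
      rw [Finset.mem_range]
      unfold Fam.T1
      rw [Nat.div_lt_iff_lt_mul (by positivity), ← pow_add]
      have h1 := F.tim ω
      have e1 : w + (J - w) = J := by omega
      rwa [e1]
    · rw [Finset.card_range]
      push_cast
      rw [Ex_const F.isLaw.sum_one, Real.log_pow]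
  have d2 : CH F.p F.T (fun ω => (F.T1 w ω, (F.l ω, F.Z ω))) =
      CH (F.plk w lam i0 z).p (F.plk w lam i0 z).T
        (fun ω => ((F.plk w lam i0 z).l ω, (F.plk w lam i0 z).Z ω)) := by
    refine CH_congr h0 ?_ ?_ ?_ ?_
    · intro ω ω' _ _ h
      have h1 := (Prod.ext_iff.mp h).1
      simp only at h1
      change F.T ω % 2 ^ (J - w) = F.T ω' % 2 ^ (J - w)
      rw [h1]
    · intro ω ω' _ _ h
      have h1 : F.T ω % 2 ^ (J - w) = F.T ω' % 2 ^ (J - w) := (Prod.ext_iff.mp h).1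
      have h2 := (Prod.ext_iff.mp h).2
      have h3 : (F.plk w lam i0 z).l ω = (F.plk w lam i0 z).l ω' := (Prod.ext_iff.mp h2).1
      have h4 : F.plab w lam i0 z ω = F.plab w lam i0 z ω' := (Prod.ext_iff.mp h2).2
      have h5 := (line_det F h3 h4).2.1
      rw [T_split F w ω, T_split F w ω', h1, h5]
    · intro ω ω' hω hω' h
      have h1 := (Prod.ext_iff.mp h)
      have h2 := (Prod.ext_iff.mp h1.2)
      simp only at h1 h2
      have h3 := hz ω ω' hω hω' h2.1 h1.1 h2.2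
      have h4 := plab_det F (lam := lam) (i0 := i0) h2.1 h1.1 h3 h2.2
      exact Prod.ext h4.2 h4.1
    · intro ω ω' _ _ h
      have h3 : (F.plk w lam i0 z).l ω = (F.plk w lam i0 z).l ω' := (Prod.ext_iff.mp h).1
      have h4 : F.plab w lam i0 z ω = F.plab w lam i0 z ω' := (Prod.ext_iff.mp h).2
      obtain ⟨a1, a2, a3, a4⟩ := line_det F h3 h4
      exact Prod.ext a2 (Prod.ext a1 a4)
  have d3 : ((J - w : ℕ) : ℝ) * Real.log 2 = J * Real.log 2 - w * Real.log 2 := by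
    rw [Nat.cast_sub hw]
    ring
  rw [← d2, d3]
  linarith

/-! ### Positions -/

theorem plk_t (F : Fam m J) {w : ℕ} (hw : w ≤ J) (lam : ℕ) (i0 : Fin m)
    (z : F.Ω → Fin m → ℝ) (ω : F.Ω) :
    F.t ω = (F.T1 w ω : ℝ) / 2 ^ w + (F.plk w lam i0 z).t ω * (2 ^ w)⁻¹ := by
  have h := Win.time_split J w (F.T ω) hw
  unfold Fam.t Fam.T1
  exact h

theorem pvl_eq (F : Fam m J) (w lam : ℕ) (i0 : Fin m) (z : F.Ω → Fin m → ℝ) (ω : F.Ω)
    (i : Fin m) : pco lam i0 (z ω) (F.d ω) i =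
      F.pvl lam i0 z ω i + (F.plk w lam i0 z).d ω i := by
  have e1 : (F.plk w lam i0 z).d ω i = Int.fract (pco lam i0 (z ω) (F.d ω) i) := rfl
  have e2 : F.pvl lam i0 z ω i = ⌊2 ^ 0 * pco lam i0 (z ω) (F.d ω) i⌋ := rfl
  rw [e1, e2, pow_zero, one_mul]
  exact (Int.floor_add_fract _).symm

theorem pcl_eq (F : Fam m J) (w lam : ℕ) (i0 : Fin m) (z : F.Ω → Fin m → ℝ) (ω : F.Ω)
    (i : Fin m) : 2 ^ w * pco lam i0 (z ω) (F.x1 w ω) i =
      F.pcl w lam i0 z ω i + (F.plk w lam i0 z).u ω i := by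
  have e1 : (F.plk w lam i0 z).u ω i = Int.fract (2 ^ w * pco lam i0 (z ω) (F.x1 w ω) i) := rfl
  have e2 : F.pcl w lam i0 z ω i = ⌊2 ^ w * pco lam i0 (z ω) (F.x1 w ω) i⌋ := rfl
  rw [e1, e2]
  exact (Int.floor_add_fract _).symm

/-- The positions in the plank. -/
theorem plk_x (F : Fam m J) {w : ℕ} (hw : w ≤ J) (lam : ℕ) (i0 : Fin m)
    (z : F.Ω → Fin m → ℝ) (ω : F.Ω) (i : Fin m) :
    2 ^ w * pco lam i0 (z ω) (F.x ω) i = (F.plk w lam i0 z).x ω i + F.pcl w lam i0 z ω i +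
      (F.plk w lam i0 z).t ω * F.pvl lam i0 z ω i := by
  have h1 : F.x ω = fun j => F.x1 w ω j + ((F.plk w lam i0 z).t ω * (2 ^ w)⁻¹) * F.d ω j := by
    funext j
    unfold Fam.x Fam.x1
    rw [plk_t F hw lam i0 z ω]
    ring
  have h2 : (F.plk w lam i0 z).x ω i = (F.plk w lam i0 z).u ω i +
    (F.plk w lam i0 z).t ω * (F.plk w lam i0 z).d ω i := rfl
  rw [h1, pco_add_mul, mul_add, pcl_eq, pvl_eq F w, h2]
  have h3 : (2 : ℝ) ^ w ≠ 0 := by positivity
  field_simp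
  ring

theorem u_mem (F : Fam m J) (w lam : ℕ) (i0 : Fin m) (z : F.Ω → Fin m → ℝ) (ω : F.Ω)
    (i : Fin m) : 0 ≤ (F.plk w lam i0 z).u ω i ∧ (F.plk w lam i0 z).u ω i < 1 :=
  ⟨Int.fract_nonneg _, Int.fract_lt_one _⟩

theorem d_mem (F : Fam m J) (w lam : ℕ) (i0 : Fin m) (z : F.Ω → Fin m → ℝ) (ω : F.Ω)
    (i : Fin m) : 0 ≤ (F.plk w lam i0 z).d ω i ∧ (F.plk w lam i0 z).d ω i < 1 :=
  ⟨Int.fract_nonneg _, Int.fract_lt_one _⟩

theorem t_mem (F : Fam m J) (w lam : ℕ) (i0 : Fin m) (z : F.Ω → Fin m → ℝ) (ω : F.Ω) :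
    0 ≤ (F.plk w lam i0 z).t ω ∧ (F.plk w lam i0 z).t ω < 1 := by
  unfold Fam.t
  have h := (F.plk w lam i0 z).tim ω
  constructor
  · positivity
  · rw [div_lt_one (by positivity)]
    exact_mod_cast h

theorem x_mem (F : Fam m J) (w lam : ℕ) (i0 : Fin m) (z : F.Ω → Fin m → ℝ) (ω : F.Ω)
    (i : Fin m) : 0 ≤ (F.plk w lam i0 z).x ω i ∧ (F.plk w lam i0 z).x ω i < 2 := by
  have h1 := u_mem F w lam i0 z ω i
  have h2 := d_mem F w lam i0 z ω i
  have h3 := t_mem F w lam i0 z ω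
  have h4 : (F.plk w lam i0 z).x ω i = (F.plk w lam i0 z).u ω i +
    (F.plk w lam i0 z).t ω * (F.plk w lam i0 z).d ω i := rfl
  have h5 : (F.plk w lam i0 z).t ω * (F.plk w lam i0 z).d ω i ≤ 1 * 1 :=
    mul_le_mul h3.2.le h2.2.le h2.1 zero_le_one
  have h6 := mul_nonneg h3.1 h2.1
  rw [h4]
  constructor
  · linarith
  · linarith

/-- Nested cells: the cell of the shorter window in terms of the plank family. -/
theorem pcl_add (F : Fam m J) {w K : ℕ} (h : w + K ≤ J) (lam : ℕ) (i0 : Fin m)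
    (z : F.Ω → Fin m → ℝ) (ω : F.Ω) (i : Fin m) :
    F.pcl (w + K) lam i0 z ω i = fl K ((F.plk w lam i0 z).x1 K ω) i +
      2 ^ K * F.pcl w lam i0 z ω i + (F.plk w lam i0 z).T1 K ω * F.pvl lam i0 z ω i := by
  have e1 : F.pcl (w + K) lam i0 z ω i =
    ⌊2 ^ (w + K) * pco lam i0 (z ω) (F.x1 (w + K) ω) i⌋ := rfl
  have e2 : fl K ((F.plk w lam i0 z).x1 K ω) i =
    ⌊2 ^ K * ((F.plk w lam i0 z).u ω i + ((F.plk w lam i0 z).T1 K ω : ℝ) / 2 ^ K *
      (F.plk w lam i0 z).d ω i)⌋ := rfl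
  have e3 : F.x1 (w + K) ω = fun j => F.x1 w ω j +
      (((F.plk w lam i0 z).T1 K ω : ℝ) / 2 ^ (w + K)) * F.d ω j := by
    funext j
    unfold Fam.x1
    rw [T1_plk F h lam i0 z ω]
    push_cast
    have h2 : (2 : ℝ) ^ w ≠ 0 := by positivity
    have h3 : (2 : ℝ) ^ K ≠ 0 := by positivity
    rw [pow_add]
    field_simp
    ring
  have e4 : (2 : ℝ) ^ (w + K) * pco lam i0 (z ω) (F.x1 (w + K) ω) i =
      2 ^ K * ((F.plk w lam i0 z).u ω i + ((F.plk w lam i0 z).T1 K ω : ℝ) / 2 ^ K *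
      (F.plk w lam i0 z).d ω i) + ((2 ^ K * F.pcl w lam i0 z ω i +
        (F.plk w lam i0 z).T1 K ω * F.pvl lam i0 z ω i : ℤ) : ℝ) := by
    rw [e3, pco_add_mul, pvl_eq F w]
    have h1 := pcl_eq F w lam i0 z ω i
    have h2 : (2 : ℝ) ^ w ≠ 0 := by positivity
    have h3 : (2 : ℝ) ^ K ≠ 0 := by positivity
    have h4 : pco lam i0 (z ω) (F.x1 w ω) i =
        (F.pcl w lam i0 z ω i + (F.plk w lam i0 z).u ω i) / 2 ^ w := by
      rw [← h1]; field_simp
    rw [h4, pow_add]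
    push_cast
    field_simp
    ring
  rw [e1, e4, Int.floor_add_intCast, e2]
  ring

/-- The cell of the position at the time of the sample and at the beginning of its window. -/
theorem X_cell (F : Fam m J) {w K : ℕ} (h : w + K ≤ J) (lam : ℕ) (i0 : Fin m)
    (z : F.Ω → Fin m → ℝ) (ω : F.Ω) (i : Fin m) :
    fl K ((F.plk w lam i0 z).x1 K ω) i ≤ (F.plk w lam i0 z).X K ω i ∧
      (F.plk w lam i0 z).X K ω i ≤ fl K ((F.plk w lam i0 z).x1 K ω) i + 1 := by
  have e1 : (F.plk w lam i0 z).X K ω i = ⌊2 ^ K * ((F.plk w lam i0 z).u ω i +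
    (F.plk w lam i0 z).t ω * (F.plk w lam i0 z).d ω i)⌋ := rfl
  have e2 : fl K ((F.plk w lam i0 z).x1 K ω) i =
    ⌊2 ^ K * ((F.plk w lam i0 z).u ω i + ((F.plk w lam i0 z).T1 K ω : ℝ) / 2 ^ K *
      (F.plk w lam i0 z).d ω i)⌋ := rfl
  have hT := Pool.KSAT.T1_real (F.plk w lam i0 z) (g := K) (by omega) ω
  have hd := d_mem F w lam i0 z ω i
  obtain ⟨s, hs⟩ : ∃ s, s = 2 ^ K * (F.plk w lam i0 z).t ω - (F.plk w lam i0 z).T1 K ω := ⟨_, rfl⟩
  rw [← hs] at hT
  have e3 : (2 : ℝ) ^ K * ((F.plk w lam i0 z).u ω i +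
      (F.plk w lam i0 z).t ω * (F.plk w lam i0 z).d ω i) =
      2 ^ K * ((F.plk w lam i0 z).u ω i + ((F.plk w lam i0 z).T1 K ω : ℝ) / 2 ^ K *
      (F.plk w lam i0 z).d ω i) + s * (F.plk w lam i0 z).d ω i := by
    rw [hs]
    have h3 : (2 : ℝ) ^ K ≠ 0 := by positivity
    field_simp
    ring
  have h0 : 0 ≤ s * (F.plk w lam i0 z).d ω i := mul_nonneg hT.1 hd.1
  have h1 : s * (F.plk w lam i0 z).d ω i < 1 := by nlinarith [hT.1, hT.2, hd.1, hd.2]
  rw [e1, e2, e3]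
  constructor
  · exact Int.floor_le_floor (by linarith)
  · rw [← Int.floor_add_one]
    exact Int.floor_le_floor (by linarith)

/-! ### Entropy forms -/

theorem floor_sub_lt {x y c : ℝ} (h : |x - y| ≤ c) : |((⌊x⌋ - ⌊y⌋ : ℤ) : ℝ)| ≤ c + 1 := by
  have h1 := Int.floor_le x
  have h2 := Int.lt_floor_add_one x
  have h3 := Int.floor_le y
  have h4 := Int.lt_floor_add_one y
  push_cast
  rw [abs_le] at h ⊢
  constructor <;> linarith [h.1, h.2]

/-- (C1) The position in the plank given the labels of the two windows. -/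
theorem CH_X_le (F : Fam m J) {w K : ℕ} (h : w + K ≤ J) (lam : ℕ) (i0 : Fin m)
    (z : F.Ω → Fin m → ℝ) :
    CH F.p ((F.plk w lam i0 z).X K)
      (fun ω => (F.plab (w + K) lam i0 z ω, F.plab w lam i0 z ω)) ≤ m * Real.log 3 := by
  have h0 := F.isLaw.nonneg
  have key := CH_le_vec h0 F.isLaw.sum_one ((F.plk w lam i0 z).X K)
    (fun ω => (F.plab (w + K) lam i0 z ω, F.plab w lam i0 z ω)) (fun _ => 1) ?_
  · rw [Ex_const F.isLaw.sum_one] at key
    norm_num at key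
    exact key
  · intro ω ω' _ _ hW i
    have h1 := (Prod.ext_iff.mp hW).1
    have h2 := (Prod.ext_iff.mp hW).2
    simp only at h1 h2
    have a1 : F.T1 (w + K) ω = F.T1 (w + K) ω' :=
      (Prod.ext_iff.mp (Prod.ext_iff.mp (Prod.ext_iff.mp h1).1).1).1
    have a2 : F.pcl (w + K) lam i0 z ω = F.pcl (w + K) lam i0 z ω' :=
      (Prod.ext_iff.mp (Prod.ext_iff.mp (Prod.ext_iff.mp h1).1).2).1
    have b1 : F.T1 w ω = F.T1 w ω' :=
      (Prod.ext_iff.mp (Prod.ext_iff.mp (Prod.ext_iff.mp h2).1).1).1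
    have b2 : F.pcl w lam i0 z ω = F.pcl w lam i0 z ω' :=
      (Prod.ext_iff.mp (Prod.ext_iff.mp (Prod.ext_iff.mp h2).1).2).1
    have b3 : F.pvl lam i0 z ω = F.pvl lam i0 z ω' :=
      (Prod.ext_iff.mp (Prod.ext_iff.mp (Prod.ext_iff.mp h2).1).2).2
    have c1 := T1_plk F h lam i0 z ω
    have c2 := T1_plk F h lam i0 z ω'
    have c3 : (F.plk w lam i0 z).T1 K ω = (F.plk w lam i0 z).T1 K ω' := by
      rw [a1, b1] at c1
      omega
    have d1 := pcl_add F h lam i0 z ω i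
    have d2 := pcl_add F h lam i0 z ω' i
    rw [a2, b2, b3, c3] at d1
    have d3 : fl K ((F.plk w lam i0 z).x1 K ω) i = fl K ((F.plk w lam i0 z).x1 K ω') i := by
      linarith
    have f1 := X_cell F h lam i0 z ω i
    have f2 := X_cell F h lam i0 z ω' i
    rw [d3] at f1
    have f3 : |(F.plk w lam i0 z).X K ω i - (F.plk w lam i0 z).X K ω' i| ≤ 1 := by
      rw [abs_le]
      constructor <;> linarith [f1.1, f1.2, f2.1, f2.2]
    exact_mod_cast f3

/-- (C2) The label of the shorter window given the position in the plank. -/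
theorem CH_pcl_le (F : Fam m J) {w K : ℕ} (h : w + K ≤ J) (lam : ℕ) (i0 : Fin m)
    (z : F.Ω → Fin m → ℝ) :
    CH F.p (F.plab (w + K) lam i0 z)
      (fun ω => ((F.plk w lam i0 z).X K ω, (F.plk w lam i0 z).T1 K ω, F.plab w lam i0 z ω)) ≤
        m * Real.log 3 := by
  have h0 := F.isLaw.nonneg
  have key := CH_le_vec h0 F.isLaw.sum_one (F.pcl (w + K) lam i0 z)
    (fun ω => ((F.plk w lam i0 z).X K ω, (F.plk w lam i0 z).T1 K ω, F.plab w lam i0 z ω))
    (fun _ => 1) ?_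
  · rw [Ex_const F.isLaw.sum_one] at key
    norm_num at key
    refine le_trans ?_ key
    refine CH_mono_left h0 ?_
    intro ω ω' _ _ hh
    have a1 : F.pcl (w + K) lam i0 z ω = F.pcl (w + K) lam i0 z ω' := (Prod.ext_iff.mp hh).1
    have h2 := (Prod.ext_iff.mp (Prod.ext_iff.mp hh).2).2
    have c3 : (F.plk w lam i0 z).T1 K ω = (F.plk w lam i0 z).T1 K ω' := (Prod.ext_iff.mp h2).1
    have h3 : F.plab w lam i0 z ω = F.plab w lam i0 z ω' := (Prod.ext_iff.mp h2).2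
    have h4 := Prod.ext_iff.mp h3
    have h5 := Prod.ext_iff.mp h4.1
    have b1 : F.T1 w ω = F.T1 w ω' := (Prod.ext_iff.mp h5.1).1
    have b2 : z ω = z ω' := (Prod.ext_iff.mp h5.1).2
    have b3 : F.pvl lam i0 z ω = F.pvl lam i0 z ω' := (Prod.ext_iff.mp h5.2).2
    have b4 : F.Z ω = F.Z ω' := h4.2
    have c4 : F.T1 (w + K) ω = F.T1 (w + K) ω' := by
      rw [T1_plk F h lam i0 z ω, T1_plk F h lam i0 z ω', b1, c3]
    unfold Fam.plab
    rw [c4, b2, a1, b3, b4]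
  · intro ω ω' _ _ hW i
    have a1 := (Prod.ext_iff.mp hW).1
    have h2 := (Prod.ext_iff.mp (Prod.ext_iff.mp hW).2)
    simp only at a1 h2
    have h4 := Prod.ext_iff.mp h2.2
    have h5 := Prod.ext_iff.mp h4.1
    have b2 : F.pcl w lam i0 z ω = F.pcl w lam i0 z ω' := (Prod.ext_iff.mp h5.2).1
    have b3 : F.pvl lam i0 z ω = F.pvl lam i0 z ω' := (Prod.ext_iff.mp h5.2).2
    have d1 := pcl_add F h lam i0 z ω i
    have d2 := pcl_add F h lam i0 z ω' i
    rw [b2, b3, h2.1] at d1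
    have f1 := X_cell F h lam i0 z ω i
    have f2 := X_cell F h lam i0 z ω' i
    rw [a1] at f1
    have f3 : |F.pcl (w + K) lam i0 z ω i - F.pcl (w + K) lam i0 z ω' i| ≤ 1 := by
      rw [d1, d2, abs_le]
      constructor <;> linarith [f1.1, f1.2, f2.1, f2.2]
    exact_mod_cast f3

/-- (C3) The labels are nested. -/
theorem CH_plab_nest (F : Fam m J) {w K : ℕ} (h : w + K ≤ J) (lam : ℕ) (i0 : Fin m)
    (z : F.Ω → Fin m → ℝ) :
    CH F.p (F.plab w lam i0 z) (F.plab (w + K) lam i0 z) ≤ m * Real.log 5 := by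
  have h0 := F.isLaw.nonneg
  have hT1 : ∀ ω, F.T1 w ω = F.T1 (w + K) ω / 2 ^ K := fun ω => Pool.KSAT.T1_div F h ω
  have key := CH_le_vec h0 F.isLaw.sum_one (F.pcl w lam i0 z) (F.plab (w + K) lam i0 z)
    (fun _ => 2) ?_
  · rw [Ex_const F.isLaw.sum_one] at key
    norm_num at key
    refine le_trans ?_ key
    refine CH_mono_left h0 ?_
    intro ω ω' _ _ hh
    have a1 : F.pcl w lam i0 z ω = F.pcl w lam i0 z ω' := (Prod.ext_iff.mp hh).1
    have h3 : F.plab (w + K) lam i0 z ω = F.plab (w + K) lam i0 z ω' := (Prod.ext_iff.mp hh).2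
    have h4 := Prod.ext_iff.mp h3
    have h5 := Prod.ext_iff.mp h4.1
    have b1 : F.T1 (w + K) ω = F.T1 (w + K) ω' := (Prod.ext_iff.mp h5.1).1
    have b2 : z ω = z ω' := (Prod.ext_iff.mp h5.1).2
    have b3 : F.pvl lam i0 z ω = F.pvl lam i0 z ω' := (Prod.ext_iff.mp h5.2).2
    have b4 : F.Z ω = F.Z ω' := h4.2
    unfold Fam.plab
    rw [hT1 ω, hT1 ω', b1, b2, a1, b3, b4]
  · intro ω ω' _ _ hW i
    have h4 := Prod.ext_iff.mp hW
    have h5 := Prod.ext_iff.mp h4.1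
    have b1 : F.T1 (w + K) ω = F.T1 (w + K) ω' := (Prod.ext_iff.mp h5.1).1
    have b2 : F.pcl (w + K) lam i0 z ω = F.pcl (w + K) lam i0 z ω' := (Prod.ext_iff.mp h5.2).1
    have b3 : F.pvl lam i0 z ω = F.pvl lam i0 z ω' := (Prod.ext_iff.mp h5.2).2
    have c1 := T1_plk F h lam i0 z ω
    have c2 := T1_plk F h lam i0 z ω'
    have c0 : F.T1 w ω = F.T1 w ω' := by rw [hT1, hT1, b1]
    have c3 : (F.plk w lam i0 z).T1 K ω = (F.plk w lam i0 z).T1 K ω' := by
      rw [b1, c0] at c1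
      omega
    have d1 := pcl_add F h lam i0 z ω i
    have d2 := pcl_add F h lam i0 z ω' i
    rw [b2, b3, c3] at d1
    have hx : ∀ ω'', 0 ≤ fl K ((F.plk w lam i0 z).x1 K ω'') i ∧
        ((fl K ((F.plk w lam i0 z).x1 K ω'') i : ℤ) : ℝ) < 2 * 2 ^ K := by
      intro ω''
      have f1 := X_cell F h lam i0 z ω'' i
      have e2 : fl K ((F.plk w lam i0 z).x1 K ω'') i =
        ⌊2 ^ K * ((F.plk w lam i0 z).u ω'' i + ((F.plk w lam i0 z).T1 K ω'' : ℝ) / 2 ^ K *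
        (F.plk w lam i0 z).d ω'' i)⌋ := rfl
      have g1 := u_mem F w lam i0 z ω'' i
      have g2 := d_mem F w lam i0 z ω'' i
      have g3 : 0 ≤ ((F.plk w lam i0 z).T1 K ω'' : ℝ) / 2 ^ K * (F.plk w lam i0 z).d ω'' i :=
        mul_nonneg (by positivity) g2.1
      constructor
      · rw [e2]
        exact Int.floor_nonneg.mpr (mul_nonneg (by positivity) (by linarith [g1.1]))
      · have e1 : (F.plk w lam i0 z).X K ω'' i = ⌊2 ^ K * (F.plk w lam i0 z).x ω'' i⌋ := rfl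
        have g4 := x_mem F w lam i0 z ω'' i
        have g5 : (((F.plk w lam i0 z).X K ω'' i : ℤ) : ℝ) ≤ 2 ^ K * (F.plk w lam i0 z).x ω'' i := by
          rw [e1]; exact Int.floor_le _
        have g6 : ((fl K ((F.plk w lam i0 z).x1 K ω'') i : ℤ) : ℝ) ≤
            (((F.plk w lam i0 z).X K ω'' i : ℤ) : ℝ) := by exact_mod_cast f1.1
        have g7 : (2 : ℝ) ^ K * (F.plk w lam i0 z).x ω'' i < 2 ^ K * 2 :=
          mul_lt_mul_of_pos_left g4.2 (by positivity)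
        linarith
    have k1 := hx ω
    have k2 := hx ω'
    have k3 : (2 : ℤ) ^ K * (F.pcl w lam i0 z ω i - F.pcl w lam i0 z ω' i) =
        fl K ((F.plk w lam i0 z).x1 K ω') i - fl K ((F.plk w lam i0 z).x1 K ω) i := by
      linarith
    have k4 : (2 : ℝ) ^ K * ((F.pcl w lam i0 z ω i - F.pcl w lam i0 z ω' i : ℤ) : ℝ) =
        ((fl K ((F.plk w lam i0 z).x1 K ω') i : ℤ) : ℝ) -
        ((fl K ((F.plk w lam i0 z).x1 K ω) i : ℤ) : ℝ) := by
      exact_mod_cast k3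
    have p2 : (0 : ℝ) < 2 ^ K := by positivity
    have n1 : (0 : ℝ) ≤ ((fl K ((F.plk w lam i0 z).x1 K ω) i : ℤ) : ℝ) := by exact_mod_cast k1.1
    have n2 : (0 : ℝ) ≤ ((fl K ((F.plk w lam i0 z).x1 K ω') i : ℤ) : ℝ) := by exact_mod_cast k2.1
    obtain ⟨y, hy⟩ : ∃ y : ℝ, y = ((F.pcl w lam i0 z ω i - F.pcl w lam i0 z ω' i : ℤ) : ℝ) :=
      ⟨_, rfl⟩
    rw [← hy] at k4 ⊢
    rw [abs_le]
    constructor
    · by_contra hc
      push Not at hc
      have : (2 : ℝ) ^ K * y < 2 ^ K * (-2) := mul_lt_mul_of_pos_left hc p2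
      linarith [k1.2]
    · by_contra hc
      push Not at hc
      have : (2 : ℝ) ^ K * 2 < 2 ^ K * y := mul_lt_mul_of_pos_left hc p2
      linarith [k2.2]

end Plk

end Pool.KA
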