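import Pool.Agent.H64.K2.Plk2
import Pool.Agent.H35.K2S.Pj

/-!
# Planks: strips

A strip in the plank coordinates of a plane is near a line with the precision `lam + hh`, or its
chart coordinate lies in a short interval.
-/

set_option autoImplicit false

namespace Pool.KA

open Finset Real
open Pool.Agent.H49.Ent Pool.Agent.H32.Dense Pool.STK Pool.K2S

variable {J : ℕ}

namespace Plk

/-- **Strips in plank coordinates.** Two cases: a line, or an interval of the chart coordinate. -/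
theorem strip_cases {i0 j0 : Fin 2} (hij : j0 ≠ i0) {lam hh x1 h : ℕ} (hc : hh + x1 + 4 ≤ h)
    (z v b P : Fin 2 → ℝ) :
    (∃ s n : Fin 2 → ℝ, ∀ (d D : Fin 2 → ℝ), (∀ i, pco lam i0 z d i = P i + D i) →
      (∃ c : ℝ, ∀ i, |D i - v i - c * b i| ≤ 4 / 2 ^ h) →
        ∀ i, |d i - s i * d i0 - n i| ≤ ((2 : ℝ) ^ (lam + hh))⁻¹) ∨
    (∃ y : ℝ, ∀ (d D : Fin 2 → ℝ), (∀ i, pco lam i0 z d i = P i + D i) →
      (∀ i, 0 ≤ D i ∧ D i < 1) → (∃ c : ℝ, ∀ i, |D i - v i - c * b i| ≤ 4 / 2 ^ h) →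
        |d i0 - y| ≤ ((2 : ℝ) ^ x1)⁻¹) := by
  obtain ⟨r, hr⟩ : ∃ r : ℝ, r = 4 / 2 ^ h := ⟨_, rfl⟩
  obtain ⟨A, hA⟩ : ∃ A : ℝ, A = ((2 : ℝ) ^ hh)⁻¹ := ⟨_, rfl⟩
  obtain ⟨B, hB⟩ : ∃ B : ℝ, B = ((2 : ℝ) ^ x1)⁻¹ := ⟨_, rfl⟩
  have hA0 : 0 < A := by rw [hA]; positivity
  have hB0 : 0 < B := by rw [hB]; positivity
  have hA1 : A ≤ 1 := by rw [hA]; exact inv_le_one_of_one_le₀ (one_le_pow₀ (by norm_num))
  have hB1 : B ≤ 1 := by rw [hB]; exact inv_le_one_of_one_le₀ (one_le_pow₀ (by norm_num))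
  have hr0 : 0 < r := by rw [hr]; positivity
  have hr1 : r ≤ A * B / 4 := by
    rw [hr, hA, hB]
    have h1 : (2 : ℝ) ^ (hh + x1 + 4) ≤ 2 ^ h := pow_le_pow_right₀ (by norm_num) hc
    rw [pow_add, pow_add] at h1
    have p1 : (0 : ℝ) < 2 ^ hh := by positivity
    have p2 : (0 : ℝ) < 2 ^ x1 := by positivity
    have p3 : (0 : ℝ) < 2 ^ h := by positivity
    rw [← mul_inv, div_eq_mul_inv (((2 : ℝ) ^ hh * 2 ^ x1)⁻¹), ← mul_inv, div_le_iff₀ p3,
      inv_mul_eq_div, le_div_iff₀ (by positivity)]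
    linarith
  have hrB : r ≤ B / 4 := hr1.trans (by nlinarith)
  have hi : ∀ i : Fin 2, i = i0 ∨ i = j0 := by
    intro i
    fin_cases i <;> fin_cases i0 <;> fin_cases j0 <;> simp_all
  rw [← hr]
  by_cases hcase : B / 2 * |b j0| ≤ |b i0| ∧ b i0 ≠ 0
  · -- the line
    left
    obtain ⟨h1, h2⟩ := hcase
    obtain ⟨μ, hμ⟩ : ∃ μ : ℝ, μ = b j0 / b i0 := ⟨_, rfl⟩
    have hb : b j0 = μ * b i0 := by rw [hμ]; field_simp
    have hμ1 : B / 2 * |μ| ≤ 1 := by
      rw [hb, abs_mul] at h1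
      have h3 : 0 < |b i0| := abs_pos.mpr h2
      have h4 : (B / 2 * |μ|) * |b i0| ≤ 1 * |b i0| := by linarith
      exact le_of_mul_le_mul_right h4 h3
    refine ⟨fun i => if i = i0 then 1 else z i + μ / 2 ^ lam,
      fun i => if i = i0 then 0 else (P j0 + v j0 - μ * P i0 - μ * v i0) / 2 ^ lam, ?_⟩
    rintro d D hd ⟨c, hcD⟩ i
    have p0 : (0 : ℝ) < 2 ^ lam := by positivity
    beta_reduce
    rcases hi i with rfl | rfl
    · rw [if_pos rfl, if_pos rfl]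
      have : d i - 1 * d i - 0 = 0 := by ring
      rw [this, abs_zero]
      positivity
    · rw [if_neg hij, if_neg hij]
      have c1 := hcD i0
      have c2 := hcD i
      have d1 := hd i0
      have d2 := hd i
      unfold pco at d1 d2
      rw [if_pos rfl] at d1
      rw [if_neg hij] at d2
      have e1 : d i - (z i + μ / 2 ^ lam) * d i0 -
          (P i + v i - μ * P i0 - μ * v i0) / 2 ^ lam =
          ((D i - v i - c * b i) - μ * (D i0 - v i0 - c * b i0)) / 2 ^ lam := by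
        rw [hb]
        have d3 : D i = 2 ^ lam * (d i - z i * d i0) - P i := by linarith
        have d4 : D i0 = d i0 - P i0 := by linarith
        rw [d3, d4]
        field_simp
        ring
      rw [e1, abs_div, abs_of_pos p0, div_le_iff₀ p0]
      have e2 : ((2 : ℝ) ^ (lam + hh))⁻¹ * 2 ^ lam = A := by
        rw [hA, pow_add]
        field_simp
      rw [e2]
      have k1 := abs_sub (D i - v i - c * b i) (μ * (D i0 - v i0 - c * b i0))
      rw [abs_mul] at k1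
      have k2 : |μ| * |D i0 - v i0 - c * b i0| ≤ |μ| * r :=
        mul_le_mul_of_nonneg_left c1 (abs_nonneg _)
      have k3 : |μ| * r ≤ |μ| * (A * B / 4) := mul_le_mul_of_nonneg_left hr1 (abs_nonneg _)
      have k4 : |μ| * (A * B / 4) = A / 2 * (B / 2 * |μ|) := by ring
      have k5 : A / 2 * (B / 2 * |μ|) ≤ A / 2 * 1 :=
        mul_le_mul_of_nonneg_left hμ1 (by positivity)
      have k6 : A * B / 4 ≤ A / 4 := by nlinarith
      linarith
  · -- the interval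
    right
    by_cases hbj : b j0 = 0
    · -- both coordinates are zero
      have h3 : b i0 = 0 := by
        by_contra h3
        exact hcase ⟨by rw [hbj, abs_zero, mul_zero]; exact abs_nonneg _, h3⟩
      refine ⟨P i0 + v i0, ?_⟩
      rintro d D hd _ ⟨c, hcD⟩
      have c1 := hcD i0
      have d1 := hd i0
      unfold pco at d1
      rw [if_pos rfl] at d1
      rw [h3, mul_zero, sub_zero] at c1
      have e1 : d i0 - (P i0 + v i0) = D i0 - v i0 := by linarith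
      rw [e1, ← hB]
      linarith
    · have h1 : |b i0| ≤ B / 2 * |b j0| := by
        by_contra h1
        push Not at h1
        refine hcase ⟨h1.le, ?_⟩
        rintro h3
        rw [h3, abs_zero] at h1
        have : 0 ≤ B / 2 * |b j0| := mul_nonneg (by positivity) (abs_nonneg _)
        linarith
      obtain ⟨ν, hν⟩ : ∃ ν : ℝ, ν = b i0 / b j0 := ⟨_, rfl⟩
      have hb : b i0 = ν * b j0 := by rw [hν]; field_simp
      have hν1 : |ν| ≤ B / 2 := by
        rw [hb, abs_mul] at h1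
        exact le_of_mul_le_mul_right h1 (abs_pos.mpr hbj)
      refine ⟨P i0 + v i0 - ν * v j0, ?_⟩
      rintro d D hd hD ⟨c, hcD⟩
      have c1 := hcD i0
      have c2 := hcD j0
      have d1 := hd i0
      unfold pco at d1
      rw [if_pos rfl] at d1
      have e1 : d i0 - (P i0 + v i0 - ν * v j0) =
          (D i0 - v i0 - c * b i0) + ν * (c * b j0 + v j0) := by
        rw [hb]
        have d4 : D i0 = d i0 - P i0 := by linarith
        rw [d4]
        ring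
      rw [e1, ← hB]
      have k1 := abs_add_le (D i0 - v i0 - c * b i0) (ν * (c * b j0 + v j0))
      rw [abs_mul] at k1
      have k2 : |c * b j0 + v j0| ≤ 1 + r := by
        have k3 := abs_le.1 c2
        have k4 := hD j0
        rw [abs_le]
        constructor <;> linarith [k3.1, k3.2, k4.1, k4.2]
      have k5 : |ν| * |c * b j0 + v j0| ≤ B / 2 * (1 + r) :=
        mul_le_mul hν1 k2 (abs_nonneg _) (by positivity)
      have k6 : r ≤ 1 / 4 := hrB.trans (by linarith)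
      nlinarith

open Classical in
/-- **Strips, k = 1.** If the directions are nonconcentrated near lines with precision `lam + hh`
and the chart coordinate is nonconcentrated on intervals, given `E`, then the directions of the
plank family are nonconcentrated on strips, given every function `L` of `E` which determines the
frame and the cell of the velocity. -/
theorem strip_conc {ε S : Type} (F : Fam 2 J) {w lam hh x1 h : ℕ} (hc : hh + x1 + 4 ≤ h)
    {i0 : Fin 2} {z : F.Ω → Fin 2 → ℝ} {E : F.Ω → ε} {L : F.Ω → S} {ρ : ℝ}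
    (h1 : NonConc F.p F.d E (fun D (s : (Fin 2 → ℝ) × (Fin 2 → ℝ)) =>
      ∀ j, |D j - s.1 j * D i0 - s.2 j| ≤ ((2 : ℝ) ^ (lam + hh))⁻¹) ρ)
    (h2 : NonConc F.p (fun ω => F.d ω i0) E (fun D (v : ℝ) => |D - v| ≤ ((2 : ℝ) ^ x1)⁻¹) ρ)
    (hE : Det F.p E L) (hL : Det F.p L (fun ω => (z ω, F.pvl lam i0 z ω)))
    (ω : F.Ω) (hω : 0 < F.p ω) (v : Fin 2 → ℝ) (B : Fin 1 → Fin 2 → ℝ) :
    (∑ ω', if ∃ c : Fin 1 → ℝ, ∀ j, |(F.plk w lam i0 z).d ω' j - v j - ∑ i, c i * B i j| ≤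
      4 / 2 ^ h then Pool.Agent.H49.Ent.cond F.p L (L ω) ω' else 0) ≤ ρ := by
  have hlaw := F.isLaw
  obtain ⟨j0, hij⟩ : ∃ j0 : Fin 2, j0 ≠ i0 := by
    fin_cases i0
    · exact ⟨1, by simp⟩
    · exact ⟨0, by simp⟩
  have g1 := h1.coarse hlaw hE
  have g2 := h2.coarse hlaw hE
  have hLp : ∀ ω', 0 < F.p ω' → L ω' = L ω → z ω' = z ω ∧
      F.pvl lam i0 z ω' = F.pvl lam i0 z ω := by
    intro ω' hω' h
    have := Prod.ext_iff.mp (hL ω' ω hω' hω h)
    exact this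
  have hd : ∀ ω', 0 < F.p ω' → L ω' = L ω → ∀ i, pco lam i0 (z ω) (F.d ω') i =
      (F.pvl lam i0 z ω i : ℝ) + (F.plk w lam i0 z).d ω' i := by
    intro ω' hω' h i
    have a1 := hLp ω' hω' h
    have a2 := pvl_eq F w lam i0 z ω' i
    rw [a1.1, a1.2] at a2
    exact a2
  have hsum : ∀ ω', (∃ c : Fin 1 → ℝ, ∀ j, |(F.plk w lam i0 z).d ω' j - v j -
      ∑ i, c i * B i j| ≤ 4 / 2 ^ h) → ∃ c : ℝ, ∀ j, |(F.plk w lam i0 z).d ω' j - v j -
      c * B 0 j| ≤ 4 / 2 ^ h := by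
    rintro ω' ⟨c, hc⟩
    refine ⟨c 0, fun j => ?_⟩
    have := hc j
    rwa [Fin.sum_univ_one] at this
  have hcond0 : ∀ ω', 0 ≤ Pool.Agent.H49.Ent.cond F.p L (L ω) ω' :=
    fun ω' => cond_nonneg hlaw.nonneg L (L ω) ω'
  have hcondp : ∀ ω', Pool.Agent.H49.Ent.cond F.p L (L ω) ω' ≠ 0 → 0 < F.p ω' ∧ L ω' = L ω := by
    intro ω' h
    have h3 : 0 < Pool.Agent.H49.Ent.cond F.p L (L ω) ω' := lt_of_le_of_ne (hcond0 ω') (Ne.symm h)
    exact (cond_pos_iff hlaw.nonneg L (L ω) ω').1 h3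
  rcases strip_cases hij (lam := lam) hc (z ω) v (B 0) (fun i => (F.pvl lam i0 z ω i : ℝ)) with
    ⟨s, n, hs⟩ | ⟨y, hy⟩
  · refine le_trans (Finset.sum_le_sum fun ω' _ => ?_) (g1.cond_le hlaw hω (s, n))
    by_cases hst : ∃ c : Fin 1 → ℝ, ∀ j, |(F.plk w lam i0 z).d ω' j - v j -
        ∑ i, c i * B i j| ≤ 4 / 2 ^ h
    · rw [if_pos hst]
      by_cases h0 : Pool.Agent.H49.Ent.cond F.p L (L ω) ω' = 0
      · rw [h0]
        split_ifs <;> exact le_rfl
      · obtain ⟨q1, q2⟩ := hcondp ω' h0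
        rw [if_pos (hs (F.d ω') _ (hd ω' q1 q2) (hsum ω' hst))]
    · rw [if_neg hst]
      split_ifs
      · exact hcond0 ω'
      · exact le_rfl
  · refine le_trans (Finset.sum_le_sum fun ω' _ => ?_) (g2.cond_le hlaw hω y)
    by_cases hst : ∃ c : Fin 1 → ℝ, ∀ j, |(F.plk w lam i0 z).d ω' j - v j -
        ∑ i, c i * B i j| ≤ 4 / 2 ^ h
    · rw [if_pos hst]
      by_cases h0 : Pool.Agent.H49.Ent.cond F.p L (L ω) ω' = 0
      · rw [h0]
        split_ifs <;> exact le_rfl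
      · obtain ⟨q1, q2⟩ := hcondp ω' h0
        rw [if_pos (hy (F.d ω') _ (hd ω' q1 q2) (d_mem F w lam i0 z ω') (hsum ω' hst))]
    · rw [if_neg hst]
      split_ifs
      · exact hcond0 ω'
      · exact le_rfl

open Classical in
/-- **Strips, k = 0**, for the projected family. -/
theorem interval_conc {ε S κ : Type} {m : ℕ} (F : Fam m J) {w x1 h : ℕ} (hc : x1 + 2 ≤ h)
    {i0 : Fin m} {Sd : F.Ω → κ} {E : F.Ω → ε} {L : F.Ω → S} {ρ : ℝ}
    (h2 : NonConc F.p (fun ω => F.d ω i0) E (fun D (v : ℝ) => |D - v| ≤ ((2 : ℝ) ^ x1)⁻¹) ρ)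
    (hE : Det F.p E L) (ω : F.Ω) (hω : 0 < F.p ω) (v : Fin 1 → ℝ) (B : Fin 0 → Fin 1 → ℝ) :
    (∑ ω', if ∃ c : Fin 0 → ℝ, ∀ j, |(F.pj i0 w Sd).d ω' j - v j - ∑ i, c i * B i j| ≤
      4 / 2 ^ h then Pool.Agent.H49.Ent.cond F.p L (L ω) ω' else 0) ≤ ρ := by
  have hlaw := F.isLaw
  have g2 := h2.coarse hlaw hE
  have hcond0 : ∀ ω', 0 ≤ Pool.Agent.H49.Ent.cond F.p L (L ω) ω' :=
    fun ω' => cond_nonneg hlaw.nonneg L (L ω) ω'
  have hr : (4 : ℝ) / 2 ^ h ≤ ((2 : ℝ) ^ x1)⁻¹ := by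
    have h1 : (2 : ℝ) ^ (x1 + 2) ≤ 2 ^ h := pow_le_pow_right₀ (by norm_num) hc
    rw [pow_add] at h1
    have p2 : (0 : ℝ) < 2 ^ x1 := by positivity
    have p3 : (0 : ℝ) < 2 ^ h := by positivity
    rw [div_le_iff₀ p3, inv_mul_eq_div, le_div_iff₀ p2]
    linarith
  refine le_trans (Finset.sum_le_sum fun ω' _ => ?_) (g2.cond_le hlaw hω (v 0))
  by_cases hst : ∃ c : Fin 0 → ℝ, ∀ j, |(F.pj i0 w Sd).d ω' j - v j -
      ∑ i, c i * B i j| ≤ 4 / 2 ^ h
  · rw [if_pos hst]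
    obtain ⟨c, hcc⟩ := hst
    have h3 := hcc 0
    rw [Finset.univ_eq_empty, Finset.sum_empty, sub_zero] at h3
    have h4 : |F.d ω' i0 - v 0| ≤ 4 / 2 ^ h := h3
    rw [if_pos (h4.trans hr)]
  · rw [if_neg hst]
    split_ifs
    · exact hcond0 ω'
    · exact le_rfl

end Plk

end Pool.KA
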