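import Pool.Agent.H64.K2.Plk
import Pool.Agent.H58.STK.Base

/-!
# Planks: positions, labels and the sum of the rows

`Fam.pX g` is the cell of the position in plank coordinates (chart coordinate to `2 ^ (-g)`, the
others to `2 ^ (-(g + lam))`).
-/

set_option autoImplicit false

namespace Pool.KA

open Finset Real
open Pool.Agent.H49.Ent Pool.Agent.H32.Dense Pool.STK

variable {m J : ℕ}

/-- The cell of the position in plank coordinates. -/
noncomputable def Fam.pX (F : Fam m J) (lam : ℕ) (i0 : Fin m) (z : F.Ω → Fin m → ℝ) (g : ℕ)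
    (ω : F.Ω) : Fin m → ℤ := fl g (pco lam i0 (z ω) (F.x ω))

namespace Plk

theorem CH_vec_const {Ω S : Type} [Fintype Ω] {p : Ω → ℝ} (hp : IsLaw p) (X : Ω → Fin m → ℤ)
    (W : Ω → S) {c : ℝ} (hX : ∀ ω ω', 0 < p ω → 0 < p ω' → W ω = W ω' →
      ∀ k, |((X ω k - X ω' k : ℤ) : ℝ)| ≤ c) : CH p X W ≤ m * Real.log (2 * c + 1) := by
  have key := CH_le_vec hp.nonneg hp.sum_one X W (fun _ => c) hX
  rwa [Ex_const hp.sum_one] at key

theorem floor_near {a b a' b' : ℝ} (h : ⌊a⌋ = ⌊b⌋) (h' : a' - b' = a - b) :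
    |((⌊a'⌋ - ⌊b'⌋ : ℤ) : ℝ)| ≤ 1 := by
  have h1 := Int.floor_le a
  have h2 := Int.lt_floor_add_one a
  have h3 := Int.floor_le b
  have h4 := Int.lt_floor_add_one b
  have h5 := Int.floor_le a'
  have h6 := Int.lt_floor_add_one a'
  have h7 := Int.floor_le b'
  have h8 := Int.lt_floor_add_one b'
  rw [h] at h1 h2
  have k1 : ((⌊a'⌋ - ⌊b'⌋ : ℤ) : ℝ) < 2 := by push_cast; linarith only [h', h2, h3, h5, h8]
  have k2 : (-2 : ℝ) < ((⌊a'⌋ - ⌊b'⌋ : ℤ) : ℝ) := by push_cast; linarith only [h', h1, h4, h6, h7]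
  have k3 : ⌊a'⌋ - ⌊b'⌋ < 2 := by exact_mod_cast k1
  have k4 : -2 < ⌊a'⌋ - ⌊b'⌋ := by exact_mod_cast k2
  have k5 : |⌊a'⌋ - ⌊b'⌋| ≤ 1 := by
    rw [abs_le]
    constructor <;> omega
  exact_mod_cast k5

theorem abs_sub_lt_of_floor {a b : ℝ} (h : ⌊a⌋ = ⌊b⌋) : |a - b| ≤ 1 := by
  have h1 := Int.floor_le a
  have h2 := Int.lt_floor_add_one a
  have h3 := Int.floor_le b
  have h4 := Int.lt_floor_add_one b
  rw [h] at h1 h2
  rw [abs_le]
  constructor <;> linarith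

/-! ### The labels -/

/-- The cell of the plank family is a function of the line, the window, the frame and the side
information. -/
theorem c_det (F : Fam m J) {w K lam : ℕ} {i0 : Fin m} {z : F.Ω → Fin m → ℝ} {ω ω' : F.Ω}
    (hJ : w + K ≤ J) (hl : F.l ω = F.l ω') (hT : F.T1 (w + K) ω = F.T1 (w + K) ω')
    (hz : z ω = z ω') (hZ : F.Z ω = F.Z ω') :
    (F.plk w lam i0 z).c K ω = (F.plk w lam i0 z).c K ω' := by
  have h1 : F.T1 w ω = F.T1 w ω' := by
    rw [Pool.KSAT.T1_div F hJ ω, Pool.KSAT.T1_div F hJ ω', hT]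
  have h2 := plab_det F (lam := lam) (i0 := i0) hl h1 hz hZ
  have h3 : (F.plk w lam i0 z).T1 K ω = (F.plk w lam i0 z).T1 K ω' := by
    have c1 := T1_plk F hJ lam i0 z ω
    have c2 := T1_plk F hJ lam i0 z ω'
    rw [hT, h1] at c1
    omega
  have h4 : (F.plk w lam i0 z).u ω = (F.plk w lam i0 z).u ω' := (Prod.ext_iff.mp h2.2).1
  have h5 : (F.plk w lam i0 z).d ω = (F.plk w lam i0 z).d ω' := (Prod.ext_iff.mp h2.2).2
  have h6 : (F.plk w lam i0 z).x1 K ω = (F.plk w lam i0 z).x1 K ω' := by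
    funext i
    unfold Fam.x1
    rw [h3, h4, h5]
  have h7 : (F.plk w lam i0 z).Z ω = (F.plk w lam i0 z).Z ω' := h2.1
  unfold Fam.c
  rw [h3, h6, h7]

/-- The cell of the plank family is the pair of the labels of the two windows. -/
theorem c_iff (F : Fam m J) {w K lam : ℕ} {i0 : Fin m} {z : F.Ω → Fin m → ℝ} {ω ω' : F.Ω}
    (hJ : w + K ≤ J) : (F.plk w lam i0 z).c K ω = (F.plk w lam i0 z).c K ω' ↔
      F.plab (w + K) lam i0 z ω = F.plab (w + K) lam i0 z ω' ∧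
        F.plab w lam i0 z ω = F.plab w lam i0 z ω' := by
  have c1 := T1_plk F hJ lam i0 z ω
  have c2 := T1_plk F hJ lam i0 z ω'
  have d1 := pcl_add F hJ lam i0 z ω
  have d2 := pcl_add F hJ lam i0 z ω'
  constructor
  · intro h
    have h1 : (F.plk w lam i0 z).T1 K ω = (F.plk w lam i0 z).T1 K ω' :=
      (Prod.ext_iff.mp (Prod.ext_iff.mp h).1).1
    have h2 : fl K ((F.plk w lam i0 z).x1 K ω) = fl K ((F.plk w lam i0 z).x1 K ω') :=
      (Prod.ext_iff.mp (Prod.ext_iff.mp h).1).2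
    have h3 : F.plab w lam i0 z ω = F.plab w lam i0 z ω' := (Prod.ext_iff.mp h).2
    have h4 := Prod.ext_iff.mp h3
    have h5 := Prod.ext_iff.mp h4.1
    have b0 : F.T1 w ω = F.T1 w ω' := (Prod.ext_iff.mp h5.1).1
    have b1 : z ω = z ω' := (Prod.ext_iff.mp h5.1).2
    have b2 : F.pcl w lam i0 z ω = F.pcl w lam i0 z ω' := (Prod.ext_iff.mp h5.2).1
    have b3 : F.pvl lam i0 z ω = F.pvl lam i0 z ω' := (Prod.ext_iff.mp h5.2).2
    have b4 : F.Z ω = F.Z ω' := h4.2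
    refine ⟨?_, h3⟩
    have e1 : F.T1 (w + K) ω = F.T1 (w + K) ω' := by rw [c1, c2, b0, h1]
    have e2 : F.pcl (w + K) lam i0 z ω = F.pcl (w + K) lam i0 z ω' := by
      funext i
      rw [d1 i, d2 i, h2, b2, h1, b3]
    unfold Fam.plab
    rw [e1, b1, e2, b3, b4]
  · rintro ⟨h, h3⟩
    have h4 := Prod.ext_iff.mp h3
    have h5 := Prod.ext_iff.mp h4.1
    have b0 : F.T1 w ω = F.T1 w ω' := (Prod.ext_iff.mp h5.1).1
    have b2 : F.pcl w lam i0 z ω = F.pcl w lam i0 z ω' := (Prod.ext_iff.mp h5.2).1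
    have b3 : F.pvl lam i0 z ω = F.pvl lam i0 z ω' := (Prod.ext_iff.mp h5.2).2
    have h6 := Prod.ext_iff.mp (Prod.ext_iff.mp h).1
    have a0 : F.T1 (w + K) ω = F.T1 (w + K) ω' := (Prod.ext_iff.mp h6.1).1
    have a2 : F.pcl (w + K) lam i0 z ω = F.pcl (w + K) lam i0 z ω' := (Prod.ext_iff.mp h6.2).1
    have e1 : (F.plk w lam i0 z).T1 K ω = (F.plk w lam i0 z).T1 K ω' := by
      rw [a0, b0] at c1
      omega
    have e2 : fl K ((F.plk w lam i0 z).x1 K ω) = fl K ((F.plk w lam i0 z).x1 K ω') := by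
      funext i
      have f1 := d1 i
      have f2 := d2 i
      rw [a2, b2, e1, b3] at f1
      linarith only [f1, f2]
    have e3 : (F.plk w lam i0 z).Z ω = (F.plk w lam i0 z).Z ω' := h3
    unfold Fam.c
    rw [e1, e2, e3]

/-- The velocity block is the same variable for all windows. -/
theorem D_eq (F : Fam m J) (w w' lam K : ℕ) (i0 : Fin m) (z : F.Ω → Fin m → ℝ) :
    (F.plk w lam i0 z).D K = (F.plk w' lam i0 z).D K := rfl

/-! ### Exact points -/

/-- The position in the plank is a function of the exact point and the label. -/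
theorem pt_det (F : Fam m J) {w lam : ℕ} (hw : w ≤ J) {i0 : Fin m} {z : F.Ω → Fin m → ℝ}
    {ω ω' : F.Ω} (hT : F.T ω = F.T ω') (hx : F.x ω = F.x ω')
    (hb : F.plab w lam i0 z ω = F.plab w lam i0 z ω') :
    (F.plk w lam i0 z).T ω = (F.plk w lam i0 z).T ω' ∧
      (F.plk w lam i0 z).x ω = (F.plk w lam i0 z).x ω' := by
  have e1 : (F.plk w lam i0 z).T ω = (F.plk w lam i0 z).T ω' := by
    change F.T ω % 2 ^ (J - w) = F.T ω' % 2 ^ (J - w)
    rw [hT]
  refine ⟨e1, ?_⟩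
  have e2 : (F.plk w lam i0 z).t ω = (F.plk w lam i0 z).t ω' := by
    unfold Fam.t
    rw [e1]
  have h5 := Prod.ext_iff.mp (Prod.ext_iff.mp hb).1
  have b1 : z ω = z ω' := (Prod.ext_iff.mp h5.1).2
  have b2 : F.pcl w lam i0 z ω = F.pcl w lam i0 z ω' := (Prod.ext_iff.mp h5.2).1
  have b3 : F.pvl lam i0 z ω = F.pvl lam i0 z ω' := (Prod.ext_iff.mp h5.2).2
  funext i
  have f1 := plk_x F hw lam i0 z ω i
  have f2 := plk_x F hw lam i0 z ω' i
  rw [hx, b1, b2, b3, e2] at f1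
  linarith only [f1, f2]

/-- The exact point is a function of the position in the plank and the label. -/
theorem pt_det' (F : Fam m J) {w lam : ℕ} (hw : w ≤ J) {i0 : Fin m} {z : F.Ω → Fin m → ℝ}
    {ω ω' : F.Ω} (hT : (F.plk w lam i0 z).T ω = (F.plk w lam i0 z).T ω')
    (hx : (F.plk w lam i0 z).x ω = (F.plk w lam i0 z).x ω')
    (hb : F.plab w lam i0 z ω = F.plab w lam i0 z ω') : F.T ω = F.T ω' ∧ F.x ω = F.x ω' := by
  have hT' : F.T ω % 2 ^ (J - w) = F.T ω' % 2 ^ (J - w) := hT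
  have h5 := Prod.ext_iff.mp (Prod.ext_iff.mp hb).1
  have b0 : F.T1 w ω = F.T1 w ω' := (Prod.ext_iff.mp h5.1).1
  have b1 : z ω = z ω' := (Prod.ext_iff.mp h5.1).2
  have b2 : F.pcl w lam i0 z ω = F.pcl w lam i0 z ω' := (Prod.ext_iff.mp h5.2).1
  have b3 : F.pvl lam i0 z ω = F.pvl lam i0 z ω' := (Prod.ext_iff.mp h5.2).2
  have e2 : (F.plk w lam i0 z).t ω = (F.plk w lam i0 z).t ω' := by
    unfold Fam.t
    rw [hT]
  constructor
  · rw [T_split F w ω, T_split F w ω', b0, hT']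
  · refine pco_inj lam i0 (z ω) _ _ fun i => ?_
    have f1 := plk_x F hw lam i0 z ω i
    have f2 := plk_x F hw lam i0 z ω' i
    rw [← b1] at f2
    have f3 : 2 ^ w * pco lam i0 (z ω) (F.x ω) i = 2 ^ w * pco lam i0 (z ω) (F.x ω') i := by
      rw [f1, f2, hx, b2, b3, e2]
    exact mul_left_cancel₀ (by positivity) f3

/-- The label has boundedly many values at an exact point. -/
theorem plab_near (F : Fam m J) {w lam : ℕ} (hw : w ≤ J) {i0 : Fin m} {z : F.Ω → Fin m → ℝ}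
    {ω ω' : F.Ω} (hT : F.T ω = F.T ω') (hx : F.x ω = F.x ω') (hz : z ω = z ω') {c : ℝ}
    (hd : ∀ i, |pco lam i0 (z ω) (F.d ω) i - pco lam i0 (z ω) (F.d ω') i| ≤ c) (i : Fin m) :
    |((F.pvl lam i0 z ω i - F.pvl lam i0 z ω' i : ℤ) : ℝ)| ≤ c + 1 ∧
      |((F.pcl w lam i0 z ω i - F.pcl w lam i0 z ω' i : ℤ) : ℝ)| ≤ c + 1 := by
  have e2 : (F.plk w lam i0 z).t ω = (F.plk w lam i0 z).t ω' := by
    change ((F.T ω % 2 ^ (J - w) : ℕ) : ℝ) / 2 ^ (J - w) =
      ((F.T ω' % 2 ^ (J - w) : ℕ) : ℝ) / 2 ^ (J - w)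
    rw [hT]
  have key : ∀ ω'', 2 ^ w * pco lam i0 (z ω'') (F.x1 w ω'') i =
      2 ^ w * pco lam i0 (z ω'') (F.x ω'') i -
        (F.plk w lam i0 z).t ω'' * pco lam i0 (z ω'') (F.d ω'') i := by
    intro ω''
    have f1 := plk_x F hw lam i0 z ω'' i
    have f2 := pcl_eq F w lam i0 z ω'' i
    have f3 := pvl_eq F w lam i0 z ω'' i
    have f4 : (F.plk w lam i0 z).x ω'' i = (F.plk w lam i0 z).u ω'' i +
      (F.plk w lam i0 z).t ω'' * (F.plk w lam i0 z).d ω'' i := rfl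
    rw [f1, f2, f3, f4]
    ring
  have ht := t_mem F w lam i0 z ω'
  constructor
  · have e1 : F.pvl lam i0 z ω i = ⌊2 ^ 0 * pco lam i0 (z ω) (F.d ω) i⌋ := rfl
    have e3 : F.pvl lam i0 z ω' i = ⌊2 ^ 0 * pco lam i0 (z ω') (F.d ω') i⌋ := rfl
    rw [e1, e3]
    refine floor_sub_lt ?_
    rw [pow_zero, one_mul, one_mul, ← hz]
    exact hd i
  · have e1 : F.pcl w lam i0 z ω i = ⌊2 ^ w * pco lam i0 (z ω) (F.x1 w ω) i⌋ := rfl
    have e3 : F.pcl w lam i0 z ω' i = ⌊2 ^ w * pco lam i0 (z ω') (F.x1 w ω') i⌋ := rfl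
    rw [e1, e3]
    refine floor_sub_lt ?_
    rw [key ω, key ω', ← hz, hx, e2]
    have h1 : 2 ^ w * pco lam i0 (z ω) (F.x ω') i -
        (F.plk w lam i0 z).t ω' * pco lam i0 (z ω) (F.d ω) i -
        (2 ^ w * pco lam i0 (z ω) (F.x ω') i -
        (F.plk w lam i0 z).t ω' * pco lam i0 (z ω) (F.d ω') i) =
        -((F.plk w lam i0 z).t ω' * (pco lam i0 (z ω) (F.d ω) i -
          pco lam i0 (z ω) (F.d ω') i)) := by ring
    rw [h1, abs_neg, abs_mul, abs_of_nonneg ht.1]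
    have h2 := hd i
    have h3 := abs_nonneg (pco lam i0 (z ω) (F.d ω) i - pco lam i0 (z ω) (F.d ω') i)
    nlinarith only [h2, ht, h3, ht.1, ht.2]

/-- Directions on a line with slopes near the frame differ by a bounded amount in plank
coordinates. -/
theorem pco_near {lam : ℕ} {i0 : Fin m} {z d d' e n : Fin m → ℝ} {r ρ s : ℝ}
    (h : ∀ j, |d j - e j * d i0 - n j| ≤ r) (h' : ∀ j, |d' j - e j * d' i0 - n j| ≤ r)
    (hz : ∀ j, |e j - z j| ≤ ρ) (hs : |d i0 - d' i0| ≤ s) (hs1 : s ≤ 2 ^ lam * (2 * r + ρ * s))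
    (i : Fin m) : |pco lam i0 z d i - pco lam i0 z d' i| ≤ 2 ^ lam * (2 * r + ρ * s) := by
  unfold pco
  by_cases hi : i = i0
  · rw [if_pos hi, if_pos hi]
    exact hs.trans hs1
  · rw [if_neg hi, if_neg hi]
    have e1 : 2 ^ lam * (d i - z i * d i0) - 2 ^ lam * (d' i - z i * d' i0) =
        2 ^ lam * ((d i - e i * d i0 - n i) - (d' i - e i * d' i0 - n i) +
          (e i - z i) * (d i0 - d' i0)) := by ring
    rw [e1, abs_mul, abs_of_nonneg (by positivity)]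
    refine mul_le_mul_of_nonneg_left ?_ (by positivity)
    have h1 : |(e i - z i) * (d i0 - d' i0)| ≤ ρ * s := by
      rw [abs_mul]
      exact mul_le_mul (hz i) hs (abs_nonneg _) ((abs_nonneg _).trans (hz i))
    have h2 := abs_add_le ((d i - e i * d i0 - n i) - (d' i - e i * d' i0 - n i))
      ((e i - z i) * (d i0 - d' i0))
    have h3 := abs_sub (d i - e i * d i0 - n i) (d' i - e i * d' i0 - n i)
    have h4 := h i
    have h5 := h' i
    linarith

/-! ### Positions: entropy forms -/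

/-- (X1) The position in the plank given the plank cell of the position. -/
theorem CH_X_pX (F : Fam m J) {w K : ℕ} (hw : w ≤ J) (lam : ℕ) (i0 : Fin m)
    (z : F.Ω → Fin m → ℝ) : CH F.p ((F.plk w lam i0 z).X K)
      (fun ω => (F.pX lam i0 z (w + K) ω, (F.T ω, F.plab w lam i0 z ω))) ≤ m * Real.log 3 := by
  have key := CH_vec_const F.isLaw ((F.plk w lam i0 z).X K)
    (fun ω => (F.pX lam i0 z (w + K) ω, (F.T ω, F.plab w lam i0 z ω))) (c := 1) ?_
  · norm_num at key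
    exact key
  · intro ω ω' _ _ hW i
    have h1 := Prod.ext_iff.mp hW
    have h2 := Prod.ext_iff.mp h1.2
    simp only at h1 h2
    have h5 := Prod.ext_iff.mp (Prod.ext_iff.mp h2.2).1
    have b2 : F.pcl w lam i0 z ω = F.pcl w lam i0 z ω' := (Prod.ext_iff.mp h5.2).1
    have b3 : F.pvl lam i0 z ω = F.pvl lam i0 z ω' := (Prod.ext_iff.mp h5.2).2
    have e2 : (F.plk w lam i0 z).t ω = (F.plk w lam i0 z).t ω' := by
      change ((F.T ω % 2 ^ (J - w) : ℕ) : ℝ) / 2 ^ (J - w) =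
        ((F.T ω' % 2 ^ (J - w) : ℕ) : ℝ) / 2 ^ (J - w)
      rw [h2.1]
    have f1 := plk_x F hw lam i0 z ω i
    have f2 := plk_x F hw lam i0 z ω' i
    rw [b2, b3, e2] at f1
    have g0 : ⌊2 ^ (w + K) * pco lam i0 (z ω) (F.x ω) i⌋ =
      ⌊2 ^ (w + K) * pco lam i0 (z ω') (F.x ω') i⌋ := congrFun h1.1 i
    refine floor_near g0 ?_
    rw [pow_add]
    linear_combination (-(2 : ℝ) ^ K) * f1 + (2 : ℝ) ^ K * f2

/-- (X2) The plank cell of the position given the position in the plank. -/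
theorem CH_pX_X (F : Fam m J) {w K : ℕ} (hw : w ≤ J) (lam : ℕ) (i0 : Fin m)
    (z : F.Ω → Fin m → ℝ) : CH F.p (F.pX lam i0 z (w + K))
      (fun ω => ((F.plk w lam i0 z).X K ω, (F.T ω, F.plab w lam i0 z ω))) ≤ m * Real.log 3 := by
  have key := CH_vec_const F.isLaw (F.pX lam i0 z (w + K))
    (fun ω => ((F.plk w lam i0 z).X K ω, (F.T ω, F.plab w lam i0 z ω))) (c := 1) ?_
  · norm_num at key
    exact key
  · intro ω ω' _ _ hW i
    have h1 := Prod.ext_iff.mp hW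
    have h2 := Prod.ext_iff.mp h1.2
    simp only at h1 h2
    have h5 := Prod.ext_iff.mp (Prod.ext_iff.mp h2.2).1
    have b2 : F.pcl w lam i0 z ω = F.pcl w lam i0 z ω' := (Prod.ext_iff.mp h5.2).1
    have b3 : F.pvl lam i0 z ω = F.pvl lam i0 z ω' := (Prod.ext_iff.mp h5.2).2
    have e2 : (F.plk w lam i0 z).t ω = (F.plk w lam i0 z).t ω' := by
      change ((F.T ω % 2 ^ (J - w) : ℕ) : ℝ) / 2 ^ (J - w) =
        ((F.T ω' % 2 ^ (J - w) : ℕ) : ℝ) / 2 ^ (J - w)
      rw [h2.1]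
    have f1 := plk_x F hw lam i0 z ω i
    have f2 := plk_x F hw lam i0 z ω' i
    rw [b2, b3, e2] at f1
    have g0 : ⌊2 ^ K * (F.plk w lam i0 z).x ω i⌋ =
      ⌊2 ^ K * (F.plk w lam i0 z).x ω' i⌋ := congrFun h1.1 i
    refine floor_near g0 ?_
    rw [pow_add]
    linear_combination (2 : ℝ) ^ K * f1 - (2 : ℝ) ^ K * f2

/-- (X3) The plank cell of the position given the cell of the position. -/
theorem CH_pX_le (F : Fam m J) {g lam : ℕ} {i0 : Fin m} {z : F.Ω → Fin m → ℝ} {b : ℝ}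
    (hb : 0 ≤ b) (hz : ∀ ω, 0 < F.p ω → ∀ i, |z ω i| ≤ b) :
    CH F.p (F.pX lam i0 z g) (fun ω => (F.X (g + lam) ω, z ω)) ≤
      m * Real.log (2 * b + 5) := by
  have key := CH_vec_const F.isLaw (F.pX lam i0 z g) (fun ω => (F.X (g + lam) ω, z ω))
    (c := 1 + b + 1) ?_
  · have e : 2 * (1 + b + 1) + 1 = 2 * b + 5 := by ring
    rwa [e] at key
  · intro ω ω' hω _ hW i
    have h1 := Prod.ext_iff.mp hW
    simp only at h1
    have g0 : ∀ j, |2 ^ (g + lam) * F.x ω j - 2 ^ (g + lam) * F.x ω' j| ≤ 1 := fun j =>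
      abs_sub_lt_of_floor (congrFun h1.1 j)
    refine floor_sub_lt ?_
    rw [← h1.2]
    unfold pco
    beta_reduce
    have hbz := hz ω hω i
    have p1 : (0 : ℝ) < 2 ^ g := by positivity
    have p2 : (1 : ℝ) ≤ 2 ^ lam := one_le_pow₀ (by norm_num)
    by_cases hi : i = i0
    · rw [if_pos hi, if_pos hi]
      have k1 := g0 i0
      rw [pow_add] at k1
      have e1 : (2 : ℝ) ^ g * 2 ^ lam * F.x ω i0 - 2 ^ g * 2 ^ lam * F.x ω' i0 =
        2 ^ lam * (2 ^ g * F.x ω i0 - 2 ^ g * F.x ω' i0) := by ring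
      rw [e1, abs_mul, abs_of_nonneg (by positivity)] at k1
      have k2 := abs_nonneg (2 ^ g * F.x ω i0 - 2 ^ g * F.x ω' i0)
      nlinarith only [hb, k1, p2, k2]
    · rw [if_neg hi, if_neg hi]
      have k1 := g0 i0
      have k3 := g0 i
      have e1 : (2 : ℝ) ^ g * (2 ^ lam * (F.x ω i - z ω i * F.x ω i0)) -
          2 ^ g * (2 ^ lam * (F.x ω' i - z ω i * F.x ω' i0)) =
          (2 ^ (g + lam) * F.x ω i - 2 ^ (g + lam) * F.x ω' i) -
          z ω i * (2 ^ (g + lam) * F.x ω i0 - 2 ^ (g + lam) * F.x ω' i0) := by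
        rw [pow_add]; ring
      rw [e1]
      have k4 : |z ω i * (2 ^ (g + lam) * F.x ω i0 - 2 ^ (g + lam) * F.x ω' i0)| ≤ b * 1 := by
        rw [abs_mul]
        exact mul_le_mul hbz k1 (abs_nonneg _) hb
      have k5 := abs_sub (2 ^ (g + lam) * F.x ω i - 2 ^ (g + lam) * F.x ω' i)
        (z ω i * (2 ^ (g + lam) * F.x ω i0 - 2 ^ (g + lam) * F.x ω' i0))
      linarith only [k3, k4, k5]

/-- (X4) The cell of the position given the plank cell and the chart coordinate. -/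
theorem CH_X_of_pX (F : Fam m J) {g lam : ℕ} {i0 : Fin m} {z : F.Ω → Fin m → ℝ} {b : ℝ}
    (hb : 0 ≤ b) (hz : ∀ ω, 0 < F.p ω → ∀ i, |z ω i| ≤ b) :
    CH F.p (F.X (g + lam)) (fun ω => (F.X (g + lam) ω i0, (F.pX lam i0 z g ω, z ω))) ≤
      m * Real.log (2 * b + 5) := by
  have key := CH_vec_const F.isLaw (F.X (g + lam))
    (fun ω => (F.X (g + lam) ω i0, (F.pX lam i0 z g ω, z ω))) (c := 1 + b + 1) ?_
  · have e : 2 * (1 + b + 1) + 1 = 2 * b + 5 := by ring
    rwa [e] at key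
  · intro ω ω' hω _ hW i
    have h1 := Prod.ext_iff.mp hW
    have h2 := Prod.ext_iff.mp h1.2
    simp only at h1 h2
    have g0 : |2 ^ (g + lam) * F.x ω i0 - 2 ^ (g + lam) * F.x ω' i0| ≤ 1 :=
      abs_sub_lt_of_floor h1.1
    have g1 : |2 ^ g * pco lam i0 (z ω) (F.x ω) i - 2 ^ g * pco lam i0 (z ω') (F.x ω') i| ≤ 1 :=
      abs_sub_lt_of_floor (congrFun h2.1 i)
    refine floor_sub_lt ?_
    have hbz := hz ω hω i
    by_cases hi : i = i0
    · rw [hi]
      linarith only [hb, g0]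
    · rw [← h2.2] at g1
      unfold pco at g1
      rw [if_neg hi, if_neg hi] at g1
      have e1 : (2 : ℝ) ^ (g + lam) * F.x ω i - 2 ^ (g + lam) * F.x ω' i =
          (2 ^ g * (2 ^ lam * (F.x ω i - z ω i * F.x ω i0)) -
          2 ^ g * (2 ^ lam * (F.x ω' i - z ω i * F.x ω' i0))) +
          z ω i * (2 ^ (g + lam) * F.x ω i0 - 2 ^ (g + lam) * F.x ω' i0) := by
        rw [pow_add]; ring
      rw [e1]
      have k4 : |z ω i * (2 ^ (g + lam) * F.x ω i0 - 2 ^ (g + lam) * F.x ω' i0)| ≤ b * 1 := by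
        rw [abs_mul]
        exact mul_le_mul hbz g0 (abs_nonneg _) hb
      have k5 := abs_add_le (2 ^ g * (2 ^ lam * (F.x ω i - z ω i * F.x ω i0)) -
          2 ^ g * (2 ^ lam * (F.x ω' i - z ω i * F.x ω' i0)))
        (z ω i * (2 ^ (g + lam) * F.x ω i0 - 2 ^ (g + lam) * F.x ω' i0))
      linarith only [g1, k4, k5]

/-- (X5) Rows of the chart coordinate. -/
theorem CH_chart_le (F : Fam m J) (g lam : ℕ) (i0 : Fin m) (z : F.Ω → Fin m → ℝ) :
    CH F.p (fun ω => F.X (g + lam) ω i0) (F.pX lam i0 z g) ≤ lam * Real.log 2 := by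
  refine (CH_le_card F.isLaw.nonneg F.isLaw.sum_one (fun ω => F.X (g + lam) ω i0)
    (F.pX lam i0 z g) (fun v => Finset.Ico (2 ^ lam * v i0) (2 ^ lam * v i0 + 2 ^ lam)) ?_).trans ?_
  · intro ω _
    have e1 : F.pX lam i0 z g ω i0 = ⌊2 ^ g * F.x ω i0⌋ := by
      change ⌊2 ^ g * pco lam i0 (z ω) (F.x ω) i0⌋ = _
      unfold pco
      rw [if_pos rfl]
    have e2 : F.X (g + lam) ω i0 = ⌊2 ^ (g + lam) * F.x ω i0⌋ := rfl
    rw [e1, e2, Finset.mem_Ico]
    have h1 := Int.floor_le (2 ^ g * F.x ω i0)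
    have h2 := Int.lt_floor_add_one (2 ^ g * F.x ω i0)
    have p2 : (0 : ℝ) < 2 ^ lam := by positivity
    constructor
    · rw [Int.le_floor]
      push_cast
      rw [pow_add]
      nlinarith only [h1, p2]
    · rw [Int.floor_lt]
      push_cast
      rw [pow_add]
      nlinarith only [h2, p2]
  · have e : ∀ v : Fin m → ℤ,
        (Finset.Ico (2 ^ lam * v i0) (2 ^ lam * v i0 + 2 ^ lam)).card = 2 ^ lam := by
      intro v
      rw [Int.card_Ico]
      have : 2 ^ lam * v i0 + 2 ^ lam - 2 ^ lam * v i0 = ((2 ^ lam : ℕ) : ℤ) := by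
        push_cast; ring
      rw [this, Int.toNat_natCast]
    simp only [e]
    push_cast
    rw [Ex_const F.isLaw.sum_one, Real.log_pow]

/-- (X6) The cell of the position given the plank cell. -/
theorem CH_X_given_pX (F : Fam m J) {g lam : ℕ} {i0 : Fin m} {z : F.Ω → Fin m → ℝ} {b : ℝ}
    (hb : 0 ≤ b) (hz : ∀ ω, 0 < F.p ω → ∀ i, |z ω i| ≤ b) :
    CH F.p (F.X (g + lam)) (fun ω => (F.pX lam i0 z g ω, z ω)) ≤
      lam * Real.log 2 + m * Real.log (2 * b + 5) := by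
  have h0 := F.isLaw.nonneg
  have h1 := CH_le_add h0 (F.X (g + lam)) (fun ω => F.X (g + lam) ω i0)
    (fun ω => (F.pX lam i0 z g ω, z ω))
  have h2 := CH_X_of_pX F (g := g) (lam := lam) (i0 := i0) hb hz
  have h3 := CH_mono_cond h0 (X := fun ω => F.X (g + lam) ω i0)
    (W' := fun ω => (F.pX lam i0 z g ω, z ω)) (W := F.pX lam i0 z g)
    (fun ω ω' _ _ h => (Prod.ext_iff.mp h).1)
  have h4 := CH_chart_le F g lam i0 z
  linarith only [h1, h2, h3, h4]

/-- (X7) The cell of the position given the position in the plank. -/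
theorem CH_X_given (F : Fam m J) {w K lam : ℕ} (hw : w ≤ J) {i0 : Fin m}
    {z : F.Ω → Fin m → ℝ} {b : ℝ} (hb : 0 ≤ b) (hz : ∀ ω, 0 < F.p ω → ∀ i, |z ω i| ≤ b) :
    CH F.p (F.X (w + K + lam))
      (fun ω => ((F.plk w lam i0 z).X K ω, (F.T ω, F.plab w lam i0 z ω))) ≤
      lam * Real.log 2 + m * Real.log (2 * b + 5) + m * Real.log 3 := by
  have h0 := F.isLaw.nonneg
  have h1 := CH_le_add h0 (F.X (w + K + lam)) (F.pX lam i0 z (w + K))
    (fun ω => ((F.plk w lam i0 z).X K ω, (F.T ω, F.plab w lam i0 z ω)))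
  have h2 := CH_pX_X F (K := K) hw lam i0 z
  have h3 := CH_mono_cond h0 (X := F.X (w + K + lam))
    (W' := fun ω => (F.pX lam i0 z (w + K) ω,
      ((F.plk w lam i0 z).X K ω, (F.T ω, F.plab w lam i0 z ω))))
    (W := fun ω => (F.pX lam i0 z (w + K) ω, z ω))
    (fun ω ω' _ _ h => by
      have a1 := Prod.ext_iff.mp h
      have a2 := Prod.ext_iff.mp (Prod.ext_iff.mp a1.2).2
      have a3 := Prod.ext_iff.mp (Prod.ext_iff.mp (Prod.ext_iff.mp a2.2).1).1
      exact Prod.ext a1.1 a3.2)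
  have h4 := CH_X_given_pX F (g := w + K) (lam := lam) (i0 := i0) hb hz
  linarith only [h1, h2, h3, h4]

/-- (X8) The first cell has boundedly many values. -/
theorem CH_X_zero {S : Type} (F : Fam m J) (w lam : ℕ) (i0 : Fin m) (z : F.Ω → Fin m → ℝ)
    (W : F.Ω → S) : CH F.p ((F.plk w lam i0 z).X 0) W ≤ m * Real.log 3 := by
  have key := CH_vec_const F.isLaw ((F.plk w lam i0 z).X 0) W (c := 1) ?_
  · norm_num at key
    exact key
  · intro ω ω' _ _ _ i
    have e : ∀ ω'', 0 ≤ (F.plk w lam i0 z).X 0 ω'' i ∧ (F.plk w lam i0 z).X 0 ω'' i ≤ 1 := by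
      intro ω''
      have h := x_mem F w lam i0 z ω'' i
      have e1 : (F.plk w lam i0 z).X 0 ω'' i = ⌊2 ^ 0 * (F.plk w lam i0 z).x ω'' i⌋ := rfl
      rw [e1, pow_zero, one_mul]
      constructor
      · exact Int.floor_nonneg.mpr h.1
      · have : ⌊(F.plk w lam i0 z).x ω'' i⌋ < 2 := Int.floor_lt.mpr (by exact_mod_cast h.2)
        omega
    have h1 := e ω
    have h2 := e ω'
    have h3 : |(F.plk w lam i0 z).X 0 ω i - (F.plk w lam i0 z).X 0 ω' i| ≤ 1 := by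
      rw [abs_le]
      constructor <;> omega
    exact_mod_cast h3

/-- (X9) The cell of the position at the scale of the plank given the label. -/
theorem CH_X_label (F : Fam m J) {w lam : ℕ} (hw : w ≤ J) {i0 : Fin m}
    {z : F.Ω → Fin m → ℝ} {b : ℝ} (hb : 0 ≤ b) (hz : ∀ ω, 0 < F.p ω → ∀ i, |z ω i| ≤ b) :
    CH F.p (F.X (w + lam)) (fun ω => (F.T ω, F.plab w lam i0 z ω)) ≤
      lam * Real.log 2 + m * Real.log (2 * b + 5) + 2 * (m * Real.log 3) := by
  have h0 := F.isLaw.nonneg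
  have h1 := CH_le_add h0 (F.X (w + lam)) ((F.plk w lam i0 z).X 0)
    (fun ω => (F.T ω, F.plab w lam i0 z ω))
  have h2 := CH_X_given F (K := 0) (lam := lam) hw (i0 := i0) hb hz
  have h3 := CH_X_zero F w lam i0 z (fun ω => (F.T ω, F.plab w lam i0 z ω))
  rw [Nat.add_zero] at h2
  linarith only [h1, h2, h3]

/-- The entropy of the positions of the plank family. -/
theorem CH_plk_W (F : Fam m J) (w K lam : ℕ) (i0 : Fin m) (z : F.Ω → Fin m → ℝ) :
    CH F.p ((F.plk w lam i0 z).X K) (fun ω => (F.T ω, F.plab w lam i0 z ω)) =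
      CH (F.plk w lam i0 z).p ((F.plk w lam i0 z).X K) (F.plk w lam i0 z).W := by
  refine CH_congr F.isLaw.nonneg ?_ ?_ ?_ ?_
  · intro ω ω' _ _ h
    exact (Prod.ext_iff.mp h).1
  · intro ω ω' _ _ h
    exact (Prod.ext_iff.mp h).1
  · intro ω ω' _ _ h
    have a1 := Prod.ext_iff.mp h
    simp only at a1
    refine Prod.ext ?_ a1.2
    change F.T ω % 2 ^ (J - w) = F.T ω' % 2 ^ (J - w)
    rw [a1.1]
  · intro ω ω' _ _ h
    have a1 := Prod.ext_iff.mp h
    have a2 : F.T ω % 2 ^ (J - w) = F.T ω' % 2 ^ (J - w) := a1.1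
    have a3 : F.plab w lam i0 z ω = F.plab w lam i0 z ω' := a1.2
    have a4 : F.T1 w ω = F.T1 w ω' :=
      (Prod.ext_iff.mp (Prod.ext_iff.mp (Prod.ext_iff.mp a3).1).1).1
    exact Prod.ext (by
      change F.T ω = F.T ω'
      rw [T_split F w ω, T_split F w ω', a4, a2]) a3

/-- **Sum of the rows.** The rows of the plank family up to `K` and the rows of the chart
coordinate behind them fit into the rows behind `w + lam`. -/
theorem plk_sum (F : Fam m J) {w lam K r : ℕ} (hw : w ≤ J) (hr : w + K + lam ≤ r)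
    {i0 : Fin m} {z : F.Ω → Fin m → ℝ} {b : ℝ} (hb : 0 ≤ b)
    (hz : ∀ ω, 0 < F.p ω → ∀ i, |z ω i| ≤ b) :
    CH (F.plk w lam i0 z).p ((F.plk w lam i0 z).X K) (F.plk w lam i0 z).W +
      CH F.p (fun ω => F.X r ω i0)
        (fun ω => (F.pX lam i0 z (w + K) ω, (F.T ω, F.plab w lam i0 z ω))) ≤
      lam * Real.log 2 + CH F.p (F.X r) (fun ω => (F.X (w + lam) ω, F.W ω)) +
        (2 * (m * Real.log (2 * b + 5)) + 3 * (m * Real.log 3)) := by
  have h0 := F.isLaw.nonneg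
  obtain ⟨B, hB⟩ : ∃ B, B = fun ω => (F.T ω, F.plab w lam i0 z ω) := ⟨_, rfl⟩
  have hBz : ∀ ω ω', B ω = B ω' → F.T ω = F.T ω' ∧ z ω = z ω' ∧ F.Z ω = F.Z ω' := by
    intro ω ω' h
    rw [hB] at h
    have a1 := Prod.ext_iff.mp h
    simp only at a1
    have a2 := Prod.ext_iff.mp a1.2
    exact ⟨a1.1, (Prod.ext_iff.mp (Prod.ext_iff.mp a2.1).1).2, a2.2⟩
  rw [← CH_plk_W]
  rw [← hB]
  have e0 : (fun ω => (F.pX lam i0 z (w + K) ω, (F.T ω, F.plab w lam i0 z ω))) =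
      fun ω => (F.pX lam i0 z (w + K) ω, B ω) := by rw [hB]
  rw [e0]
  -- the position in the plank from the plank cell
  have a1 : CH F.p ((F.plk w lam i0 z).X K) B ≤
      CH F.p (F.pX lam i0 z (w + K)) B + m * Real.log 3 := by
    have h1 := CH_le_add h0 ((F.plk w lam i0 z).X K) (F.pX lam i0 z (w + K)) B
    have h2 := CH_X_pX F (K := K) hw lam i0 z
    rw [e0] at h2
    linarith only [h1, h2]
  -- the plank cell and the chart coordinate
  have a2 : CH F.p (F.pX lam i0 z (w + K)) B +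
      CH F.p (fun ω => F.X r ω i0) (fun ω => (F.pX lam i0 z (w + K) ω, B ω)) =
      CH F.p (fun ω => (F.X r ω i0, F.pX lam i0 z (w + K) ω)) B :=
    (CH_chain h0 (fun ω => F.X r ω i0) (F.pX lam i0 z (w + K)) B).symm
  have a3 : CH F.p (fun ω => (F.X r ω i0, F.pX lam i0 z (w + K) ω)) B ≤
      CH F.p (F.X r) B + m * Real.log (2 * b + 5) := by
    have h1 := CH_le_add h0 (fun ω => (F.X r ω i0, F.pX lam i0 z (w + K) ω)) (F.X r) B
    have h2 : CH F.p (fun ω => (F.X r ω i0, F.pX lam i0 z (w + K) ω))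
        (fun ω => (F.X r ω, B ω)) ≤ CH F.p (F.pX lam i0 z (w + K)) (fun ω => (F.X r ω, B ω)) :=
      CH_mono_left h0 (fun ω ω' _ _ h => by
        have b1 := Prod.ext_iff.mp h
        have b2 := Prod.ext_iff.mp b1.2
        exact Prod.ext (congrFun b2.1 i0) b1.1)
    have h3 := CH_mono_cond h0 (X := F.pX lam i0 z (w + K)) (W' := fun ω => (F.X r ω, B ω))
      (W := fun ω => (F.X (w + K + lam) ω, z ω))
      (fun ω ω' _ _ h => by
        have b1 := Prod.ext_iff.mp h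
        exact Prod.ext (Pool.STK.B58.fl_fine hr b1.1) (hBz ω ω' b1.2).2.1)
    have h4 := CH_pX_le F (g := w + K) (lam := lam) (i0 := i0) hb hz
    linarith only [h1, h2, h3, h4]
  -- upper bound
  have a4 : CH F.p (F.X r) B ≤ CH F.p (F.X (w + lam)) B +
      CH F.p (F.X r) (fun ω => (F.X (w + lam) ω, F.W ω)) := by
    have h1 := CH_le_add h0 (F.X r) (F.X (w + lam)) B
    have h2 := CH_mono_cond h0 (X := F.X r) (W' := fun ω => (F.X (w + lam) ω, B ω))
      (W := fun ω => (F.X (w + lam) ω, F.W ω))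
      (fun ω ω' _ _ h => by
        have b1 := Prod.ext_iff.mp h
        have b2 := hBz ω ω' b1.2
        exact Prod.ext b1.1 (Prod.ext b2.1 b2.2.2))
    linarith only [h1, h2]
  have a5 := CH_X_label F (lam := lam) hw (i0 := i0) hb hz
  rw [← hB] at a5
  linarith only [a1, a2, a3, a4, a5]

/-- (L) The position in the plank given the exact point and the label. -/
theorem CH_X_pt (F : Fam m J) {w K lam r : ℕ} (hw : w ≤ J) (hr : w + K + lam ≤ r)
    {i0 : Fin m} {z : F.Ω → Fin m → ℝ} {b : ℝ} (hb : 0 ≤ b)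
    (hz : ∀ ω, 0 < F.p ω → ∀ i, |z ω i| ≤ b) :
    CH F.p ((F.plk w lam i0 z).X K)
      (fun ω => (F.X r ω, (F.T ω, F.plab w lam i0 z ω))) ≤
      m * Real.log (2 * b + 5) + m * Real.log 3 := by
  have h0 := F.isLaw.nonneg
  have h1 := CH_le_add h0 ((F.plk w lam i0 z).X K) (F.pX lam i0 z (w + K))
    (fun ω => (F.X r ω, (F.T ω, F.plab w lam i0 z ω)))
  have h2 := CH_mono_cond h0 (X := F.pX lam i0 z (w + K))
    (W' := fun ω => (F.X r ω, (F.T ω, F.plab w lam i0 z ω)))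
    (W := fun ω => (F.X (w + K + lam) ω, z ω))
    (fun ω ω' _ _ h => by
      have a1 := Prod.ext_iff.mp h
      have a2 := Prod.ext_iff.mp (Prod.ext_iff.mp a1.2).2
      have a3 := Prod.ext_iff.mp (Prod.ext_iff.mp a2.1).1
      exact Prod.ext (Pool.STK.B58.fl_fine hr a1.1) a3.2)
  have h3 := CH_pX_le F (g := w + K) (lam := lam) (i0 := i0) hb hz
  have h4 := CH_mono_cond h0 (X := (F.plk w lam i0 z).X K)
    (W' := fun ω => (F.pX lam i0 z (w + K) ω, (F.X r ω, (F.T ω, F.plab w lam i0 z ω))))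
    (W := fun ω => (F.pX lam i0 z (w + K) ω, (F.T ω, F.plab w lam i0 z ω)))
    (fun ω ω' _ _ h => by
      have a1 := Prod.ext_iff.mp h
      exact Prod.ext a1.1 (Prod.ext_iff.mp a1.2).2)
  have h5 := CH_X_pX F (K := K) hw lam i0 z
  linarith only [h1, h2, h3, h4, h5]

/-- The frame has boundedly many values at an exact point. -/
theorem CH_z_pt {U : Type} (F : Fam m J) {lam : ℕ} {z : F.Ω → Fin m → ℝ} {pt : F.Ω → U}
    {e : U → Fin m → ℝ} {q : ℕ}
    (he : ∀ ω, 0 < F.p ω → ∀ j, |e (pt ω) j - z ω j| ≤ q * ((2 : ℝ) ^ lam)⁻¹)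
    (hg : ∀ ω j, ∃ k : ℤ, z ω j = k / 2 ^ lam) :
    CH F.p z pt ≤ m * Real.log (4 * q + 1) := by
  have h0 := F.isLaw.nonneg
  have hp2 : (0 : ℝ) < 2 ^ lam := by positivity
  have key := CH_vec_const F.isLaw (fun ω => fl lam (z ω)) pt (c := 2 * q) ?_
  · have e1 : 2 * (2 * (q : ℝ)) + 1 = 4 * q + 1 := by ring
    rw [e1] at key
    refine le_trans (CH_mono_left h0 ?_) key
    intro ω ω' _ _ h
    have h1 : fl lam (z ω) = fl lam (z ω') := (Prod.ext_iff.mp h).1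
    funext j
    have h2 : ⌊2 ^ lam * z ω j⌋ = ⌊2 ^ lam * z ω' j⌋ := congrFun h1 j
    obtain ⟨k, hk⟩ := hg ω j
    obtain ⟨k', hk'⟩ := hg ω' j
    rw [hk, hk', mul_div_cancel₀ _ hp2.ne', mul_div_cancel₀ _ hp2.ne', Int.floor_intCast,
      Int.floor_intCast] at h2
    rw [hk, hk', h2]
  · intro ω ω' hω hω' h j
    have h1 := he ω hω j
    have h2 := he ω' hω' j
    rw [← h] at h2
    have h3 : |z ω j - z ω' j| ≤ 2 * q * ((2 : ℝ) ^ lam)⁻¹ := by
      rw [abs_le] at h1 h2 ⊢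
      constructor <;> linarith only [h1, h2, h1.1, h1.2, h2.1, h2.2]
    obtain ⟨k, hk⟩ := hg ω j
    obtain ⟨k', hk'⟩ := hg ω' j
    have e1 : fl lam (z ω) j = k := by
      change ⌊2 ^ lam * z ω j⌋ = k
      rw [hk, mul_div_cancel₀ _ hp2.ne', Int.floor_intCast]
    have e2 : fl lam (z ω') j = k' := by
      change ⌊2 ^ lam * z ω' j⌋ = k'
      rw [hk', mul_div_cancel₀ _ hp2.ne', Int.floor_intCast]
    rw [e1, e2]
    rw [hk, hk', ← sub_div, abs_div, abs_of_pos hp2, div_le_iff₀ hp2, mul_assoc,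
      inv_mul_cancel₀ hp2.ne', mul_one] at h3
    push_cast
    exact h3

/-- **Visibility.** The label has boundedly many values at an exact point. -/
theorem plab_pt {U : Type} (F : Fam m J) {w lam : ℕ} (hw : w + lam ≤ J) {i0 : Fin m}
    {z : F.Ω → Fin m → ℝ} {b : ℝ} (hb : 0 ≤ b) (hz : ∀ ω, 0 < F.p ω → ∀ i, |z ω i| ≤ b)
    {pt : F.Ω → U} (hpt : Det F.p pt (fun ω => (F.X J ω, F.W ω))) {e n : U → Fin m → ℝ}
    (hl : ∀ ω, 0 < F.p ω → ∀ j, |F.d ω j - e (pt ω) j * F.d ω i0 - n (pt ω) j| ≤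
      ((2 : ℝ) ^ lam)⁻¹) {q : ℕ}
    (he : ∀ ω, 0 < F.p ω → ∀ j, |e (pt ω) j - z ω j| ≤ q * ((2 : ℝ) ^ lam)⁻¹)
    (hg : ∀ ω j, ∃ k : ℤ, z ω j = k / 2 ^ lam) :
    CH F.p (F.plab w lam i0 z) pt ≤ m * Real.log (4 * q + 1) +
      m * Real.log (4 * q + 7) + m * Real.log (4 * q + 2 * b + 9) := by
  have h0 := F.isLaw.nonneg
  have hp2 : (0 : ℝ) < 2 ^ lam := by positivity
  have hwJ : w ≤ J := by omega
  -- differences in plank coordinates
  have hpco : ∀ ω ω', 0 < F.p ω → 0 < F.p ω' → pt ω = pt ω' → z ω = z ω' → ∀ i,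
      |pco lam i0 (z ω) (F.d ω) i - pco lam i0 (z ω) (F.d ω') i| ≤ 2 + q * 2 := by
    intro ω ω' hω hω' hp hzz i
    have h1 := hl ω hω
    have h2 := hl ω' hω'
    rw [← hp] at h2
    have h3 := he ω hω
    have h4 : |F.d ω i0 - F.d ω' i0| ≤ 2 := by
      have a1 := abs_le.1 (F.dir ω i0)
      have a2 := abs_le.1 (F.dir ω' i0)
      rw [abs_le]
      constructor <;> linarith only [a1, a2, a1.1, a1.2, a2.1, a2.2]
    have e1 : (2 : ℝ) ^ lam * (2 * ((2 : ℝ) ^ lam)⁻¹ + q * ((2 : ℝ) ^ lam)⁻¹ * 2) =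
        2 + q * 2 := by
      field_simp
    have h5 := pco_near (lam := lam) (i0 := i0) (z := z ω) h1 h2 h3 h4
      (by rw [e1]; have : (0 : ℝ) ≤ q := by positivity
          linarith only) i
    rwa [e1] at h5
  have a1 := CH_z_pt F (lam := lam) he hg
  -- velocities
  have a2 : CH F.p (F.pvl lam i0 z) (fun ω => (z ω, pt ω)) ≤ m * Real.log (4 * q + 7) := by
    have key := CH_vec_const F.isLaw (F.pvl lam i0 z) (fun ω => (z ω, pt ω))
      (c := 2 + q * 2 + 1) ?_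
    · have e1 : 2 * (2 + (q : ℝ) * 2 + 1) + 1 = 4 * q + 7 := by ring
      rwa [e1] at key
    · intro ω ω' hω hω' h j
      have h1 := Prod.ext_iff.mp h
      simp only at h1
      have h2 := hpco ω ω' hω hω' h1.2 h1.1 j
      have e1 : F.pvl lam i0 z ω j = ⌊2 ^ 0 * pco lam i0 (z ω) (F.d ω) j⌋ := rfl
      have e3 : F.pvl lam i0 z ω' j = ⌊2 ^ 0 * pco lam i0 (z ω') (F.d ω') j⌋ := rfl
      rw [e1, e3]
      refine floor_sub_lt ?_
      rw [pow_zero, one_mul, one_mul, ← h1.1]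
      exact h2
  -- positions
  have a3 : CH F.p (F.pcl w lam i0 z) (fun ω => (z ω, pt ω)) ≤
      m * Real.log (4 * q + 2 * b + 9) := by
    have key := CH_vec_const F.isLaw (F.pcl w lam i0 z) (fun ω => (z ω, pt ω))
      (c := (1 + b) + (2 + q * 2) + 1) ?_
    · have e1 : 2 * ((1 + b) + (2 + (q : ℝ) * 2) + 1) + 1 = 4 * q + 2 * b + 9 := by ring
      rwa [e1] at key
    · intro ω ω' hω hω' h j
      have h1 := Prod.ext_iff.mp h
      simp only at h1
      have h2 := hpco ω ω' hω hω' h1.2 h1.1 j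
      have h3 := Prod.ext_iff.mp (hpt ω ω' hω hω' h1.2)
      have hX : F.X J ω = F.X J ω' := h3.1
      have hT : F.T ω = F.T ω' := (Prod.ext_iff.mp h3.2).1
      have e2 : (F.plk w lam i0 z).t ω = (F.plk w lam i0 z).t ω' := by
        change ((F.T ω % 2 ^ (J - w) : ℕ) : ℝ) / 2 ^ (J - w) =
          ((F.T ω' % 2 ^ (J - w) : ℕ) : ℝ) / 2 ^ (J - w)
        rw [hT]
      have key : ∀ ω'', 2 ^ w * pco lam i0 (z ω'') (F.x1 w ω'') j =
          2 ^ w * pco lam i0 (z ω'') (F.x ω'') j -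
            (F.plk w lam i0 z).t ω'' * pco lam i0 (z ω'') (F.d ω'') j := by
        intro ω''
        have f1 := plk_x F hwJ lam i0 z ω'' j
        have f2 := pcl_eq F w lam i0 z ω'' j
        have f3 := pvl_eq F w lam i0 z ω'' j
        have f4 : (F.plk w lam i0 z).x ω'' j = (F.plk w lam i0 z).u ω'' j +
          (F.plk w lam i0 z).t ω'' * (F.plk w lam i0 z).d ω'' j := rfl
        rw [f1, f2, f3, f4]
        ring
      have ht := t_mem F w lam i0 z ω'
      have hx : |2 ^ w * pco lam i0 (z ω) (F.x ω) j - 2 ^ w * pco lam i0 (z ω) (F.x ω') j| ≤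
          1 + b := by
        have g0 : ∀ i, |2 ^ J * F.x ω i - 2 ^ J * F.x ω' i| ≤ 1 := fun i =>
          abs_sub_lt_of_floor (congrFun hX i)
        have g1 : ∀ i, |2 ^ (w + lam) * F.x ω i - 2 ^ (w + lam) * F.x ω' i| ≤ 1 := by
          intro i
          have e4 : (2 : ℝ) ^ J = 2 ^ (J - (w + lam)) * 2 ^ (w + lam) := by
            rw [← pow_add]; congr 1; omega
          have g2 := g0 i
          rw [e4] at g2
          have e5 : (2 : ℝ) ^ (J - (w + lam)) * 2 ^ (w + lam) * F.x ω i -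
              2 ^ (J - (w + lam)) * 2 ^ (w + lam) * F.x ω' i =
              2 ^ (J - (w + lam)) * (2 ^ (w + lam) * F.x ω i - 2 ^ (w + lam) * F.x ω' i) := by
            ring
          rw [e5, abs_mul, abs_of_nonneg (by positivity)] at g2
          have g3 : (1 : ℝ) ≤ 2 ^ (J - (w + lam)) := one_le_pow₀ (by norm_num)
          have g4 := abs_nonneg (2 ^ (w + lam) * F.x ω i - 2 ^ (w + lam) * F.x ω' i)
          nlinarith only [g2, g3, g4]
        unfold pco
        have hbz := hz ω hω j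
        by_cases hi : j = i0
        · rw [if_pos hi, if_pos hi]
          have k1 := g1 i0
          rw [pow_add] at k1
          have e4 : (2 : ℝ) ^ w * 2 ^ lam * F.x ω i0 - 2 ^ w * 2 ^ lam * F.x ω' i0 =
            2 ^ lam * (2 ^ w * F.x ω i0 - 2 ^ w * F.x ω' i0) := by ring
          rw [e4, abs_mul, abs_of_nonneg (by positivity)] at k1
          have k2 := abs_nonneg (2 ^ w * F.x ω i0 - 2 ^ w * F.x ω' i0)
          have k3 : (1 : ℝ) ≤ 2 ^ lam := one_le_pow₀ (by norm_num)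
          nlinarith only [k1, k3, hb, hp2]
        · rw [if_neg hi, if_neg hi]
          have e4 : (2 : ℝ) ^ w * (2 ^ lam * (F.x ω j - z ω j * F.x ω i0)) -
              2 ^ w * (2 ^ lam * (F.x ω' j - z ω j * F.x ω' i0)) =
              (2 ^ (w + lam) * F.x ω j - 2 ^ (w + lam) * F.x ω' j) -
              z ω j * (2 ^ (w + lam) * F.x ω i0 - 2 ^ (w + lam) * F.x ω' i0) := by
            rw [pow_add]; ring
          rw [e4]
          have k4 : |z ω j * (2 ^ (w + lam) * F.x ω i0 - 2 ^ (w + lam) * F.x ω' i0)| ≤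
              b * 1 := by
            rw [abs_mul]
            exact mul_le_mul hbz (g1 i0) (abs_nonneg _) hb
          have k5 := abs_sub (2 ^ (w + lam) * F.x ω j - 2 ^ (w + lam) * F.x ω' j)
            (z ω j * (2 ^ (w + lam) * F.x ω i0 - 2 ^ (w + lam) * F.x ω' i0))
          linarith only [k4, k5, g1, g1 j]
      have e1 : F.pcl w lam i0 z ω j = ⌊2 ^ w * pco lam i0 (z ω) (F.x1 w ω) j⌋ := rfl
      have e3 : F.pcl w lam i0 z ω' j = ⌊2 ^ w * pco lam i0 (z ω') (F.x1 w ω') j⌋ := rfl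
      rw [e1, e3]
      refine floor_sub_lt ?_
      rw [key ω, key ω', ← h1.1, e2]
      have e4 : 2 ^ w * pco lam i0 (z ω) (F.x ω) j -
          (F.plk w lam i0 z).t ω' * pco lam i0 (z ω) (F.d ω) j -
          (2 ^ w * pco lam i0 (z ω) (F.x ω') j -
          (F.plk w lam i0 z).t ω' * pco lam i0 (z ω) (F.d ω') j) =
          (2 ^ w * pco lam i0 (z ω) (F.x ω) j - 2 ^ w * pco lam i0 (z ω) (F.x ω') j) -
          (F.plk w lam i0 z).t ω' * (pco lam i0 (z ω) (F.d ω) j -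
            pco lam i0 (z ω) (F.d ω') j) := by ring
      rw [e4]
      have k1 := abs_sub (2 ^ w * pco lam i0 (z ω) (F.x ω) j -
        2 ^ w * pco lam i0 (z ω) (F.x ω') j)
        ((F.plk w lam i0 z).t ω' * (pco lam i0 (z ω) (F.d ω) j -
            pco lam i0 (z ω) (F.d ω') j))
      rw [abs_mul, abs_of_nonneg ht.1] at k1
      have k2 := abs_nonneg (pco lam i0 (z ω) (F.d ω) j - pco lam i0 (z ω) (F.d ω') j)
      nlinarith only [ht, hx, k1, h2, ht.1, ht.2]
  -- assembly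
  have b1 := CH_le_add h0 (F.plab w lam i0 z) z pt
  have b2 : CH F.p (F.plab w lam i0 z) (fun ω => (z ω, pt ω)) ≤
      CH F.p (fun ω => (F.pvl lam i0 z ω, F.pcl w lam i0 z ω)) (fun ω => (z ω, pt ω)) := by
    refine CH_mono_left h0 ?_
    intro ω ω' hω hω' h
    have h1 := Prod.ext_iff.mp h
    have h2 := Prod.ext_iff.mp h1.1
    have h3 := Prod.ext_iff.mp h1.2
    simp only at h2 h3
    have h4 := Prod.ext_iff.mp (hpt ω ω' hω hω' h3.2)
    have h5 : F.T ω = F.T ω' := (Prod.ext_iff.mp h4.2).1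
    have h6 : F.Z ω = F.Z ω' := (Prod.ext_iff.mp h4.2).2
    unfold Fam.plab Fam.T1
    rw [h5, h3.1, h2.1, h2.2, h6]
  have b3 := CH_subadd h0 (F.pvl lam i0 z) (F.pcl w lam i0 z) (fun ω => (z ω, pt ω))
  linarith only [a1, a2, a3, b1, b2, b3]

end Plk

end Pool.KA
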