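import Pool.Agent.H13.K2S.Skel
import Pool.Agent.H78.KST.OUT
import Pool.Agent.H64.K2.Plk2

/-!
# Row FLATM of K2: the frame is a function of the cell of the plank position

`FlatAt`: two points with the same exact time, which lie in one cell (chart coordinate to
`2 ^ (-r)`, frame to `2 ^ (-l)`, position in the frame to `2 ^ (-(r + l))`), have the same frame to
`2 ^ (-l')`. The property follows from the same property for small cubes (PU) and the fullness of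
the rows of the chart coordinate, for events which are stable.
-/

set_option autoImplicit false

namespace Pool.K2S

open Finset Real
open Pool.Agent.H49.Ent Pool.Agent.H32.Dense Pool.STK Pool.KA Pool.KSAT

variable {m J : ℕ}

/-- Two points of one cell at the same exact time have the same frame to `2 ^ (-l')`. -/
def FlatAt (F : Fam m J) (i₀ : Fin m) (h r l l' : ℕ) (A : F.Ω → Prop) : Prop :=
  ∃ e n : (Fin m → ℤ) × (ℕ × F.ζ) → Fin m → ℝ, OnL i₀ (1 / 2 ^ h) (Fam.pt F) F.d A e n ∧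
    ∀ ω ω', A ω → A ω' → F.W ω = F.W ω' → |F.x ω i₀ - F.x ω' i₀| ≤ 1 / 2 ^ r →
      (∀ j, |e (Fam.pt F ω) j - e (Fam.pt F ω') j| ≤ 1 / 2 ^ l) →
      (∀ j, j ≠ i₀ → |F.x ω j - F.x ω' j - e (Fam.pt F ω) j * (F.x ω i₀ - F.x ω' i₀)| ≤
        1 / 2 ^ (r + l)) →
      ∀ j, |e (Fam.pt F ω) j - e (Fam.pt F ω') j| ≤ 1 / 2 ^ l'

theorem FlatAt.hered (F : Fam m J) (i₀ : Fin m) (h r l l' : ℕ) :
    Hered (FlatAt F i₀ h r l l') := by
  rintro A B hB ⟨e, n, h1, h2⟩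
  exact ⟨e, n, h1.sub hB, fun ω ω' hω hω' => h2 ω ω' (hB ω hω) (hB ω' hω')⟩

namespace Flt

/-! ### Tools -/

theorem floor_diff {a b c : ℝ} {k : ℤ} (h : |a - b| ≤ c) (hk : c ≤ k) : |⌊a⌋ - ⌊b⌋| ≤ k := by
  have h1 := Int.floor_le a
  have h2 := Int.lt_floor_add_one a
  have h3 := Int.floor_le b
  have h4 := Int.lt_floor_add_one b
  rw [abs_le] at h ⊢
  constructor
  · have : (-((k : ℝ) + 1)) < ((⌊a⌋ - ⌊b⌋ : ℤ) : ℝ) := by push_cast; linarith [h.1]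
    have h5 : (((-(k + 1)) : ℤ) : ℝ) < ((⌊a⌋ - ⌊b⌋ : ℤ) : ℝ) := by push_cast at this ⊢; linarith
    have h6 : -(k + 1) < ⌊a⌋ - ⌊b⌋ := by exact_mod_cast h5
    omega
  · have : ((⌊a⌋ - ⌊b⌋ : ℤ) : ℝ) < ((k + 1 : ℤ) : ℝ) := by push_cast; linarith [h.2]
    have h6 : ⌊a⌋ - ⌊b⌋ < k + 1 := by exact_mod_cast this
    omega

theorem eq_of_mod {a b : ℤ} {k : ℕ} (h : |a - b| < k) (h' : (a : ZMod k) = b) : a = b := by
  have h1 : (k : ℤ) ∣ a - b := (ZMod.intCast_eq_intCast_iff_dvd_sub b a k).1 h'.symm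
  have h2 := Int.eq_zero_of_abs_lt_dvd h1 h
  omega

/-- The rows of one coordinate. -/
theorem row1_ub {Ω S : Type} [Fintype Ω] {p : Ω → ℝ} (hp : IsLaw p) (y : Ω → ℝ)
    (W : Ω → S) {i i' : ℕ} (hi : i ≤ i') (hW : Det p W (fun ω => ⌊(2 : ℝ) ^ i * y ω⌋)) :
    CH p (fun ω => ⌊(2 : ℝ) ^ i' * y ω⌋) W ≤ ((i' : ℝ) - i) * Real.log 2 := by
  obtain ⟨k, rfl⟩ := Nat.exists_eq_add_of_le hi
  have h0 := CH_mono_cond hp.nonneg (X := fun ω => ⌊(2 : ℝ) ^ (i + k) * y ω⌋) hW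
  refine h0.trans ?_
  have h1 := CH_le_card hp.nonneg hp.sum_one (fun ω => ⌊(2 : ℝ) ^ (i + k) * y ω⌋)
    (fun ω => ⌊(2 : ℝ) ^ i * y ω⌋)
    (fun w => Finset.Ico (2 ^ k * w) (2 ^ k * w + 2 ^ k))
    (fun ω _ => by
      rw [Finset.mem_Ico]
      have e1 : (2 : ℝ) ^ (i + k) * y ω = 2 ^ k * (2 ^ i * y ω) := by
        rw [pow_add]; ring
      rw [e1]
      have h2 := Int.floor_le ((2 : ℝ) ^ i * y ω)
      have h3 := Int.lt_floor_add_one ((2 : ℝ) ^ i * y ω)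
      have h4 : (0 : ℝ) < 2 ^ k := by positivity
      refine ⟨Int.le_floor.2 ?_, Int.floor_lt.2 ?_⟩
      · push_cast
        exact mul_le_mul_of_nonneg_left h2 h4.le
      · push_cast
        have := mul_lt_mul_of_pos_left h3 h4
        linarith)
  refine h1.trans (le_of_eq ?_)
  have h2 : ∀ ω, Real.log ((Finset.Ico (2 ^ k * ⌊(2 : ℝ) ^ i * y ω⌋)
      (2 ^ k * ⌊(2 : ℝ) ^ i * y ω⌋ + 2 ^ k)).card) = k * Real.log 2 := by
    intro ω
    have e1 : ((Finset.Ico (2 ^ k * ⌊(2 : ℝ) ^ i * y ω⌋)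
        (2 ^ k * ⌊(2 : ℝ) ^ i * y ω⌋ + 2 ^ k)).card) = 2 ^ k := by
      rw [Int.card_Ico]
      have : (2 ^ k * ⌊(2 : ℝ) ^ i * y ω⌋ + 2 ^ k - 2 ^ k * ⌊(2 : ℝ) ^ i * y ω⌋) =
        ((2 ^ k : ℕ) : ℤ) := by
        push_cast; ring
      rw [this, Int.toNat_natCast]
    rw [e1]
    push_cast
    rw [Real.log_pow]
  unfold Ex
  simp only [h2]
  rw [← Finset.sum_mul, hp.sum_one, one_mul]
  push_cast
  ring

/-- A class which contains its share of the event. -/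
theorem exists_class {Ω K : Type} [Fintype Ω] [Fintype K] [Nonempty K] {p : Ω → ℝ}
    (B : Ω → Prop) (κ : Ω → K) :
    ∃ k, Pe p B ≤ (Fintype.card K : ℝ) * Pe p (fun ω => B ω ∧ κ ω = k) := by
  classical
  by_contra hcon
  push Not at hcon
  have h1 : Pe p B = ∑ k : K, Pe p (fun ω => B ω ∧ κ ω = k) := by
    simp_rw [Pe_eq]
    rw [Finset.sum_comm]
    refine Finset.sum_congr rfl fun ω _ => ?_
    by_cases hB : B ω
    · simp [hB]
    · simp [hB]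
  have hne : (univ : Finset K).Nonempty := Finset.univ_nonempty
  have h2 : ∑ k : K, (Fintype.card K : ℝ) * Pe p (fun ω => B ω ∧ κ ω = k) <
      ∑ k : K, Pe p B := Finset.sum_lt_sum_of_nonempty hne fun k _ => hcon k
  rw [← Finset.mul_sum, ← h1, Finset.sum_const, Finset.card_univ, nsmul_eq_mul] at h2
  exact lt_irrefl _ h2

/-- The cell of the position over the chart coordinate, with the rounded frame `E`. -/
noncomputable def nrc (F : Fam m J) (i₀ : Fin m) (r l : ℕ) (E : F.Ω → Fin m → ℤ) (ω : F.Ω)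
    (j : Fin m) : ℤ :=
  if j = i₀ then 0 else ⌊(2 : ℝ) ^ (r + l) * (F.x ω j - (E ω j : ℝ) / 2 ^ l * F.x ω i₀)⌋

/-- The label of the cell. -/
noncomputable def blb (F : Fam m J) (i₀ : Fin m) (r l : ℕ) (f : F.Ω → Fin m → ℝ) (ω : F.Ω) :
    (ℕ × F.ζ) × (ℤ × ((Fin m → ℤ) × (Fin m → ℤ))) :=
  (F.W ω, (⌊(2 : ℝ) ^ r * F.x ω i₀⌋, (fl l (f ω), nrc F i₀ r l (fun ω => fl l (f ω)) ω)))

/-- The constant. -/
noncomputable def flC (m : ℕ) (C : ℝ) : ℝ :=
  m * Real.log 11 + m * Real.log (2 * (2 * C + 1) + 1) + (1 + 3 * m) * Real.log 3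

theorem div_floor_near (l : ℕ) (y : ℝ) : |y - (⌊(2 : ℝ) ^ l * y⌋ : ℝ) / 2 ^ l| ≤ 1 / 2 ^ l := by
  have h1 := Int.floor_le ((2 : ℝ) ^ l * y)
  have h2 := Int.lt_floor_add_one ((2 : ℝ) ^ l * y)
  have h3 : (0 : ℝ) < 2 ^ l := by positivity
  have e : y - (⌊(2 : ℝ) ^ l * y⌋ : ℝ) / 2 ^ l = (2 ^ l * y - ⌊(2 : ℝ) ^ l * y⌋) / 2 ^ l := by
    field_simp
  rw [e, abs_div, abs_of_pos h3]
  refine div_le_div_of_nonneg_right ?_ h3.le
  rw [abs_le]
  constructor <;> linarith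

/-- The cube of the position given the label and the rows of the chart coordinate. -/
theorem CH_cube {F : Fam m J} {q : F.Ω → ℝ} (hq : IsLaw q) {i₀ : Fin m} {r l P' : ℕ}
    (hP : P' ≤ r + l) {f : F.Ω → Fin m → ℝ} (hf : ∀ ω, 0 < q ω → ∀ j, |f ω j| ≤ 2) :
    CH q (F.X P') (fun ω => (⌊(2 : ℝ) ^ P' * F.x ω i₀⌋, blb F i₀ r l f ω)) ≤ m * Real.log 11 := by
  have key := Plk.CH_vec_const hq (F.X P')
    (fun ω => (⌊(2 : ℝ) ^ P' * F.x ω i₀⌋, blb F i₀ r l f ω)) (c := 5) ?_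
  · norm_num at key
    exact key
  · intro ω ω' hω _ hW j
    have h1 := Prod.ext_iff.mp hW
    have h2 := Prod.ext_iff.mp (Prod.ext_iff.mp (Prod.ext_iff.mp h1.2).2).2
    simp only at h1 h2
    have hR : |(2 : ℝ) ^ P' * F.x ω i₀ - 2 ^ P' * F.x ω' i₀| ≤ 1 :=
      Plk.abs_sub_lt_of_floor h1.1
    by_cases hj : j = i₀
    · rw [hj]
      have := Plk.floor_sub_lt hR
      refine le_trans this (by norm_num)
    · have hE : fl l (f ω) j = fl l (f ω') j := congrFun h2.1 j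
      have hN : nrc F i₀ r l (fun ω => fl l (f ω)) ω j = nrc F i₀ r l (fun ω => fl l (f ω)) ω' j :=
        congrFun h2.2 j
      unfold nrc at hN
      beta_reduce at hN
      rw [if_neg hj, if_neg hj, ← hE] at hN
      have hN' := Plk.abs_sub_lt_of_floor hN
      have p1 : (0 : ℝ) < 2 ^ P' := by positivity
      have p2 : (2 : ℝ) ^ (r + l) = 2 ^ P' * 2 ^ (r + l - P') := by
        rw [← pow_add]
        congr 1
        omega
      have p3 : (1 : ℝ) ≤ 2 ^ (r + l - P') := one_le_pow₀ (by norm_num)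
      set c : ℝ := (fl l (f ω) j : ℝ) / 2 ^ l with hc
      have hc2 : |c| ≤ 3 := by
        have a1 := div_floor_near l (f ω j)
        have a2 := hf ω hω j
        have a3 : (1 : ℝ) / 2 ^ l ≤ 1 := by
          rw [div_le_one (by positivity)]
          exact one_le_pow₀ (by norm_num)
        have a4 : c = (⌊(2 : ℝ) ^ l * f ω j⌋ : ℝ) / 2 ^ l := rfl
        rw [← a4] at a1
        have a5 := abs_sub_abs_le_abs_sub c (f ω j)
        rw [abs_sub_comm] at a5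
        linarith
      refine (Plk.floor_sub_lt (c := 1 + 3 * 1) ?_).trans (by norm_num)
      have k1 : |(2 : ℝ) ^ P' * ((F.x ω j - c * F.x ω i₀) - (F.x ω' j - c * F.x ω' i₀))| ≤ 1 := by
        have k2 : (2 : ℝ) ^ (r + l) * (F.x ω j - c * F.x ω i₀) -
            2 ^ (r + l) * (F.x ω' j - c * F.x ω' i₀) = 2 ^ (r + l - P') *
            (2 ^ P' * ((F.x ω j - c * F.x ω i₀) - (F.x ω' j - c * F.x ω' i₀))) := by
          rw [p2]; ring
        rw [k2, abs_mul, abs_of_nonneg (by positivity)] at hN'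
        have k3 := abs_nonneg ((2 : ℝ) ^ P' * ((F.x ω j - c * F.x ω i₀) -
          (F.x ω' j - c * F.x ω' i₀)))
        nlinarith
      have k4 : (2 : ℝ) ^ P' * F.x ω j - 2 ^ P' * F.x ω' j =
          2 ^ P' * ((F.x ω j - c * F.x ω i₀) - (F.x ω' j - c * F.x ω' i₀)) +
            c * (2 ^ P' * F.x ω i₀ - 2 ^ P' * F.x ω' i₀) := by ring
      rw [k4]
      refine (abs_add_le _ _).trans (add_le_add k1 ?_)
      rw [abs_mul]
      exact mul_le_mul hc2 hR (abs_nonneg _) (by norm_num)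

/-- The frame has small entropy given the label. -/
theorem CH_flat {F : Fam m J} {q : F.Ω → ℝ} (hq : IsLaw q) {i₀ : Fin m} {r l l' P' : ℕ}
    (hr : r ≤ P') (hP : P' ≤ r + l) {f : F.Ω → Fin m → ℝ}
    (hf : ∀ ω, 0 < q ω → ∀ j, |f ω j| ≤ 2) {c₂ d : ℝ}
    (hPU : CH q (fun ω => fl l' (f ω)) (fun ω => (F.X P' ω, F.W ω)) ≤ c₂)
    (hR : ((P' : ℝ) - r) * Real.log 2 - d ≤ CH q (fun ω => ⌊(2 : ℝ) ^ P' * F.x ω i₀⌋)
      (fun ω => (fl l' (f ω), blb F i₀ r l f ω))) :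
    CH q (fun ω => fl l' (f ω)) (blb F i₀ r l f) ≤ d + (m * Real.log 11 + c₂) := by
  have h0 := hq.nonneg
  set R : F.Ω → ℤ := fun ω => ⌊(2 : ℝ) ^ P' * F.x ω i₀⌋ with hRd
  set Z : F.Ω → Fin m → ℤ := fun ω => fl l' (f ω) with hZ
  set b := blb F i₀ r l f with hb
  have e1 := CH_chain h0 Z R b
  have e2 := CH_chain h0 R Z b
  have e3 : CH q (fun ω => (Z ω, R ω)) b = CH q (fun ω => (R ω, Z ω)) b := by
    refine CH_congr h0 ?_ ?_ (fun _ _ _ _ h => h) (fun _ _ _ _ h => h) <;>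
    · intro ω ω' _ _ h
      simp only [Prod.mk.injEq] at h ⊢
      tauto
  have h1 : CH q R b ≤ ((P' : ℝ) - r) * Real.log 2 :=
    row1_ub hq (fun ω => F.x ω i₀) b hr (fun ω ω' _ _ h =>
      (Prod.ext_iff.mp (Prod.ext_iff.mp h).2).1)
  have h2 := CH_cube hq (i₀ := i₀) hP hf
  have h3 : CH q Z (fun ω => (R ω, b ω)) ≤ m * Real.log 11 + c₂ := by
    have g1 := CH_chain h0 Z (F.X P') (fun ω => (R ω, b ω))
    have g2 : CH q Z (fun ω => (R ω, b ω)) ≤ CH q (fun ω => (Z ω, F.X P' ω))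
        (fun ω => (R ω, b ω)) :=
      CH_mono_left h0 fun ω ω' _ _ h => (Prod.ext_iff.mp (Prod.ext_iff.mp h).1).1
    have g3 : CH q Z (fun ω => (F.X P' ω, (R ω, b ω))) ≤
        CH q Z (fun ω => (F.X P' ω, F.W ω)) := by
      refine CH_mono_cond h0 ?_
      intro ω ω' _ _ h
      have a1 := Prod.ext_iff.mp h
      have a2 := Prod.ext_iff.mp (Prod.ext_iff.mp a1.2).2
      exact Prod.ext a1.1 a2.1
    linarith
  linarith

/-- The label of the cell of close points is the same, on a residue class. -/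
theorem label_eq {F : Fam m J} {i₀ : Fin m} {r l : ℕ} {f : F.Ω → Fin m → ℝ} {ω ω' : F.Ω}
    (hW : F.W ω = F.W ω') (hx : |F.x ω i₀ - F.x ω' i₀| ≤ 1 / 2 ^ r)
    (hf : ∀ j, |f ω j - f ω' j| ≤ 1 / 2 ^ l)
    (hn : ∀ j, j ≠ i₀ → |F.x ω j - F.x ω' j - f ω j * (F.x ω i₀ - F.x ω' i₀)| ≤ 1 / 2 ^ (r + l))
    (k1 : ((⌊(2 : ℝ) ^ r * F.x ω i₀⌋ : ℤ) : ZMod 3) = ⌊(2 : ℝ) ^ r * F.x ω' i₀⌋)
    (k2 : ∀ j, ((fl l (f ω) j : ℤ) : ZMod 3) = fl l (f ω') j)
    (k3 : ∀ j, ((nrc F i₀ r l (fun ω => fl l (f ω)) ω j : ℤ) : ZMod 3) =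
      nrc F i₀ r l (fun ω => fl l (f ω)) ω' j) :
    blb F i₀ r l f ω = blb F i₀ r l f ω' := by
  have p1 : (0 : ℝ) < 2 ^ r := by positivity
  have p2 : (0 : ℝ) < 2 ^ l := by positivity
  have e1 : ⌊(2 : ℝ) ^ r * F.x ω i₀⌋ = ⌊(2 : ℝ) ^ r * F.x ω' i₀⌋ := by
    refine eq_of_mod (k := 3) ?_ (by exact_mod_cast k1)
    have := floor_diff (a := (2 : ℝ) ^ r * F.x ω i₀) (b := 2 ^ r * F.x ω' i₀) (c := 1) (k := 2) ?_
      (by norm_num)
    · refine lt_of_le_of_lt this (by norm_num)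
    · rw [← mul_sub, abs_mul, abs_of_pos p1]
      rw [le_div_iff₀ p1] at hx
      linarith
  have e2 : fl l (f ω) = fl l (f ω') := by
    funext j
    refine eq_of_mod (k := 3) ?_ (by exact_mod_cast k2 j)
    have := floor_diff (a := (2 : ℝ) ^ l * f ω j) (b := 2 ^ l * f ω' j) (c := 1) (k := 2) ?_
      (by norm_num)
    · exact lt_of_le_of_lt this (by norm_num)
    · rw [← mul_sub, abs_mul, abs_of_pos p2]
      have := hf j
      rw [le_div_iff₀ p2] at this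
      linarith
  have e3 : nrc F i₀ r l (fun ω => fl l (f ω)) ω = nrc F i₀ r l (fun ω => fl l (f ω)) ω' := by
    funext j
    refine eq_of_mod (k := 3) ?_ (by exact_mod_cast k3 j)
    unfold nrc
    by_cases hj : j = i₀
    · rw [if_pos hj, if_pos hj]
      norm_num
    · rw [if_neg hj, if_neg hj]
      have hE : fl l (f ω') j = fl l (f ω) j := (congrFun e2 j).symm
      beta_reduce
      rw [hE]
      set c : ℝ := (fl l (f ω) j : ℝ) / 2 ^ l with hc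
      have p3 : (0 : ℝ) < 2 ^ (r + l) := by positivity
      have := floor_diff (a := (2 : ℝ) ^ (r + l) * (F.x ω j - c * F.x ω i₀))
        (b := 2 ^ (r + l) * (F.x ω' j - c * F.x ω' i₀)) (c := 2) (k := 2) ?_ (by norm_num)
      · exact lt_of_le_of_lt this (by norm_num)
      · rw [← mul_sub, abs_mul, abs_of_pos p3]
        have a1 := div_floor_near l (f ω j)
        have a2 : (⌊(2 : ℝ) ^ l * f ω j⌋ : ℝ) / 2 ^ l = c := rfl
        rw [a2] at a1
        have e : F.x ω j - c * F.x ω i₀ - (F.x ω' j - c * F.x ω' i₀) =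
            (F.x ω j - F.x ω' j - f ω j * (F.x ω i₀ - F.x ω' i₀)) +
              (f ω j - c) * (F.x ω i₀ - F.x ω' i₀) := by ring
        rw [e]
        have a3 : |(f ω j - c) * (F.x ω i₀ - F.x ω' i₀)| ≤ 1 / 2 ^ (r + l) := by
          rw [abs_mul]
          calc _ ≤ 1 / 2 ^ l * (1 / 2 ^ r) :=
                mul_le_mul a1 hx (abs_nonneg _) (by positivity)
            _ = 1 / 2 ^ (r + l) := by rw [pow_add]; field_simp
        have a4 := hn j hj
        have a5 := abs_add_le (F.x ω j - F.x ω' j - f ω j * (F.x ω i₀ - F.x ω' i₀))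
          ((f ω j - c) * (F.x ω i₀ - F.x ω' i₀))
        calc _ ≤ (2 : ℝ) ^ (r + l) * (1 / 2 ^ (r + l) + 1 / 2 ^ (r + l)) :=
              mul_le_mul_of_nonneg_left (by linarith) p3.le
          _ = 2 := by field_simp; norm_num
  unfold blb
  rw [hW, e1, e2, e3]

/-- Real numbers with the same digits. -/
theorem near_of_fl {l : ℕ} {f g : Fin m → ℝ} (h : fl l f = fl l g) (j : Fin m) :
    |f j - g j| ≤ 1 / 2 ^ l := by
  have h1 : ⌊(2 : ℝ) ^ l * f j⌋ = ⌊(2 : ℝ) ^ l * g j⌋ := congrFun h j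
  have h2 := Plk.abs_sub_lt_of_floor h1
  have p : (0 : ℝ) < 2 ^ l := by positivity
  rw [← mul_sub, abs_mul, abs_of_pos p] at h2
  rw [le_div_iff₀ p]
  linarith

/-- The number of the residue classes. -/
theorem card_classes (m : ℕ) :
    (Fintype.card (ZMod 3 × ((Fin m → ZMod 3) × (Fin m → ZMod 3))) : ℝ) =
      Real.exp ((1 + 2 * m) * Real.log 3) := by
  simp only [Fintype.card_prod, ZMod.card, Fintype.card_pi, Finset.prod_const, Finset.card_univ,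
    Fintype.card_fin]
  push_cast
  have h : (3 : ℝ) * (3 ^ m * 3 ^ m) = 3 ^ (1 + 2 * m) := by
    rw [← pow_add, ← pow_succ']
    congr 1
    omega
  have e : ((1 : ℝ) + 2 * m) = ((1 + 2 * m : ℕ) : ℝ) := by push_cast; ring
  rw [h, e, ← Real.log_pow, Real.exp_log (by positivity)]

/-- **(FLAT)** from (PU) and full rows of the chart coordinate, for a stable event. -/
theorem flat_core {F : Fam m J} {i₀ : Fin m} {h r l l' P' : ℕ} {A : F.Ω → Prop}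
    {e n : (Fin m → ℤ) × (ℕ × F.ζ) → Fin m → ℝ} {C κ d : ℝ} (hA : 0 < Pe F.p A)
    (hs : Stb F.p κ A (FlatAt F i₀ h r l l')) (hr : r ≤ P') (hP : P' ≤ r + l)
    (h1 : OnL i₀ (1 / 2 ^ h) (Fam.pt F) F.d A e n)
    (hf : ∀ ω, A ω → ∀ j, |e (Fam.pt F ω) j| ≤ 2)
    (hPU : ∀ ω ω', A ω → A ω' → F.W ω = F.W ω' → F.X P' ω = F.X P' ω' →
      ∀ j, |e (Fam.pt F ω) j - e (Fam.pt F ω') j| ≤ C / 2 ^ l')
    (hR : ((P' : ℝ) - r) * Real.log 2 - d ≤
      CH (Pool.Agent.H49.Ent.cond F.p A True) (fun ω => ⌊(2 : ℝ) ^ P' * F.x ω i₀⌋)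
      (fun ω => (fl l' (e (Fam.pt F ω)), blb F i₀ r l (fun ω => e (Fam.pt F ω)) ω)))
    (hκ : d + (m * Real.log 11 + m * Real.log (2 * (C + 1) + 1)) + (1 + 2 * m) * Real.log 3 ≤ κ) :
    FlatAt F i₀ h r l l' A := by
  classical
  have hp := F.isLaw
  obtain ⟨q, hq⟩ : ∃ q, q = Pool.Agent.H49.Ent.cond F.p A True := ⟨_, rfl⟩
  have hql : IsLaw q := by rw [hq]; exact isLaw_cond hp hA
  have hqA : ∀ ω, 0 < q ω → A ω := fun ω hω => by
    rw [hq] at hω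
    have := ((cond_pos_iff hp.nonneg A True ω).1 hω).2
    simpa using this
  rw [← hq] at hR
  obtain ⟨f, hfd⟩ : ∃ f : F.Ω → Fin m → ℝ, f = fun ω => e (Fam.pt F ω) := ⟨_, rfl⟩
  have hR' : ((P' : ℝ) - r) * Real.log 2 - d ≤ CH q (fun ω => ⌊(2 : ℝ) ^ P' * F.x ω i₀⌋)
      (fun ω => (fl l' (f ω), blb F i₀ r l f ω)) := by
    rw [hfd]
    exact hR
  have hPU' : CH q (fun ω => fl l' (f ω)) (fun ω => (F.X P' ω, F.W ω)) ≤
      m * Real.log (2 * (C + 1) + 1) := by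
    refine Plk.CH_vec_const hql (fun ω => fl l' (f ω)) (fun ω => (F.X P' ω, F.W ω)) ?_
    intro ω ω' hω hω' hW j
    have a1 := Prod.ext_iff.mp hW
    have a2 := hPU ω ω' (hqA ω hω) (hqA ω' hω') a1.2 a1.1 j
    have p : (0 : ℝ) < 2 ^ l' := by positivity
    refine Plk.floor_sub_lt ?_
    rw [← mul_sub, abs_mul, abs_of_pos p, hfd]
    rw [le_div_iff₀ p] at a2
    linarith
  have hCH := CH_flat hql hr hP (f := f) (fun ω hω j => by rw [hfd]; exact hf ω (hqA ω hω) j)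
    hPU' hR'
  -- the most likely value
  have hPe : Pe q (fun _ => True) = 1 := Pe_univ hql
  obtain ⟨v, hv⟩ := Pool.KST.out_select hql (fun _ => True) (fun ω => fl l' (f ω))
    (blb F i₀ r l f) (by rw [hPe]; norm_num)
  rw [hPe, one_mul, div_one] at hv
  -- the residue classes
  obtain ⟨cl, hcl⟩ : ∃ cl : F.Ω → ZMod 3 × ((Fin m → ZMod 3) × (Fin m → ZMod 3)),
    cl = fun ω => (((⌊(2 : ℝ) ^ r * F.x ω i₀⌋ : ℤ) : ZMod 3),
      (fun j => ((fl l (f ω) j : ℤ) : ZMod 3),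
        fun j => ((nrc F i₀ r l (fun ω => fl l (f ω)) ω j : ℤ) : ZMod 3))) := ⟨_, rfl⟩
  obtain ⟨k, hk⟩ := exists_class (p := q) (fun ω => True ∧ fl l' (f ω) = v (blb F i₀ r l f ω)) cl
  rw [card_classes] at hk
  rcases hs with hs | hs
  · exact hs
  · exfalso
    refine hs (fun ω => A ω ∧ ((True ∧ fl l' (f ω) = v (blb F i₀ r l f ω)) ∧ cl ω = k))
      (fun ω hω => hω.1) ?_ ?_
    · have e1 : Pe q (fun ω => (True ∧ fl l' (f ω) = v (blb F i₀ r l f ω)) ∧ cl ω = k) =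
          Pe F.p (fun ω => A ω ∧ ((True ∧ fl l' (f ω) = v (blb F i₀ r l f ω)) ∧ cl ω = k)) /
            Pe F.p A := by
        rw [hq]
        exact Pe_cond _
      have e2 := hv.trans hk
      rw [e1, ← div_le_iff₀' (Real.exp_pos _), ← Real.exp_sub, le_div_iff₀ hA] at e2
      refine le_trans (mul_le_mul_of_nonneg_right (Real.exp_le_exp.2 ?_) hA.le) e2
      linarith
    · refine ⟨e, n, h1.sub fun ω hω => hω.1, ?_⟩
      rintro ω ω' ⟨hω, ⟨-, hz⟩, hc⟩ ⟨hω', ⟨-, hz'⟩, hc'⟩ hW hx he hn j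
      have hcc := hc.trans hc'.symm
      rw [hcl] at hcc
      have c1 := Prod.ext_iff.mp hcc
      have c2 := Prod.ext_iff.mp c1.2
      have hb : blb F i₀ r l f ω = blb F i₀ r l f ω' := by
        refine label_eq hW hx ?_ ?_ c1.1 (fun j => congrFun c2.1 j) (fun j => congrFun c2.2 j)
        · rw [hfd]; exact he
        · rw [hfd]; exact hn
      have hzz : fl l' (f ω) = fl l' (f ω') := by rw [hz, hz', hb]
      have := near_of_fl hzz j
      rw [hfd] at this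
      exact this

/-! ### The inputs -/

/-- Full rows given a label `β` which is finer than the label of the cell, up to `c₃`. -/
theorem rows_of_label {F : Fam m J} {q : F.Ω → ℝ} (hq : IsLaw q) {T S V : Type} {R : F.Ω → T}
    {β : F.Ω → S} {b : F.Ω → V} {N d c₃ : ℝ} (h1 : N - d ≤ CH q R β) (h2 : CH q b β ≤ c₃) :
    N - (d + c₃) ≤ CH q R b := by
  have h0 := hq.nonneg
  have e1 := CH_chain h0 R b β
  have e2 := CH_chain h0 b R β
  have e3 : CH q (fun ω => (R ω, b ω)) β = CH q (fun ω => (b ω, R ω)) β := by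
    refine CH_congr h0 ?_ ?_ (fun _ _ _ _ h => h) (fun _ _ _ _ h => h) <;>
    · intro ω ω' _ _ h
      simp only [Prod.mk.injEq] at h ⊢
      tauto
  have h3 : CH q R (fun ω => (b ω, β ω)) ≤ CH q R b :=
    CH_mono_cond h0 fun _ _ _ _ h => (Prod.ext_iff.mp h).1
  have h4 := CH_nonneg h0 b (fun ω => (R ω, β ω))
  linarith

/-- A label whose cells are as small as those of `blb` determines `blb` up to a constant. -/
theorem CH_label_le {F : Fam m J} {q : F.Ω → ℝ} (hq : IsLaw q) {i₀ : Fin m} {r l l' : ℕ}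
    (hl : l ≤ l') {T : Type} {β : F.Ω → T} {f : F.Ω → Fin m → ℝ} {c : ℝ} (hc : 0 ≤ c)
    (hW : Det q β F.W)
    (hx : ∀ ω ω', 0 < q ω → 0 < q ω' → β ω = β ω' → |F.x ω i₀ - F.x ω' i₀| ≤ c / 2 ^ r)
    (hf : ∀ ω ω', 0 < q ω → 0 < q ω' → β ω = β ω' → ∀ j, |f ω j - f ω' j| ≤ c / 2 ^ l')
    (hn : ∀ ω ω', 0 < q ω → 0 < q ω' → β ω = β ω' → ∀ j, j ≠ i₀ →
      |F.x ω j - F.x ω' j - f ω j * (F.x ω i₀ - F.x ω' i₀)| ≤ c / 2 ^ (r + l)) :
    CH q (fun ω => (fl l' (f ω), blb F i₀ r l f ω)) β ≤ (1 + 3 * m) * Real.log (4 * c + 3) := by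
  have h0 := hq.nonneg
  have hlog : Real.log (2 * (c + 1) + 1) ≤ Real.log (4 * c + 3) :=
    Real.log_le_log (by linarith) (by linarith)
  obtain ⟨Z, hZ⟩ : ∃ Z : F.Ω → Fin m → ℤ, Z = fun ω => fl l' (f ω) := ⟨_, rfl⟩
  obtain ⟨X, hX⟩ : ∃ X : F.Ω → ℤ, X = fun ω => ⌊(2 : ℝ) ^ r * F.x ω i₀⌋ := ⟨_, rfl⟩
  obtain ⟨E, hE⟩ : ∃ E : F.Ω → Fin m → ℤ, E = fun ω => fl l (f ω) := ⟨_, rfl⟩
  obtain ⟨N, hN⟩ : ∃ N : F.Ω → Fin m → ℤ, N = nrc F i₀ r l (fun ω => fl l (f ω)) := ⟨_, rfl⟩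
  have pr : (0 : ℝ) < 2 ^ r := by positivity
  have pl : (0 : ℝ) < 2 ^ l := by positivity
  have pl' : (0 : ℝ) < 2 ^ l' := by positivity
  have prl : (0 : ℝ) < 2 ^ (r + l) := by positivity
  have b1 : CH q Z β ≤ m * Real.log (2 * (c + 1) + 1) := by
    refine Plk.CH_vec_const hq Z β fun ω ω' hω hω' hb j => ?_
    rw [hZ]
    refine Plk.floor_sub_lt ?_
    rw [← mul_sub, abs_mul, abs_of_pos pl']
    have := hf ω ω' hω hω' hb j
    rw [le_div_iff₀ pl'] at this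
    linarith
  have b2 : CH q X β ≤ Real.log (2 * (c + 1) + 1) := by
    have key := CH_le_int h0 hq.sum_one X β (fun _ => c + 1) ?_
    · rwa [Ex_const hq.sum_one] at key
    · intro ω ω' hω hω' hb
      rw [hX]
      refine Plk.floor_sub_lt ?_
      rw [← mul_sub, abs_mul, abs_of_pos pr]
      have := hx ω ω' hω hω' hb
      rw [le_div_iff₀ pr] at this
      linarith
  have b3 : CH q E β ≤ m * Real.log (2 * (c + 1) + 1) := by
    refine Plk.CH_vec_const hq E β fun ω ω' hω hω' hb j => ?_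
    rw [hE]
    refine Plk.floor_sub_lt ?_
    rw [← mul_sub, abs_mul, abs_of_pos pl]
    have h1 := hf ω ω' hω hω' hb j
    have h2 : c / 2 ^ l' ≤ c / 2 ^ l :=
      div_le_div_of_nonneg_left hc pl (pow_le_pow_right₀ (by norm_num) hl)
    have h3 := h1.trans h2
    rw [le_div_iff₀ pl] at h3
    linarith
  have b4 : CH q N (fun ω => (E ω, β ω)) ≤ m * Real.log (2 * (2 * c + 1) + 1) := by
    refine Plk.CH_vec_const hq N _ fun ω ω' hω hω' hb j => ?_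
    have hb' := Prod.ext_iff.mp hb
    simp only at hb'
    rw [hN]
    unfold nrc
    by_cases hj : j = i₀
    · rw [if_pos hj, if_pos hj]
      simp only [sub_self, Int.cast_zero, abs_zero]
      linarith
    · rw [if_neg hj, if_neg hj]
      have e2 : fl l (f ω) j = fl l (f ω') j := by
        have := congrFun hb'.1 j
        rw [hE] at this
        exact this
      beta_reduce
      rw [← e2]
      set k : ℝ := (fl l (f ω) j : ℝ) / 2 ^ l with hk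
      refine Plk.floor_sub_lt ?_
      rw [← mul_sub, abs_mul, abs_of_pos prl]
      have a1 := div_floor_near l (f ω j)
      have a2 : (⌊(2 : ℝ) ^ l * f ω j⌋ : ℝ) / 2 ^ l = k := rfl
      rw [a2] at a1
      have e : F.x ω j - k * F.x ω i₀ - (F.x ω' j - k * F.x ω' i₀) =
          (F.x ω j - F.x ω' j - f ω j * (F.x ω i₀ - F.x ω' i₀)) +
            (f ω j - k) * (F.x ω i₀ - F.x ω' i₀) := by ring
      rw [e]
      have a3 : |(f ω j - k) * (F.x ω i₀ - F.x ω' i₀)| ≤ c / 2 ^ (r + l) := by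
        rw [abs_mul]
        calc _ ≤ 1 / 2 ^ l * (c / 2 ^ r) :=
              mul_le_mul a1 (hx ω ω' hω hω' hb'.2) (abs_nonneg _) (by positivity)
          _ = c / 2 ^ (r + l) := by rw [pow_add]; field_simp
      have a4 := hn ω ω' hω hω' hb'.2 j hj
      have a5 := abs_add_le (F.x ω j - F.x ω' j - f ω j * (F.x ω i₀ - F.x ω' i₀))
        ((f ω j - k) * (F.x ω i₀ - F.x ω' i₀))
      calc _ ≤ (2 : ℝ) ^ (r + l) * (c / 2 ^ (r + l) + c / 2 ^ (r + l)) :=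
            mul_le_mul_of_nonneg_left (by linarith) prl.le
        _ = 2 * c := by field_simp; norm_num
  have hmain : CH q (fun ω => (fl l' (f ω), blb F i₀ r l f ω)) β ≤
      CH q (fun ω => (Z ω, (X ω, (N ω, E ω)))) β := by
    refine CH_mono_left h0 fun ω ω' hω hω' h => ?_
    have h1 := Prod.ext_iff.mp h
    have h2 := Prod.ext_iff.mp h1.1
    have h3 := Prod.ext_iff.mp h2.2
    have h4 := Prod.ext_iff.mp h3.2
    simp only at h1 h2 h3 h4
    rw [hZ] at h2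
    rw [hX] at h3
    rw [hN, hE] at h4
    exact Prod.ext h2.1 (Prod.ext (hW ω ω' hω hω' h1.2) (Prod.ext h3.1 (Prod.ext h4.2 h4.1)))
  have s1 := CH_subadd h0 Z (fun ω => (X ω, (N ω, E ω))) β
  have s2 := CH_subadd h0 X (fun ω => (N ω, E ω)) β
  have s3 := CH_chain h0 N E β
  have hm : (0 : ℝ) ≤ m := Nat.cast_nonneg m
  have t1 : (m : ℝ) * Real.log (2 * (c + 1) + 1) ≤ m * Real.log (4 * c + 3) :=
    mul_le_mul_of_nonneg_left hlog hm
  have t2 : 2 * (2 * c + 1) + 1 = 4 * c + 3 := by ring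
  rw [t2] at b4
  linarith

/-- The input of (PU): the frame is a function of the cube. -/
theorem pairs_of_rotU {F : Fam m J} {i₀ : Fin m} {h l' P' : ℕ} {C : ℝ} {A : F.Ω → Prop}
    (H : RotU i₀ (1 / 2 ^ h) (C / 2 ^ l') (Fam.pt F) (fun ω => (F.X P' ω, F.W ω)) F.d A) :
    ∃ e n : (Fin m → ℤ) × (ℕ × F.ζ) → Fin m → ℝ, OnL i₀ (1 / 2 ^ h) (Fam.pt F) F.d A e n ∧
      ∀ ω ω', A ω → A ω' → F.W ω = F.W ω' → F.X P' ω = F.X P' ω' →
        ∀ j, |e (Fam.pt F ω) j - e (Fam.pt F ω') j| ≤ 2 * C / 2 ^ l' := by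
  obtain ⟨e, n, ζ, h1, h2⟩ := H
  refine ⟨e, n, h1, fun ω ω' hω hω' hW hX j => ?_⟩
  have a1 := h2 ω hω j
  have a2 := h2 ω' hω' j
  beta_reduce at a1 a2
  rw [← hW, ← hX] at a2
  have e1 : 2 * C / 2 ^ l' = C / 2 ^ l' + C / 2 ^ l' := by ring
  rw [e1]
  rw [abs_le] at a1 a2 ⊢
  constructor <;> linarith [a1.1, a1.2, a2.1, a2.2]

end Flt

/-! ### Use -/

/-- The property for any frame. -/
theorem FlatAt.frame {F : Fam m J} {i₀ : Fin m} {h h' r l l' : ℕ} {A : F.Ω → Prop} {s : ℝ}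
    (H : FlatAt F i₀ h r l l' A) {e n : (Fin m → ℤ) × (ℕ × F.ζ) → Fin m → ℝ}
    (h1 : OnL i₀ (1 / 2 ^ h') (Fam.pt F) F.d A e n) (hs : SpreadI i₀ s (Fam.pt F) F.d A)
    (hpos : 0 < s) (hll : l ≤ l')
    (hρ : (2 * (1 / 2 ^ h) + 2 * (1 / 2 ^ h')) / s ≤ 1 / 2 ^ (l' + 2)) {ω ω' : F.Ω} (hω : A ω)
    (hω' : A ω') (hW : F.W ω = F.W ω') (hx : |F.x ω i₀ - F.x ω' i₀| ≤ 1 / 2 ^ r)
    (he : ∀ j, |e (Fam.pt F ω) j - e (Fam.pt F ω') j| ≤ 1 / 2 ^ (l + 1))
    (hn : ∀ j, j ≠ i₀ → |F.x ω j - F.x ω' j - e (Fam.pt F ω) j * (F.x ω i₀ - F.x ω' i₀)| ≤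
      1 / 2 ^ (r + l + 1)) (j : Fin m) :
    |e (Fam.pt F ω) j - e (Fam.pt F ω') j| ≤ 2 / 2 ^ l' := by
  obtain ⟨e', n', h2, h3⟩ := H
  have hnear : ∀ ω, A ω → ∀ j, |e' (Fam.pt F ω) j - e (Fam.pt F ω) j| ≤ 1 / 2 ^ (l' + 2) :=
    fun ω hω j => (h2.unique h1 hs hpos ω hω j).trans hρ
  have pl : (0 : ℝ) < 2 ^ l := by positivity
  have pl' : (0 : ℝ) < 2 ^ l' := by positivity
  have pr : (0 : ℝ) < 2 ^ r := by positivity
  have q1 : (1 : ℝ) / 2 ^ (l' + 2) ≤ 1 / 2 ^ (l + 2) :=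
    one_div_le_one_div_of_le (by positivity) (pow_le_pow_right₀ (by norm_num) (by omega))
  have q2 : (1 : ℝ) / 2 ^ (l + 2) = 1 / 2 ^ l / 4 := by rw [pow_add]; field_simp; norm_num
  have q3 : (1 : ℝ) / 2 ^ (l + 1) = 1 / 2 ^ l / 2 := by rw [pow_succ]; field_simp
  have q4 : (1 : ℝ) / 2 ^ (l' + 2) = 1 / 2 ^ l' / 4 := by rw [pow_add]; field_simp; norm_num
  have q5 : (1 : ℝ) / 2 ^ (r + l + 1) = 1 / 2 ^ (r + l) / 2 := by
    rw [pow_succ]; field_simp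
  have q6 : (1 : ℝ) / 2 ^ (r + l) = 1 / 2 ^ l * (1 / 2 ^ r) := by rw [pow_add]; field_simp
  have key := h3 ω ω' hω hω' hW hx ?_ ?_ j
  · have a1 := hnear ω hω j
    have a2 := hnear ω' hω' j
    rw [q4] at a1 a2
    have e1 : (2 : ℝ) / 2 ^ l' = 2 * (1 / 2 ^ l') := by ring
    have e2 : (0 : ℝ) < 1 / 2 ^ l' := by positivity
    rw [e1]
    rw [abs_le] at a1 a2 key ⊢
    constructor <;> linarith [a1.1, a1.2, a2.1, a2.2, key.1, key.2]
  · intro k
    have a1 := hnear ω hω k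
    have a2 := hnear ω' hω' k
    have a3 := he k
    rw [q3] at a3
    have a4 := q1.trans q2.le
    rw [abs_le] at a1 a2 a3 ⊢
    constructor <;> linarith [a1.1, a1.2, a2.1, a2.2, a3.1, a3.2]
  · intro k hk
    have a1 := hnear ω hω k
    have a3 := hn k hk
    rw [q5] at a3
    have a4 := (a1.trans q1).trans q2.le
    have e1 : F.x ω k - F.x ω' k - e' (Fam.pt F ω) k * (F.x ω i₀ - F.x ω' i₀) =
        (F.x ω k - F.x ω' k - e (Fam.pt F ω) k * (F.x ω i₀ - F.x ω' i₀)) -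
          (e' (Fam.pt F ω) k - e (Fam.pt F ω) k) * (F.x ω i₀ - F.x ω' i₀) := by ring
    rw [e1]
    have a5 : |(e' (Fam.pt F ω) k - e (Fam.pt F ω) k) * (F.x ω i₀ - F.x ω' i₀)| ≤
        1 / 2 ^ (r + l) / 4 := by
      rw [abs_mul]
      calc _ ≤ 1 / 2 ^ l / 4 * (1 / 2 ^ r) := mul_le_mul a4 hx (abs_nonneg _) (by positivity)
        _ = 1 / 2 ^ (r + l) / 4 := by rw [q6]; ring
    have a6 := abs_sub (F.x ω k - F.x ω' k - e (Fam.pt F ω) k * (F.x ω i₀ - F.x ω' i₀))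
      ((e' (Fam.pt F ω) k - e (Fam.pt F ω) k) * (F.x ω i₀ - F.x ω' i₀))
    have a7 : (0 : ℝ) < 1 / 2 ^ (r + l) := by positivity
    linarith

end Pool.K2S
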