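import Pool.Agent.H64.K2.FLT
import Pool.Agent.H13.K2S.OcFam

/-!
# Row FLATM of K2: the statement `FLTStmt`
-/

set_option autoImplicit false

namespace Pool.K2S

open Finset Real
open Pool.Agent.H49.Ent Pool.Agent.H32.Dense Pool.STK Pool.KA Pool.KSAT

variable {m J : ℕ}

namespace Flt

/-- The time inside the window. -/
theorem t_win (F : Fam m J) {g : ℕ} (hg : g ≤ J) (ω : F.Ω) :
    |F.t ω - (F.T1 g ω : ℝ) / 2 ^ g| ≤ 1 / 2 ^ g := by
  have e : (2 : ℝ) ^ J = 2 ^ (J - g) * 2 ^ g := by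
    rw [← pow_add]
    congr 1
    omega
  have p1 : (0 : ℝ) < 2 ^ (J - g) := by positivity
  have p2 : (0 : ℝ) < 2 ^ g := by positivity
  have h1 : ((F.T1 g ω : ℕ) : ℝ) * 2 ^ (J - g) ≤ F.T ω := by
    exact_mod_cast Nat.div_mul_le_self (F.T ω) (2 ^ (J - g))
  have h2 : (F.T ω : ℝ) ≤ ((F.T1 g ω : ℕ) : ℝ) * 2 ^ (J - g) + 2 ^ (J - g) := by
    have h3 := Nat.lt_div_mul_add (a := F.T ω) (b := 2 ^ (J - g)) (by positivity)
    have h4 : F.T ω ≤ F.T1 g ω * 2 ^ (J - g) + 2 ^ (J - g) := h3.le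
    exact_mod_cast h4
  have e2 : F.t ω - (F.T1 g ω : ℝ) / 2 ^ g =
      (F.T ω - (F.T1 g ω : ℝ) * 2 ^ (J - g)) / 2 ^ (J - g) / 2 ^ g := by
    unfold Fam.t
    rw [e]
    field_simp
  rw [e2, abs_div, abs_of_pos p2, abs_div, abs_of_pos p1]
  refine div_le_div_of_nonneg_right ?_ p2.le
  rw [div_le_one p1, abs_le]
  constructor <;> linarith

theorem pco_sub (lam : ℕ) (i0 : Fin m) (z x y : Fin m → ℝ) (s : ℝ) (i : Fin m) :
    pco lam i0 z (fun j => x j + s * y j) i = pco lam i0 z x i + s * pco lam i0 z y i := by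
  unfold pco
  split_ifs
  · rfl
  · ring

/-- Two samples with the same label and the same exact time: the positions in plank coordinates
are close. -/
theorem glb_near (F : Fam m J) {g a c lam : ℕ} (hg : g ≤ J) {i0 : Fin m}
    {z : F.Ω → Fin m → ℝ} {ω ω' : F.Ω} (h : F.glb g a c lam i0 z ω = F.glb g a c lam i0 z ω')
    (hT : F.T ω = F.T ω') (i : Fin m) :
    |pco lam i0 (z ω) (F.x ω) i - pco lam i0 (z ω) (F.x ω') i| ≤ 1 / 2 ^ a + 1 / 2 ^ (g + c) := by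
  have h1 := Prod.ext_iff.mp h
  have h2 := Prod.ext_iff.mp h1.1
  have h3 := Prod.ext_iff.mp h2.1
  have h4 := Prod.ext_iff.mp h2.2
  have hz : z ω = z ω' := h3.2
  have hT1 : F.T1 g ω = F.T1 g ω' := h3.1
  have hx : fl a (pco lam i0 (z ω) (F.x1 g ω)) i = fl a (pco lam i0 (z ω') (F.x1 g ω')) i :=
    congrFun h4.1 i
  have hd : fl c (pco lam i0 (z ω) (F.d ω)) i = fl c (pco lam i0 (z ω') (F.d ω')) i :=
    congrFun h4.2 i
  rw [← hz] at hx hd
  have k1 := Plk.abs_sub_lt_of_floor (hx : ⌊_⌋ = ⌊_⌋)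
  have k2 := Plk.abs_sub_lt_of_floor (hd : ⌊_⌋ = ⌊_⌋)
  have pa : (0 : ℝ) < 2 ^ a := by positivity
  have pc : (0 : ℝ) < 2 ^ c := by positivity
  rw [← mul_sub, abs_mul, abs_of_pos pa, ← le_div_iff₀' pa] at k1
  rw [← mul_sub, abs_mul, abs_of_pos pc, ← le_div_iff₀' pc] at k2
  obtain ⟨s, hs⟩ : ∃ s, s = F.t ω - (F.T1 g ω : ℝ) / 2 ^ g := ⟨_, rfl⟩
  have hs' : s = F.t ω' - (F.T1 g ω' : ℝ) / 2 ^ g := by
    rw [hs, hT1]
    unfold Fam.t
    rw [hT]
  have hsb : |s| ≤ 1 / 2 ^ g := by rw [hs]; exact t_win F hg ω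
  have e1 : F.x ω = fun j => F.x1 g ω j + s * F.d ω j := by
    funext j
    rw [hs]
    unfold Fam.x Fam.x1
    ring
  have e2 : F.x ω' = fun j => F.x1 g ω' j + s * F.d ω' j := by
    funext j
    rw [hs']
    unfold Fam.x Fam.x1
    ring
  rw [e1, e2, pco_sub, pco_sub]
  have e3 : pco lam i0 (z ω) (F.x1 g ω) i + s * pco lam i0 (z ω) (F.d ω) i -
      (pco lam i0 (z ω) (F.x1 g ω') i + s * pco lam i0 (z ω) (F.d ω') i) =
      (pco lam i0 (z ω) (F.x1 g ω) i - pco lam i0 (z ω) (F.x1 g ω') i) +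
        s * (pco lam i0 (z ω) (F.d ω) i - pco lam i0 (z ω) (F.d ω') i) := by ring
  rw [e3]
  refine (abs_add_le _ _).trans (add_le_add k1 ?_)
  rw [abs_mul]
  calc _ ≤ 1 / 2 ^ g * (1 / 2 ^ c) := mul_le_mul hsb k2 (abs_nonneg _) (by positivity)
    _ = 1 / 2 ^ (g + c) := by rw [pow_add]; field_simp

/-- The label of the context determines the cell of the position. -/
theorem qlb_near (F : Fam m J) {w q l : ℕ} (hw : w ≤ J) {i₀ : Fin m} {z : F.Ω → Fin m → ℝ}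
    {ω ω' : F.Ω} (h : F.qlb w q l i₀ z ω = F.qlb w q l i₀ z ω') (hT : F.T ω = F.T ω') :
    |F.x ω i₀ - F.x ω' i₀| ≤ 2 / 2 ^ (q + w) ∧ ∀ j, j ≠ i₀ →
      |F.x ω j - F.x ω' j - z ω j * (F.x ω i₀ - F.x ω' i₀)| ≤ 2 / 2 ^ (q + w + l) := by
  have e : (1 : ℝ) / 2 ^ (q + w) + 1 / 2 ^ (w + q) = 2 / 2 ^ (q + w) := by
    rw [Nat.add_comm w q]
    ring
  constructor
  · have h1 := glb_near F hw h hT i₀
    rw [e] at h1
    unfold pco at h1
    rw [if_pos rfl, if_pos rfl] at h1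
    exact h1
  · intro j hj
    have h1 := glb_near F hw h hT j
    rw [e] at h1
    unfold pco at h1
    rw [if_neg hj, if_neg hj] at h1
    have e2 : 2 ^ l * (F.x ω j - z ω j * F.x ω i₀) - 2 ^ l * (F.x ω' j - z ω j * F.x ω' i₀) =
        2 ^ l * (F.x ω j - F.x ω' j - z ω j * (F.x ω i₀ - F.x ω' i₀)) := by ring
    have pl : (0 : ℝ) < 2 ^ l := by positivity
    rw [e2, abs_mul, abs_of_pos pl, ← le_div_iff₀' pl] at h1
    refine h1.trans (le_of_eq ?_)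
    rw [pow_add _ (q + w)]
    field_simp

/-- The rows of the base position between the window and the finer cell. -/
theorem CH_mid {F : Fam m J} {q : F.Ω → ℝ} (hq : IsLaw q) {T : Type} {b : F.Ω → T} {i₀ : Fin m}
    {v r : ℕ} (hvr : v ≤ r)
    (hb : ∀ ω ω', 0 < q ω → 0 < q ω' → b ω = b ω' → |F.x ω i₀ - F.x ω' i₀| ≤ 2 / 2 ^ v) :
    CH q (fun ω => ⌊(2 : ℝ) ^ r * F.x ω i₀⌋) b ≤ ((r : ℝ) - v) * Real.log 2 + Real.log 7 := by
  obtain ⟨k, rfl⟩ := Nat.exists_eq_add_of_le hvr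
  have key := CH_le_int hq.nonneg hq.sum_one (fun ω => ⌊(2 : ℝ) ^ (v + k) * F.x ω i₀⌋) b
    (fun _ => 2 * 2 ^ k + 1) ?_
  · rw [Ex_const hq.sum_one] at key
    refine key.trans ?_
    have h1 : (1 : ℝ) ≤ 2 ^ k := one_le_pow₀ (by norm_num)
    have h2 : Real.log (2 * (2 * 2 ^ k + 1) + 1) ≤ Real.log (2 ^ k * 7) :=
      Real.log_le_log (by positivity) (by linarith)
    rw [Real.log_mul (by positivity) (by norm_num), Real.log_pow] at h2
    push_cast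
    linarith
  · intro ω ω' hω hω' h
    refine Plk.floor_sub_lt ?_
    have p : (0 : ℝ) < 2 ^ v := by positivity
    have h1 := hb ω ω' hω hω' h
    rw [le_div_iff₀ p] at h1
    rw [← mul_sub, abs_mul, abs_of_pos (by positivity), pow_add]
    calc (2 : ℝ) ^ v * 2 ^ k * |F.x ω i₀ - F.x ω' i₀| =
          2 ^ k * (|F.x ω i₀ - F.x ω' i₀| * 2 ^ v) := by ring
      _ ≤ 2 ^ k * 2 := mul_le_mul_of_nonneg_left h1 (by positivity)
      _ = _ := by ring

theorem flt_thm : FLTStmt := by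
  classical
  refine ⟨Real.log 7 + 7 * Real.log 19 + 2 * Real.log 11 + 2 * Real.log 11 + 7 * Real.log 27,
    ?_⟩
  intro J F i₀ A f n w q l v l' H L z z' e η hlaw hFrm hWin hWin' hwv hvq hP1 hPJ hlL hLl' hl'H
    hvis hrows
  obtain ⟨Q, hQ⟩ : ∃ Q, Q = Pool.Agent.H49.Ent.cond F.p A True := ⟨_, rfl⟩
  rw [← hQ] at hlaw hrows ⊢
  have h0 := hlaw.nonneg
  have hQA : ∀ ω, 0 < Q ω → A ω := fun ω hω => by
    rw [hQ] at hω
    have := ((cond_pos_iff F.isLaw.nonneg A True ω).1 hω).2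
    simpa using this
  have hj1 : ∀ j : Fin 2, j ≠ i₀ → j = 1 - i₀ := by
    intro j hj
    fin_cases i₀ <;> fin_cases j <;> simp at hj ⊢
  have hwJ : w ≤ J := by omega
  have hvJ : v ≤ J := by omega
  -- the frame without the chart component
  obtain ⟨g, hg⟩ : ∃ g : F.Ω → Fin 2 → ℝ, g = fun ω j => if j = i₀ then 0 else f (Fam.pt F ω) j :=
    ⟨_, rfl⟩
  have g0 : ∀ ω, g ω i₀ = 0 := fun ω => by rw [hg]; simp
  have g1 : ∀ ω j, j ≠ i₀ → g ω j = f (Fam.pt F ω) j := fun ω j hj => by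
    rw [hg]; simp [hj]
  have hgb : ∀ ω, 0 < Q ω → ∀ j, |g ω j| ≤ 2 := by
    intro ω hω j
    by_cases hj : j = i₀
    · rw [hj, g0, abs_zero]; norm_num
    · rw [g1 ω j hj]; exact hFrm.bd ω (hQA ω hω) j
  have pL : (0 : ℝ) < 2 ^ L := by positivity
  have pl' : (0 : ℝ) < 2 ^ l' := by positivity
  -- the frame is visible from the cube
  have hPU : CH Q (fun ω => fl L (g ω)) (fun ω => (F.X (q + w + l) ω, F.W ω)) ≤
      (2 : ℕ) * Real.log 11 := by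
    have key := Plk.CH_vec_const hlaw (fun ω => fl L (g ω))
      (fun ω => (F.X (q + w + l) ω, F.W ω)) (c := 5) ?_
    · norm_num at key ⊢
      exact key
    · intro ω ω' hω hω' h j
      by_cases hj : j = i₀
      · have e1 : fl L (g ω) j = fl L (g ω') j := by
          show ⌊(2 : ℝ) ^ L * g ω j⌋ = ⌊(2 : ℝ) ^ L * g ω' j⌋
          rw [hj, g0, g0]
        rw [e1]
        simp
      · refine (Plk.floor_sub_lt (c := 4) ?_).trans (by norm_num)
        have a1 := hvis ω (hQA ω hω)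
        have a2 := hvis ω' (hQA ω' hω')
        rw [← h] at a2
        rw [← mul_sub, abs_mul, abs_of_pos pL, g1 ω j hj, g1 ω' j hj, hj1 j hj]
        rw [le_div_iff₀ pL] at a1 a2
        have e1 : f (Fam.pt F ω) (1 - i₀) - f (Fam.pt F ω') (1 - i₀) =
            (f (Fam.pt F ω) (1 - i₀) - e (F.X (q + w + l) ω, F.W ω)) -
              (f (Fam.pt F ω') (1 - i₀) - e (F.X (q + w + l) ω, F.W ω)) := by ring
        rw [e1]
        have a3 := abs_sub (f (Fam.pt F ω) (1 - i₀) - e (F.X (q + w + l) ω, F.W ω))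
          (f (Fam.pt F ω') (1 - i₀) - e (F.X (q + w + l) ω, F.W ω))
        calc _ ≤ 2 ^ L * (|f (Fam.pt F ω) (1 - i₀) - e (F.X (q + w + l) ω, F.W ω)| +
              |f (Fam.pt F ω') (1 - i₀) - e (F.X (q + w + l) ω, F.W ω)|) :=
              mul_le_mul_of_nonneg_left a3 pL.le
          _ ≤ 4 := by linarith
  -- the label of the short window, with the base position
  obtain ⟨b', hb'⟩ : ∃ b', b' = fun ω => (F.qlb v 0 l' i₀ z' ω, F.T ω) := ⟨_, rfl⟩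
  obtain ⟨R, hR⟩ : ∃ R : F.Ω → ℤ, R = fun ω => ⌊(2 : ℝ) ^ (q + w + l) * F.x ω i₀⌋ := ⟨_, rfl⟩
  obtain ⟨Xr, hXr⟩ : ∃ Xr : F.Ω → ℤ, Xr = fun ω => ⌊(2 : ℝ) ^ (q + w) * F.x ω i₀⌋ := ⟨_, rfl⟩
  rw [← hb', ← hR] at hrows
  have hnear : ∀ ω ω', b' ω = b' ω' → |F.x ω i₀ - F.x ω' i₀| ≤ 2 / 2 ^ v ∧ ∀ j, j ≠ i₀ →
      |F.x ω j - F.x ω' j - z' ω j * (F.x ω i₀ - F.x ω' i₀)| ≤ 2 / 2 ^ (v + l') := by
    intro ω ω' h
    rw [hb'] at h
    have h1 := Prod.ext_iff.mp h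
    have h2 := qlb_near F hvJ h1.1 h1.2
    rwa [Nat.zero_add] at h2
  have hmid : CH Q Xr b' ≤ (((q + w : ℕ) : ℝ) - v) * Real.log 2 + Real.log 7 := by
    rw [hXr]
    exact CH_mid hlaw hvq fun ω ω' _ _ h => (hnear ω ω' h).1
  have hrow : ((((q + w + l : ℕ) : ℝ)) - ((q + w : ℕ) : ℝ)) * Real.log 2 - (η + Real.log 7) ≤
      CH Q R (fun ω => (Xr ω, b' ω)) := by
    have c1 := CH_chain h0 R Xr b'
    have c2 : CH Q R b' ≤ CH Q (fun ω => (R ω, Xr ω)) b' :=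
      CH_mono_left h0 fun _ _ _ _ h => (Prod.ext_iff.mp (Prod.ext_iff.mp h).1).1
    linarith
  have hz'near : ∀ ω ω', 0 < Q ω → 0 < Q ω' → z' ω = z' ω' → ∀ j,
      |g ω j - g ω' j| ≤ 4 / 2 ^ l' := by
    intro ω ω' hω hω' h j
    by_cases hj : j = i₀
    · rw [hj, g0, g0, sub_self, abs_zero]; positivity
    · rw [g1 ω j hj, g1 ω' j hj]
      have a1 := hWin'.cl ω (hQA ω hω) j hj
      have a2 := hWin'.cl ω' (hQA ω' hω') j hj
      rw [← h] at a2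
      have e1 : (4 : ℝ) / 2 ^ l' = 2 / 2 ^ l' + 2 / 2 ^ l' := by ring
      rw [e1]
      rw [abs_le] at a1 a2 ⊢
      constructor <;> linarith [a1.1, a1.2, a2.1, a2.2]
  have hlab : CH Q (fun ω => (fl L (g ω), blb F i₀ (q + w) l g ω)) (fun ω => (Xr ω, b' ω)) ≤
      (1 + 3 * (2 : ℕ)) * Real.log (4 * 4 + 3) := by
    have key : ∀ ω ω', (Xr ω, b' ω) = (Xr ω', b' ω') → Xr ω = Xr ω' ∧ b' ω = b' ω' ∧
        z' ω = z' ω' ∧ F.T ω = F.T ω' ∧ F.Z ω = F.Z ω' := by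
      intro ω ω' h
      have h1 := Prod.ext_iff.mp h
      have h2 : b' ω = b' ω' := h1.2
      refine ⟨h1.1, h2, ?_⟩
      rw [hb'] at h2
      have h3 := Prod.ext_iff.mp h2
      have h4 := Prod.ext_iff.mp h3.1
      exact ⟨(Prod.ext_iff.mp (Prod.ext_iff.mp h4.1).1).2, h3.2, h4.2⟩
    have hxr : ∀ ω ω', Xr ω = Xr ω' → |F.x ω i₀ - F.x ω' i₀| ≤ 1 / 2 ^ (q + w) := by
      intro ω ω' h
      rw [hXr] at h
      have h1 := Plk.abs_sub_lt_of_floor (h : ⌊_⌋ = ⌊_⌋)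
      have p : (0 : ℝ) < 2 ^ (q + w) := by positivity
      rw [← mul_sub, abs_mul, abs_of_pos p, ← le_div_iff₀' p] at h1
      exact h1
    refine CH_label_le hlaw hlL (by norm_num) ?_ ?_ ?_ ?_
    · intro ω ω' _ _ h
      obtain ⟨-, -, -, h4, h5⟩ := key ω ω' h
      exact Prod.ext h4 h5
    · intro ω ω' _ _ h
      obtain ⟨h1, -, -, -, -⟩ := key ω ω' h
      refine (hxr ω ω' h1).trans ?_
      exact div_le_div_of_nonneg_right (by norm_num) (by positivity)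
    · intro ω ω' hω hω' h j
      obtain ⟨-, -, h3, -, -⟩ := key ω ω' h
      refine (hz'near ω ω' hω hω' h3 j).trans ?_
      exact div_le_div_of_nonneg_left (by norm_num) pL (pow_le_pow_right₀ (by norm_num) hLl')
    · intro ω ω' hω hω' h j hj
      obtain ⟨h1, h2, h3, -, -⟩ := key ω ω' h
      have a1 := (hnear ω ω' h2).2 j hj
      have a2 := hxr ω ω' h1
      have a3 := hWin'.cl ω (hQA ω hω) j hj
      rw [← g1 ω j hj] at a3
      have e1 : F.x ω j - F.x ω' j - g ω j * (F.x ω i₀ - F.x ω' i₀) =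
          (F.x ω j - F.x ω' j - z' ω j * (F.x ω i₀ - F.x ω' i₀)) -
            (g ω j - z' ω j) * (F.x ω i₀ - F.x ω' i₀) := by ring
      rw [e1]
      have b1 : (2 : ℝ) / 2 ^ (v + l') ≤ 2 / 2 ^ (q + w + l) :=
        div_le_div_of_nonneg_left (by norm_num) (by positivity)
          (pow_le_pow_right₀ (by norm_num) hP1)
      have b2 : |(g ω j - z' ω j) * (F.x ω i₀ - F.x ω' i₀)| ≤ 2 / 2 ^ (q + w + l) := by
        rw [abs_mul]
        have b3 : (2 : ℝ) / 2 ^ l' ≤ 2 / 2 ^ l :=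
          div_le_div_of_nonneg_left (by norm_num) (by positivity)
            (pow_le_pow_right₀ (by norm_num) (hlL.trans hLl'))
        calc _ ≤ 2 / 2 ^ l * (1 / 2 ^ (q + w)) :=
              mul_le_mul (a3.trans b3) a2 (abs_nonneg _) (by positivity)
          _ = 2 / 2 ^ (q + w + l) := by rw [pow_add _ (q + w)]; field_simp
      have b4 := abs_sub (F.x ω j - F.x ω' j - z' ω j * (F.x ω i₀ - F.x ω' i₀))
        ((g ω j - z' ω j) * (F.x ω i₀ - F.x ω' i₀))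
      have b5 : (4 : ℝ) / 2 ^ (q + w + l) = 2 / 2 ^ (q + w + l) + 2 / 2 ^ (q + w + l) := by ring
      rw [b5]
      linarith
  have hR' := rows_of_label hlaw hrow hlab
  rw [hR] at hR'
  have hflat := CH_flat hlaw (i₀ := i₀) (r := q + w) (l := l) (l' := L) (P' := q + w + l)
    (by omega) le_rfl hgb hPU hR'
  -- the label of the context determines the cell
  have hctx : CH Q (fun ω => (fl l (g ω), blb F i₀ (q + w) l g ω))
      (fun ω => (F.qlb w q l i₀ z ω, F.T ω)) ≤ (1 + 3 * (2 : ℕ)) * Real.log (4 * 6 + 3) := by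
    have key : ∀ ω ω', (F.qlb w q l i₀ z ω, F.T ω) = (F.qlb w q l i₀ z ω', F.T ω') →
        F.qlb w q l i₀ z ω = F.qlb w q l i₀ z ω' ∧ z ω = z ω' ∧ F.T ω = F.T ω' ∧
          F.Z ω = F.Z ω' := by
      intro ω ω' h
      have h3 := Prod.ext_iff.mp h
      have h4 := Prod.ext_iff.mp h3.1
      exact ⟨h3.1, (Prod.ext_iff.mp (Prod.ext_iff.mp h4.1).1).2, h3.2, h4.2⟩
    have hznear : ∀ ω ω', 0 < Q ω → 0 < Q ω' → z ω = z ω' → ∀ j,
        |g ω j - g ω' j| ≤ 4 / 2 ^ l := by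
      intro ω ω' hω hω' h j
      by_cases hj : j = i₀
      · rw [hj, g0, g0, sub_self, abs_zero]; positivity
      · rw [g1 ω j hj, g1 ω' j hj]
        have a1 := hWin.cl ω (hQA ω hω) j hj
        have a2 := hWin.cl ω' (hQA ω' hω') j hj
        rw [← h] at a2
        have e1 : (4 : ℝ) / 2 ^ l = 2 / 2 ^ l + 2 / 2 ^ l := by ring
        rw [e1]
        rw [abs_le] at a1 a2 ⊢
        constructor <;> linarith [a1.1, a1.2, a2.1, a2.2]
    refine CH_label_le hlaw le_rfl (by norm_num) ?_ ?_ ?_ ?_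
    · intro ω ω' _ _ h
      obtain ⟨-, -, h4, h5⟩ := key ω ω' h
      exact Prod.ext h4 h5
    · intro ω ω' _ _ h
      obtain ⟨h1, -, h4, -⟩ := key ω ω' h
      refine (qlb_near F hwJ h1 h4).1.trans ?_
      exact div_le_div_of_nonneg_right (by norm_num) (by positivity)
    · intro ω ω' hω hω' h j
      obtain ⟨-, h2, -, -⟩ := key ω ω' h
      refine (hznear ω ω' hω hω' h2 j).trans ?_
      exact div_le_div_of_nonneg_right (by norm_num) (by positivity)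
    · intro ω ω' hω hω' h j hj
      obtain ⟨h1, h2, h4, -⟩ := key ω ω' h
      obtain ⟨a1, a2⟩ := qlb_near F hwJ h1 h4
      have a3 := hWin.cl ω (hQA ω hω) j hj
      rw [← g1 ω j hj] at a3
      have e1 : F.x ω j - F.x ω' j - g ω j * (F.x ω i₀ - F.x ω' i₀) =
          (F.x ω j - F.x ω' j - z ω j * (F.x ω i₀ - F.x ω' i₀)) -
            (g ω j - z ω j) * (F.x ω i₀ - F.x ω' i₀) := by ring
      rw [e1]
      have b2 : |(g ω j - z ω j) * (F.x ω i₀ - F.x ω' i₀)| ≤ 4 / 2 ^ (q + w + l) := by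
        rw [abs_mul]
        calc _ ≤ 2 / 2 ^ l * (2 / 2 ^ (q + w)) :=
              mul_le_mul a3 a1 (abs_nonneg _) (by positivity)
          _ = 4 / 2 ^ (q + w + l) := by rw [pow_add _ (q + w)]; field_simp; norm_num
      have b4 := abs_sub (F.x ω j - F.x ω' j - z ω j * (F.x ω i₀ - F.x ω' i₀))
        ((g ω j - z ω j) * (F.x ω i₀ - F.x ω' i₀))
      have a4 := a2 j hj
      have b5 : (6 : ℝ) / 2 ^ (q + w + l) = 2 / 2 ^ (q + w + l) + 4 / 2 ^ (q + w + l) := by ring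
      rw [b5]
      linarith
  -- conclusion
  obtain ⟨B, hB⟩ : ∃ B, B = blb F i₀ (q + w) l g := ⟨_, rfl⟩
  obtain ⟨b, hb⟩ : ∃ b, b = fun ω => (F.qlb w q l i₀ z ω, F.T ω) := ⟨_, rfl⟩
  rw [← hB, ← hb] at hctx
  rw [← hB] at hflat
  rw [← hb]
  have d1 : CH Q (fun ω => ⌊(2 : ℝ) ^ L * f (Fam.pt F ω) (1 - i₀)⌋) b ≤
      CH Q (fun ω => fl L (g ω)) b := by
    refine CH_mono_left h0 fun ω ω' _ _ h => ?_
    have h1 := congrFun (Prod.ext_iff.mp h).1 (1 - i₀)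
    have hne : 1 - i₀ ≠ i₀ := by
      fin_cases i₀ <;> simp
    have e1 : ⌊(2 : ℝ) ^ L * g ω (1 - i₀)⌋ = ⌊(2 : ℝ) ^ L * g ω' (1 - i₀)⌋ := h1
    rw [g1 ω _ hne, g1 ω' _ hne] at e1
    exact e1
  have d2 := CH_chain h0 (fun ω => fl L (g ω)) B b
  have d3 : CH Q (fun ω => fl L (g ω)) b ≤ CH Q (fun ω => (fl L (g ω), B ω)) b :=
    CH_mono_left h0 fun _ _ _ _ h => (Prod.ext_iff.mp (Prod.ext_iff.mp h).1).1
  have d4 : CH Q (fun ω => fl L (g ω)) (fun ω => (B ω, b ω)) ≤ CH Q (fun ω => fl L (g ω)) B :=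
    CH_mono_cond h0 fun _ _ _ _ h => (Prod.ext_iff.mp h).1
  have d5 : CH Q B b ≤ CH Q (fun ω => (fl l (g ω), B ω)) b :=
    CH_mono_left h0 fun _ _ _ _ h => (Prod.ext_iff.mp (Prod.ext_iff.mp h).1).2
  have n1 : (1 + 3 * ((2 : ℕ) : ℝ)) = 7 := by norm_num
  have n2 : (4 * 4 + 3 : ℝ) = 19 := by norm_num
  have n3 : (4 * 6 + 3 : ℝ) = 27 := by norm_num
  rw [n1, n3] at hctx
  rw [n1, n2] at hflat
  push_cast at hflat
  linarith

end Flt

end Pool.K2S
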