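import Pool.Agent.H13.K2S.OcAsm
import Pool.Agent.H35.K2S.WSA
import Pool.Agent.H5.K2.FLC
import Pool.Agent.H45.K2.PLS
import Pool.Agent.H64.K2.FLTM

/-!
# Row FRM: frames, windows and slopes on one event
-/

set_option autoImplicit false

namespace Pool.K2S

open Finset Real
open Pool.Agent.H49.Ent Pool.Agent.H32.Dense Pool.STK Pool.KA Pool.KSAT

namespace Frmm

theorem frm_sub {J : ℕ} {F : Fam 2 J} {i₀ : Fin 2} {A B : F.Ω → Prop} {H : ℕ}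
    {f n : (Fin 2 → ℤ) × (ℕ × F.ζ) → Fin 2 → ℝ} (h : Frm F i₀ A H f n) (hB : Sub B A) :
    Frm F i₀ B H f n :=
  ⟨h.on.sub hB, fun ω hω => h.bd ω (hB ω hω)⟩

theorem win_sub {J : ℕ} {F : Fam 2 J} {i₀ : Fin 2} {A B : F.Ω → Prop} {w l : ℕ}
    {f : (Fin 2 → ℤ) × (ℕ × F.ζ) → Fin 2 → ℝ} {z : F.Ω → Fin 2 → ℝ}
    (h : Win F i₀ A f w l z) (hB : Sub B A) : Win F i₀ B f w l z :=
  ⟨h.fn, h.gr, h.z0, fun ω hω => h.cl ω (hB ω hω)⟩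

theorem slp_sub {J : ℕ} {F : Fam 2 J} {i₀ : Fin 2} {A B : F.Ω → Prop} {w q l L : ℕ}
    {f : (Fin 2 → ℤ) × (ℕ × F.ζ) → Fin 2 → ℝ} {z : F.Ω → Fin 2 → ℝ} {φ : F.Ω → ℝ}
    (h : Slp F i₀ A f w q l L z φ) (hB : Sub B A) : Slp F i₀ B f w q l L z φ :=
  ⟨h.1, fun ω hω => h.2 ω (hB ω hω)⟩

theorem frs_sub {J : ℕ} {F : Fam 2 J} {i₀ : Fin 2} {A B : F.Ω → Prop} {u H wa wb q₀ : ℕ}
    {lam Lp : ℕ → ℕ} {f n : (Fin 2 → ℤ) × (ℕ × F.ζ) → Fin 2 → ℝ} {z : ℕ → F.Ω → Fin 2 → ℝ}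
    {φ : ℕ → ℕ → F.Ω → ℝ} (h : Frs F i₀ A u H wa wb q₀ lam Lp f n z φ) (hB : Sub B A) :
    Frs F i₀ B u H wa wb q₀ lam Lp f n z φ :=
  ⟨frm_sub h.frm hB, fun w h1 h2 => win_sub (h.win w h1 h2) hB,
    fun w q h1 h2 h3 => slp_sub (h.slp w q h1 h2 h3) hB, fun w q h1 h2 h3 => by
      obtain ⟨e, he⟩ := h.vis w q h1 h2 h3
      exact ⟨e, fun ω hω => he ω (hB ω hω)⟩⟩

/-- Frames, windows and visibility on one event. -/
structure Fr1 {J : ℕ} (F : Fam 2 J) (i₀ : Fin 2) (A : F.Ω → Prop) (u H s wa wb pb : ℕ)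
    (lam : ℕ → ℕ) (f n : (Fin 2 → ℤ) × (ℕ × F.ζ) → Fin 2 → ℝ) (z : ℕ → F.Ω → Fin 2 → ℝ) :
    Prop where
  frm : Frm F i₀ A H f n
  win : ∀ w, wa ≤ w → w ≤ wb → Win F i₀ A f (w * u) ((lam w - 1) * u) (z w)
  vis : ∀ v, wa ≤ v → v ≤ wb → v + lam v + s ≤ pb → ∃ e : (Fin 2 → ℤ) × (ℕ × F.ζ) → ℝ,
    ∀ ω, A ω → |f (Fam.pt F ω) (1 - i₀) - e (F.X ((v + lam v + s) * u) ω, F.W ω)| ≤
      2 / 2 ^ ((lam v - 1) * u)

theorem Fr1.sub {J : ℕ} {F : Fam 2 J} {i₀ : Fin 2} {A B : F.Ω → Prop} {u H s wa wb pb : ℕ}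
    {lam : ℕ → ℕ} {f n : (Fin 2 → ℤ) × (ℕ × F.ζ) → Fin 2 → ℝ} {z : ℕ → F.Ω → Fin 2 → ℝ}
    (h : Fr1 F i₀ A u H s wa wb pb lam f n z) (hB : Sub B A) :
    Fr1 F i₀ B u H s wa wb pb lam f n z :=
  ⟨frm_sub h.frm hB, fun w h1 h2 => win_sub (h.win w h1 h2) hB, fun v h1 h2 h3 => by
      obtain ⟨e, he⟩ := h.vis v h1 h2 h3
      exact ⟨e, fun ω hω => he ω (hB ω hω)⟩⟩

/-- The cell of the position at the exact point. -/
def psi {J : ℕ} (F : Fam 2 J) (r : ℕ) (y : (Fin 2 → ℤ) × (ℕ × F.ζ)) :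
    (Fin 2 → ℤ) × (ℕ × F.ζ) := (fun i => y.1 i / 2 ^ (J - r), y.2)

theorem psi_pt {J : ℕ} (F : Fam 2 J) {r : ℕ} (hr : r ≤ J) (ω : F.Ω) :
    psi F r (Fam.pt F ω) = (F.X r ω, F.W ω) := by
  unfold psi Fam.pt
  refine Prod.ext ?_ rfl
  funext i
  have h1 := X_div F (g := J) (a := J - r) (by omega) ω i
  have h2 : J - (J - r) = r := by omega
  rw [h2] at h1
  exact h1.symm

theorem spreadI_mono {J : ℕ} {F : Fam 2 J} {i₀ : Fin 2} {s s' : ℝ} (h : s' ≤ s)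
    {A : F.Ω → Prop} (hs : SpreadI i₀ s (Fam.pt F) F.d A) :
    SpreadI i₀ s' (Fam.pt F) F.d A := by
  intro ω hω
  obtain ⟨ω', ω'', h1, h2, h3, h4, h5⟩ := hs ω hω
  exact ⟨ω', ω'', h1, h2, h3, h4, h.trans_lt h5⟩

/-- Rounding to the grid. -/
theorem round_near (l : ℕ) (y : ℝ) : |y - (⌊(2 : ℝ) ^ l * y⌋ : ℝ) / 2 ^ l| ≤ 1 / 2 ^ l := by
  have h1 := Int.floor_le ((2 : ℝ) ^ l * y)
  have h2 := Int.lt_floor_add_one ((2 : ℝ) ^ l * y)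
  have h3 : (0 : ℝ) < 2 ^ l := by positivity
  have h4 : y - (⌊(2 : ℝ) ^ l * y⌋ : ℝ) / 2 ^ l = (2 ^ l * y - ⌊(2 : ℝ) ^ l * y⌋) / 2 ^ l := by
    field_simp
  rw [h4, abs_div, abs_of_pos h3]
  refine div_le_div_of_nonneg_right ?_ h3.le
  rw [abs_le]
  constructor <;> linarith

/-- The frames on an event with spread fans. -/
theorem fr1_spread {J : ℕ} {F : Fam 2 J} {i₀ : Fin 2} {A : F.Ω → Prop}
    {u x h₀ h K s wa wb pb : ℕ} {lam : ℕ → ℕ}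
    (hSp : Spread (1 / 2 ^ (x + 1)) (Fam.pt F) F.d A) (hLb : Lb F i₀ h₀ A)
    (hh₀ : x + 4 ≤ h₀) (hLn : Ln F i₀ h A) (hh : x + 4 ≤ h) (hK : K * u ≤ h) (hxu : x + 5 ≤ u)
    (hlam : ∀ w, wa ≤ w → w ≤ wb → 1 ≤ lam w ∧ lam w ≤ K) (hpb : pb * u ≤ J)
    (hCn : ∀ w, wa ≤ w → w ≤ wb → Cn F i₀ (lam w * u) (w * u) A)
    (hcel : ∀ v, wa ≤ v → v ≤ wb → v + lam v + s ≤ pb →
      LineU i₀ (1 / 2 ^ (lam v * u)) (cel F ((v + lam v + s) * u)) F.d A) :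
    ∃ (f n : (Fin 2 → ℤ) × (ℕ × F.ζ) → Fin 2 → ℝ) (z : ℕ → F.Ω → Fin 2 → ℝ),
      Fr1 F i₀ A u (K * u) s wa wb pb lam f n z := by
  classical
  obtain ⟨e₀, n₀, hfr⟩ := hLb
  obtain ⟨f, n, hon⟩ := hLn
  -- spread in the chart coordinate
  have hmono : ∀ a b : ℕ, a ≤ b → (1 : ℝ) / 2 ^ b ≤ 1 / 2 ^ a := fun a b hab =>
    one_div_le_one_div_of_le (by positivity) (pow_le_pow_right₀ (by norm_num) hab)
  have e4 : (1 : ℝ) / 2 ^ (x + 1) = 8 * (1 / 2 ^ (x + 4)) := by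
    rw [pow_add, pow_add]
    field_simp
    norm_num
  have e2 : (1 : ℝ) / 2 ^ (x + 2) = 4 * (1 / 2 ^ (x + 4)) := by
    rw [pow_add, pow_add]
    field_simp
    norm_num
  have p4 : (0 : ℝ) < 1 / 2 ^ (x + 4) := by positivity
  have hSI : SpreadI i₀ (1 / 2 ^ (x + 2)) (Fam.pt F) F.d A := by
    refine spreadI_mono ?_ (hfr.spreadI hSp)
    have h1 := hmono (x + 4) h₀ hh₀
    rw [e4, e2]
    linarith
  have hpos : (0 : ℝ) < 1 / 2 ^ (x + 2) := by positivity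
  have hbd : ∀ ω, A ω → ∀ j, |f (Fam.pt F ω) j| ≤ 2 := by
    intro ω hω j
    refine OnL.bound hfr hon hSI hpos ?_ ω hω j
    have h1 := hmono (x + 4) h₀ hh₀
    have h2 := hmono (x + 4) h hh
    rw [e2]
    linarith
  have hpow : ∀ a : ℕ, 1 ≤ a → (1 + 4 * 2 ^ (x + 2) : ℝ) * (1 / 2 ^ (a * u)) ≤
      1 / 2 ^ ((a - 1) * u) := by
    intro a ha
    have h1 : a * u = (a - 1) * u + u := by
      obtain ⟨b, rfl⟩ := Nat.exists_eq_add_of_le ha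
      rw [Nat.add_sub_cancel_left]
      ring
    have h2 : (1 : ℝ) / 2 ^ ((a - 1) * u) = 2 ^ u * (1 / 2 ^ (a * u)) := by
      rw [h1, pow_add]
      field_simp
    rw [h2]
    refine mul_le_mul_of_nonneg_right ?_ (by positivity)
    have h3 : (2 : ℝ) ^ (x + 5) ≤ 2 ^ u := pow_le_pow_right₀ (by norm_num) hxu
    have h4 : (1 : ℝ) ≤ 2 ^ x := one_le_pow₀ (by norm_num)
    have h5 : (2 : ℝ) ^ (x + 5) = 32 * 2 ^ x := by
      rw [pow_add]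
      ring
    have h6 : (2 : ℝ) ^ (x + 2) = 4 * 2 ^ x := by
      rw [pow_add]
      ring
    rw [h6]
    linarith
  have hh2 : ∀ a : ℕ, a ≤ K → (1 : ℝ) / 2 ^ h ≤ 1 / 2 ^ (a * u) := fun a ha =>
    hmono _ _ ((Nat.mul_le_mul_right u ha).trans hK)
  have hsx : (1 : ℝ) / (1 / 2 ^ (x + 2)) = 2 ^ (x + 2) := by
    rw [one_div_one_div]
  have hone : ∀ a : ℕ, (1 : ℝ) ≤ 2 ^ a := fun a => one_le_pow₀ (by norm_num)
  -- the windows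
  have hwin : ∀ w, wa ≤ w → w ≤ wb → ∃ z : F.Ω → Fin 2 → ℝ,
      Win F i₀ A f (w * u) ((lam w - 1) * u) z := by
    intro w h1 h2
    obtain ⟨l1, l2⟩ := hlam w h1 h2
    obtain ⟨ζ, hζ⟩ := (hCn w h1 h2).frame hon hSI hpos
    refine ⟨fun ω j => if j = i₀ then 0 else
      (⌊(2 : ℝ) ^ ((lam w - 1) * u) * ζ (slam F (w * u) ω) j⌋ : ℝ) / 2 ^ ((lam w - 1) * u),
      ⟨fun y j => if j = i₀ then 0 else
        (⌊(2 : ℝ) ^ ((lam w - 1) * u) * ζ y j⌋ : ℝ) / 2 ^ ((lam w - 1) * u), fun ω => rfl⟩,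
      ?_, ?_, ?_⟩
    · intro ω j
      by_cases hj : j = i₀
      · exact ⟨0, by simp [hj]⟩
      · exact ⟨⌊(2 : ℝ) ^ ((lam w - 1) * u) * ζ (slam F (w * u) ω) j⌋, by simp [hj]⟩
    · intro ω
      simp
    · intro ω hω j hj
      simp only [if_neg hj]
      have g1 := hζ ω hω j
      have g2 := round_near ((lam w - 1) * u) (ζ (slam F (w * u) ω) j)
      have g3 : (1 : ℝ) / 2 ^ (lam w * u) + (2 * (1 / 2 ^ (lam w * u)) + 2 * (1 / 2 ^ h)) /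
          (1 / 2 ^ (x + 2)) ≤ 1 / 2 ^ ((lam w - 1) * u) := by
        refine le_trans ?_ (hpow (lam w) l1)
        have g4 := hh2 (lam w) l2
        have g5 : (2 * (1 / 2 ^ (lam w * u)) + 2 * (1 / 2 ^ h)) / (1 / 2 ^ (x + 2) : ℝ) ≤
            (4 * (1 / 2 ^ (lam w * u))) * 2 ^ (x + 2) := by
          rw [div_eq_mul_one_div, hsx]
          refine mul_le_mul_of_nonneg_right ?_ (by positivity)
          linarith
        linarith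
      have g6 := abs_sub_le (f (Fam.pt F ω) j) (ζ (slam F (w * u) ω) j)
        ((⌊(2 : ℝ) ^ ((lam w - 1) * u) * ζ (slam F (w * u) ω) j⌋ : ℝ) / 2 ^ ((lam w - 1) * u))
      have g7 : (2 : ℝ) / 2 ^ ((lam w - 1) * u) = 2 * (1 / 2 ^ ((lam w - 1) * u)) := by ring
      rw [g7]
      linarith
  choose! z hz using hwin
  refine ⟨f, n, z, ⟨⟨?_, hbd⟩, hz, ?_⟩⟩
  · exact hon.mono (hmono _ _ hK)
  -- visibility
  intro v h1 h2 h3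
  obtain ⟨l1, l2⟩ := hlam v h1 h2
  have hr : (v + lam v + s) * u ≤ J := (Nat.mul_le_mul_right u h3).trans hpb
  obtain ⟨e, n', hen⟩ := hcel v h1 h2 h3
  have hen' : OnL i₀ (1 / 2 ^ (lam v * u)) (Fam.pt F) F.d A
      (fun y => e (psi F ((v + lam v + s) * u) y))
      (fun y => n' (psi F ((v + lam v + s) * u) y)) := by
    intro ω hω j
    simp only [psi_pt F hr]
    exact hen ω hω j
  refine ⟨fun y => e y (1 - i₀), fun ω hω => ?_⟩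
  have g1 := hon.unique hen' hSI hpos ω hω (1 - i₀)
  simp only [psi_pt F hr] at g1
  refine g1.trans ?_
  rw [div_eq_mul_one_div, hsx]
  have g4 := hh2 (lam v) l2
  have g5 := hpow (lam v) l1
  have g6 : (2 : ℝ) / 2 ^ ((lam v - 1) * u) = 2 * (1 / 2 ^ ((lam v - 1) * u)) := by ring
  have g7 : (0 : ℝ) < 1 / 2 ^ ((lam v - 1) * u) := by positivity
  have g8 : (2 * (1 / 2 ^ h) + 2 * (1 / 2 ^ (lam v * u))) * (2 : ℝ) ^ (x + 2) ≤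
      (4 * (1 / 2 ^ (lam v * u))) * 2 ^ (x + 2) :=
    mul_le_mul_of_nonneg_right (by linarith) (by positivity)
  have g9 : (0 : ℝ) < 1 / 2 ^ (lam v * u) := by positivity
  rw [g6]
  nlinarith

end Frmm

end Pool.K2S
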