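import Pool.Agent.H64.K2.FRMa

/-!
# Row FRM: the slopes of the contexts
-/

set_option autoImplicit false

namespace Pool.K2S

open Finset Real
open Pool.Agent.H49.Ent Pool.Agent.H32.Dense Pool.STK Pool.KA Pool.KSAT

namespace Frmm

theorem prefix_fn {J : ℕ} (F : Fam 2 J) {r r' : ℕ} (h : r ≤ r') (ω : F.Ω) :
    (F.X r ω, F.W ω) = ((fun i => F.X r' ω i / 2 ^ (r' - r) : Fin 2 → ℤ), F.W ω) := by
  refine Prod.ext ?_ rfl
  funext i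
  have h1 := X_div F (g := r') (a := r' - r) (by omega) ω i
  have h2 : r' - (r' - r) = r := by omega
  rw [h2] at h1
  exact h1

/-- The slopes of all contexts at once. -/
theorem frs_core {C : ℝ}
    (hC : ∀ (J : ℕ) (F : Fam 2 J) (i₀ : Fin 2) (A : F.Ω → Prop)
      (f n : (Fin 2 → ℤ) × (ℕ × F.ζ) → Fin 2 → ℝ) (w q l v l' H L : ℕ)
      (z z' : F.Ω → Fin 2 → ℝ) (e : (Fin 2 → ℤ) × (ℕ × F.ζ) → ℝ) (η : ℝ),
      IsLaw (Pool.Agent.H49.Ent.cond F.p A True) → Frm F i₀ A H f n →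
      Win F i₀ A f w l z → Win F i₀ A f v l' z' →
      w ≤ v → v ≤ q + w → q + w + l ≤ v + l' → q + w + l ≤ J → l ≤ L → L ≤ l' → l' ≤ H →
      (∀ ω, A ω → |f (Fam.pt F ω) (1 - i₀) - e (F.X (q + w + l) ω, F.W ω)| ≤ 2 / 2 ^ L) →
      (((q + w + l : ℕ) : ℝ) - v) * Real.log 2 - η ≤
        CH (Pool.Agent.H49.Ent.cond F.p A True) (fun ω => ⌊(2 : ℝ) ^ (q + w + l) * F.x ω i₀⌋)
          (fun ω => (F.qlb v 0 l' i₀ z' ω, F.T ω)) →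
      CH (Pool.Agent.H49.Ent.cond F.p A True) (fun ω => ⌊(2 : ℝ) ^ L * f (Fam.pt F ω) (1 - i₀)⌋)
        (fun ω => (F.qlb w q l i₀ z ω, F.T ω)) ≤ η + C)
    {J : ℕ} {F : Fam 2 J} {i₀ : Fin 2} {A : F.Ω → Prop} {u s q₀ K pb wa wb : ℕ}
    {lam Lp : ℕ → ℕ} {f n : (Fin 2 → ℤ) × (ℕ × F.ζ) → Fin 2 → ℝ} {z : ℕ → F.Ω → Fin 2 → ℝ}
    {η δ : ℝ} (hA : 0 < Pe F.p A) (hFr : Fr1 F i₀ A u (K * u) s wa wb pb lam f n z)
    (hpb : pb * u ≤ J)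
    (c1 : ∀ w, wa ≤ w → w ≤ wb → 2 ≤ lam w ∧ w + lam w ≤ pb)
    (c2 : ∀ w w', wa ≤ w → w ≤ w' → w' ≤ wb → lam w ≤ lam w')
    (c3 : ∀ w q, wa ≤ w → w + q ≤ wb → q + lam w ≤ K)
    (c4 : ∀ w q, wa ≤ w → q₀ ≤ q → w + q ≤ wb → lam w - 1 ≤ Lp (q + w + (lam w - 1)) ∧
      ∃ v, w ≤ v ∧ v ≤ w + q ∧ v + lam v + s ≤ q + w + (lam w - 1) ∧
        Lp (q + w + (lam w - 1)) ≤ lam v - 1)
    (hWS : ∀ v, wa ≤ v → v ≤ wb → ∀ P : ℕ, v * u ≤ P → P ≤ J →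
      ((P : ℝ) - (v * u : ℕ)) * Real.log 2 - η ≤
        CH (Pool.Agent.H49.Ent.cond F.p A True) (fun ω => ⌊(2 : ℝ) ^ P * F.x ω i₀⌋)
          (fun ω => (F.qlb (v * u) 0 ((lam v - 1) * u) i₀ (z v) ω, F.T ω)))
    (hδ : 0 < δ) (hηδ : η + C ≤ δ) :
    ∃ B : F.Ω → Prop, Sub B A ∧
      Real.exp (-(2 * (((wb + 1) * (wb + 1) : ℕ) : ℝ) ^ 2 * δ)) / 2 * Pe F.p A ≤ Pe F.p B ∧
      ∃ φ : ℕ → ℕ → F.Ω → ℝ, Frs F i₀ B u (K * u) wa wb q₀ lam Lp f n z φ := by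
  classical
  have hp := F.isLaw
  have hlaw := isLaw_cond hp hA
  -- visibility
  have hvis : ∀ w q, wa ≤ w → q₀ ≤ q → w + q ≤ wb →
      ∃ e : (Fin 2 → ℤ) × (ℕ × F.ζ) → ℝ, ∀ ω, A ω →
      |f (Fam.pt F ω) (1 - i₀) - e (F.X ((q + w + (lam w - 1)) * u) ω, F.W ω)| ≤
        2 / 2 ^ (Lp (q + w + (lam w - 1)) * u) := by
    intro w q h1 h2 h3
    obtain ⟨-, v, v1, v2, v3, v4⟩ := c4 w q h1 h2 h3
    obtain ⟨-, d2⟩ := c1 (w + q) (by omega) h3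
    obtain ⟨d1, -⟩ := c1 w h1 (by omega)
    have d3 := c2 w (w + q) h1 (by omega) h3
    obtain ⟨e, he⟩ := hFr.vis v (by omega) (by omega) (by omega)
    refine ⟨fun y => e ((fun i => y.1 i /
      2 ^ ((q + w + (lam w - 1)) * u - (v + lam v + s) * u) : Fin 2 → ℤ), y.2), fun ω hω => ?_⟩
    have g1 := he ω hω
    rw [prefix_fn F (Nat.mul_le_mul_right u v3)] at g1
    refine g1.trans (div_le_div_of_nonneg_left (by norm_num) (by positivity) ?_)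
    exact pow_le_pow_right₀ (by norm_num) (Nat.mul_le_mul_right u v4)
  -- the entropy of the slopes
  have hCH : ∀ w q, wa ≤ w → q₀ ≤ q → w + q ≤ wb →
      CH (Pool.Agent.H49.Ent.cond F.p A True)
        (fun ω => ⌊(2 : ℝ) ^ (Lp (q + w + (lam w - 1)) * u) * f (Fam.pt F ω) (1 - i₀)⌋)
        (fun ω => (F.qlb (w * u) (q * u) ((lam w - 1) * u) i₀ (z w) ω, F.T ω)) ≤ δ := by
    intro w q h1 h2 h3
    obtain ⟨l1, v, v1, v2, v3, v4⟩ := c4 w q h1 h2 h3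
    obtain ⟨d4, d2⟩ := c1 (w + q) (by omega) h3
    obtain ⟨d1, -⟩ := c1 w h1 (by omega)
    have d3 := c2 w (w + q) h1 (by omega) h3
    have d5 := c2 v (w + q) (by omega) v2 h3
    have d6 := c3 (w + q) 0 (by omega) (by omega)
    obtain ⟨e, he⟩ := hvis w q h1 h2 h3
    have eP : (q + w + (lam w - 1)) * u = q * u + w * u + (lam w - 1) * u := by ring
    have ev : (w + q) * u = w * u + q * u := by ring
    refine (hC J F i₀ A f n (w * u) (q * u) ((lam w - 1) * u) ((w + q) * u)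
      ((lam (w + q) - 1) * u) (K * u) (Lp (q + w + (lam w - 1)) * u) (z w) (z (w + q)) e η hlaw
      hFr.frm (hFr.win w h1 (by omega)) (hFr.win (w + q) (by omega) h3) ?_ ?_ ?_ ?_ ?_ ?_ ?_ ?_
      ?_).trans hηδ
    · exact Nat.mul_le_mul_right u (by omega)
    · rw [ev]
      omega
    · rw [← eP, ← Nat.add_mul]
      exact Nat.mul_le_mul_right u (by omega)
    · rw [← eP]
      exact (Nat.mul_le_mul_right u (by omega)).trans hpb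
    · exact Nat.mul_le_mul_right u l1
    · exact Nat.mul_le_mul_right u (by omega)
    · exact Nat.mul_le_mul_right u (by omega)
    · rw [← eP]
      exact he
    · have h4 := hWS (w + q) (by omega) h3 (q * u + w * u + (lam w - 1) * u) (by rw [ev]; omega)
        (by rw [← eP]; exact (Nat.mul_le_mul_right u (by omega)).trans hpb)
      exact h4
  -- all contexts at once
  obtain ⟨M, hM⟩ : ∃ M, M = (wb + 1) * (wb + 1) := ⟨_, rfl⟩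
  obtain ⟨ix, hix⟩ : ∃ ix : Fin M ≃ Fin (wb + 1) × Fin (wb + 1), True := by
    subst hM
    exact ⟨finProdFinEquiv.symm, trivial⟩
  obtain ⟨c, hc⟩ : ∃ c : Fin M → F.Ω → ℤ, c = fun i ω =>
      if wa ≤ ((ix i).1 : ℕ) ∧ q₀ ≤ ((ix i).2 : ℕ) ∧ ((ix i).1 : ℕ) + ((ix i).2 : ℕ) ≤ wb then
      ⌊(2 : ℝ) ^ (Lp (((ix i).2 : ℕ) + ((ix i).1 : ℕ) + (lam ((ix i).1 : ℕ) - 1)) * u) *
        f (Fam.pt F ω) (1 - i₀)⌋ else 0 := ⟨_, rfl⟩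
  obtain ⟨g, hg⟩ : ∃ g : Fin M → F.Ω →
      ((((ℕ × (Fin 2 → ℝ)) × ((Fin 2 → ℤ) × (Fin 2 → ℤ))) × F.ζ) × ℕ), g = fun i ω =>
      (F.qlb (((ix i).1 : ℕ) * u) (((ix i).2 : ℕ) * u)
      ((lam ((ix i).1 : ℕ) - 1) * u) i₀ (z ((ix i).1 : ℕ)) ω, F.T ω) := ⟨_, rfl⟩
  obtain ⟨ζ, hζ⟩ := exists_fns_of_CH (n := M) (S := fun _ => ℤ)
    (T := fun _ => (((ℕ × (Fin 2 → ℝ)) × ((Fin 2 → ℤ) × (Fin 2 → ℤ))) × F.ζ) × ℕ)
    hlaw c g hδ (by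
      intro i
      rw [hc, hg]
      by_cases h : wa ≤ ((ix i).1 : ℕ) ∧ q₀ ≤ ((ix i).2 : ℕ) ∧
        ((ix i).1 : ℕ) + ((ix i).2 : ℕ) ≤ wb
      · simp only [if_pos h]
        exact hCH _ _ h.1 h.2.1 h.2.2
      · simp only [if_neg h]
        rw [CH_eq_zero hlaw.nonneg fun _ _ _ _ _ => rfl]
        exact hδ.le)
  rw [Pe_cond, le_div_iff₀ hA] at hζ
  obtain ⟨B, hB⟩ : ∃ B : F.Ω → Prop, B = fun ω => A ω ∧ ∀ i, c i ω = ζ i (g i ω) := ⟨_, rfl⟩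
  rw [← hB] at hζ
  have hBA : Sub B A := by
    rw [hB]
    exact fun ω hω => hω.1
  have hBc : ∀ ω, B ω → ∀ i, c i ω = ζ i (g i ω) := by
    rw [hB]
    exact fun ω hω => hω.2
  refine ⟨B, hBA, ?_, fun w q ω => if h : w < wb + 1 ∧ q < wb + 1 then
    ((ζ (ix.symm (⟨w, h.1⟩, ⟨q, h.2⟩)) (F.qlb (w * u) (q * u) ((lam w - 1) * u) i₀ (z w) ω,
      F.T ω) : ℤ) : ℝ) / 2 ^ (Lp (q + w + (lam w - 1)) * u) else 0, ?_, ?_, ?_, ?_⟩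
  · rw [← hM]
    exact hζ
  · exact frm_sub hFr.frm hBA
  · intro w h1 h2
    exact win_sub (hFr.win w h1 h2) hBA
  · intro w q h1 h2 h3
    have hwq : w < wb + 1 ∧ q < wb + 1 := ⟨by omega, by omega⟩
    refine ⟨⟨fun y => ((ζ (ix.symm (⟨w, hwq.1⟩, ⟨q, hwq.2⟩)) y : ℤ) : ℝ) /
      2 ^ (Lp (q + w + (lam w - 1)) * u), fun ω => by simp only [dif_pos hwq]⟩, fun ω hω => ?_⟩
    simp only [dif_pos hwq]
    have h4 := hBc ω hω (ix.symm (⟨w, hwq.1⟩, ⟨q, hwq.2⟩))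
    rw [hc, hg] at h4
    simp only [Equiv.apply_symm_apply] at h4
    rw [if_pos ⟨h1, h2, h3⟩] at h4
    rw [← h4]
    refine (round_near _ _).trans ?_
    exact div_le_div_of_nonneg_right (by norm_num) (by positivity)
  · intro w q h1 h2 h3
    obtain ⟨e, he⟩ := hvis w q h1 h2 h3
    exact ⟨e, fun ω hω => he ω (hBA ω hω)⟩

end Frmm

end Pool.K2S
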